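import Pool.Agent.Q92.Sic.Even

/-! Classification of the trace of involutive Clifford symmetries (for MP_1c78a5_mp). -/

set_option autoImplicit false

open Finset Matrix

namespace Pool.Agent.Q92.Sic

variable {d : ℕ} [NeZero d]

theorem two_three_of_primes {n : ℕ} (hn0 : n ≠ 0) (h4 : 4 ∣ n) (h3 : 3 ∣ n)
    (hp : ∀ p : ℕ, p.Prime → p ∣ n → p = 2 ∨ p = 3) :
    ∃ e b : ℕ, 2 ≤ e ∧ 1 ≤ b ∧ n = 2 ^ e * 3 ^ b := by
  obtain ⟨e, m, hm, hnm⟩ := Nat.exists_eq_pow_mul_and_not_dvd hn0 2 (by norm_num)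
  have hm0 : m ≠ 0 := by rintro rfl; exact hm (dvd_zero _)
  obtain ⟨b, m', hm', hmm⟩ := Nat.exists_eq_pow_mul_and_not_dvd hm0 3 (by norm_num)
  have hm1 : m' = 1 := by
    by_contra hne
    obtain ⟨p, hpp, hpm⟩ := Nat.exists_prime_and_dvd hne
    have h5 : p ∣ m := hmm ▸ hpm.mul_left _
    rcases hp p hpp (hnm ▸ h5.mul_left _) with h6 | h6
    · rw [h6] at h5; exact hm h5
    · rw [h6] at hpm; exact hm' hpm
  rw [hm1, mul_one] at hmm
  rw [hmm] at hnm
  refine ⟨e, b, ?_, ?_, hnm⟩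
  · by_contra hlt
    push Not at hlt
    have h7 : ¬ 2 ∣ 3 ^ b := by
      intro h8
      have := Nat.prime_two.dvd_of_dvd_pow h8
      omega
    interval_cases e
    · rw [pow_zero, one_mul] at hnm
      exact h7 (hnm ▸ (dvd_trans (by norm_num) h4))
    · rw [pow_one] at hnm
      rw [hnm, show (4 : ℕ) = 2 * 2 by norm_num] at h4
      exact h7 ((Nat.mul_dvd_mul_iff_left (by norm_num)).mp h4)
  · by_contra hlt
    push Not at hlt
    interval_cases b
    rw [pow_zero, mul_one] at hnm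
    rw [hnm] at h3
    have := Nat.prime_three.dvd_of_dvd_pow h3
    omega

namespace Core

variable {P W : Matrix (ZMod d) (ZMod d) ℂ}

theorem even_case (h : Core P W) (hW : ∀ c : ℂ, W ≠ c • 1) {s : ℕ}
    (hs : d + 1 = s ^ 2) {k : ℤ} (hk : trace W = k) (hk2 : k ^ 2 = h.K.card)
    (hb1 : -((s : ℤ) - 1) ≤ k) (hb2 : k ≤ s + 1) (heven : Even d) :
    k = s + 1 ∨ k = s - 1 ∨ k = -((s : ℤ) - 1) ∨
      ∃ e b : ℕ, 2 ≤ e ∧ 1 ≤ b ∧ (d : ℤ) = 2 ^ e * 3 ^ b * |k| := by
  have hkd : k.natAbs ∣ d := by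
    have := h.dvd hk2
    rw [← Int.natAbs_dvd] at this
    exact_mod_cast this
  obtain ⟨n, hn'⟩ := hkd
  have hn : n * k.natAbs = d := by rw [mul_comm]; exact hn'.symm
  have hd0 := NeZero.pos d
  have hcard := h.card_lt hW
  rw [h.natAbs_sq_card hk2] at hcard
  have hn1 : n ≠ 1 := by
    rintro rfl
    rw [one_mul] at hn
    rw [hn] at hcard
    exact lt_irrefl _ hcard
  obtain ⟨ν, hν⟩ := h.two_even hs hk hk2 hn heven hn1
  obtain ⟨κ', hκ'⟩ := h.two_k hk2 heven
  obtain ⟨κ, hκ⟩ : ∃ κ : ℕ, k.natAbs = 2 * κ := ⟨κ'.natAbs, by rw [hκ', Int.natAbs_mul]; rfl⟩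
  obtain ⟨j, hj⟩ : ∃ j, s = 2 * j + 1 := by
    rcases Nat.even_or_odd' s with ⟨j, hj | hj⟩
    · exfalso
      obtain ⟨x, hx⟩ := heven
      rw [hj] at hs
      have : (2 * j) ^ 2 = 2 * (2 * j ^ 2) := by ring
      omega
    · exact ⟨j, hj⟩
  have hdj : d = 4 * (j * (j + 1)) := by
    have : d + 1 = 4 * (j * (j + 1)) + 1 := by rw [hs, hj]; ring
    omega
  have hj1 : 1 ≤ j := by
    rcases Nat.eq_zero_or_pos j with h0 | h0
    · rw [h0] at hdj; omega
    · exact h0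
  have hνκ : ν * κ = j * (j + 1) := by
    have : 4 * (ν * κ) = 4 * (j * (j + 1)) := by
      rw [← hdj, ← hn, hν, hκ]; ring
    omega
  have hkle : k.natAbs ≤ s + 1 := by omega
  have hκle : κ ≤ j + 1 := by omega
  have hν0 : ν ≠ 0 := by
    rintro rfl
    rw [zero_mul] at hνκ
    have : 0 < j * (j + 1) := by positivity
    omega
  have hqn : ∀ q, q ∣ ν → q ∣ n := fun q hq => hν ▸ hq.mul_left 2
  -- the two good cases
  have good1 : ν ∣ j → k = s + 1 := by
    intro hdiv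
    have h1 : ν ≤ j := Nat.le_of_dvd hj1 hdiv
    have h2 : κ = j + 1 := by
      apply le_antisymm hκle
      by_contra hlt
      push Not at hlt
      have h4 : ν * κ < j * (j + 1) := by
        calc ν * κ ≤ j * κ := Nat.mul_le_mul_right _ h1
          _ < j * (j + 1) := Nat.mul_lt_mul_of_pos_left hlt hj1
      omega
    omega
  have good2 : ν ∣ j + 1 → k = s + 1 ∨ k = s - 1 ∨ k = -((s : ℤ) - 1) := by
    intro hdiv
    obtain ⟨c, hc⟩ := hdiv
    rcases Nat.lt_or_ge c 2 with h3 | h3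
    · have hc1 : c = 1 := by
        interval_cases c
        · omega
        · rfl
      rw [hc1, mul_one] at hc
      have h2 : κ = j := by
        rw [← hc, mul_comm j] at hνκ
        exact Nat.eq_of_mul_eq_mul_left (by omega) hνκ
      right
      omega
    · have h4 : 2 * ν ≤ j + 1 := by nlinarith
      have h5 : 2 * (j * (j + 1)) ≤ (j + 1) * (j + 1) := by
        rw [← hνκ]
        calc 2 * (ν * κ) = (2 * ν) * κ := by ring
          _ ≤ (j + 1) * (j + 1) := Nat.mul_le_mul h4 hκle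
      have h6 : 2 * j ≤ j + 1 := by
        have : (j + 1) * (2 * j) ≤ (j + 1) * (j + 1) := by
          calc (j + 1) * (2 * j) = 2 * (j * (j + 1)) := by ring
            _ ≤ _ := h5
        exact Nat.le_of_mul_le_mul_left this (by omega)
      have hj' : j = 1 := by omega
      left
      apply good1
      rw [hj'] at h4 ⊢
      have : ν = 1 := by omega
      rw [this]
  -- facts about primes
  have F1 : ∀ q1 q2 : ℕ, q1.Prime → q2.Prime → q1 ≠ 2 → q2 ≠ 2 → q1 ∣ ν → q2 ∣ ν → q1 ∣ j →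
      q2 ∣ j + 1 → False := by
    intro q1 q2 hq1 hq2 h21 h22 hν1 hν2 hj1' hj2'
    refine h.no_mix hs hk hk2 hn hq1 hq2 (hq1.odd_of_ne_two h21) (hq2.odd_of_ne_two h22)
      (hqn _ hν1) (hqn _ hν2) ?_ ?_
    · have : (s : ℤ) - 1 = ((2 * j : ℕ) : ℤ) := by rw [hj]; push_cast; ring
      rw [this]
      exact_mod_cast hj1'.mul_left 2
    · have : (s : ℤ) + 1 = ((2 * (j + 1) : ℕ) : ℤ) := by rw [hj]; push_cast; ring
      rw [this]
      exact_mod_cast hj2'.mul_left 2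
  have F2 : 2 ∣ ν → ∀ q : ℕ, q.Prime → 5 ≤ q → q ∣ ν → (q ∣ j → 2 ∣ j) ∧
      (q ∣ j + 1 → 2 ∣ j + 1) := by
    intro h2 q hq hq5 hqν
    have h4 : 4 ∣ n := by
      rw [hν]
      exact mul_dvd_mul_left 2 h2
    constructor
    · intro hqj
      have := h.two_five hs hk hk2 hn heven h4 hq hq5 (hqn _ hqν) 1 (Or.inl rfl) (by
        have : (s : ℤ) - 1 = ((2 * j : ℕ) : ℤ) := by rw [hj]; push_cast; ring
        rw [this]
        exact_mod_cast hqj.mul_left 2)
      omega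
    · intro hqj
      have := h.two_five hs hk hk2 hn heven h4 hq hq5 (hqn _ hqν) (-1) (Or.inr rfl) (by
        have : (s : ℤ) - -1 = ((2 * (j + 1) : ℕ) : ℤ) := by rw [hj]; push_cast; ring
        rw [this]
        exact_mod_cast hqj.mul_left 2)
      omega
  have prime_dich : ∀ q : ℕ, q.Prime → q ∣ ν → q ∣ j ∨ q ∣ j + 1 := by
    intro q hq hqν
    have : q ∣ j * (j + 1) := by rw [← hνκ]; exact hqν.mul_right _
    exact (Nat.Prime.dvd_mul hq).mp this
  have hcop : ∀ q : ℕ, q.Prime → q ∣ j → q ∣ j + 1 → False := by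
    intro q hq h1 h2
    have h3 : q ∣ 1 := (Nat.dvd_add_right h1).mp h2
    exact hq.one_lt.ne' (Nat.dvd_one.mp h3)
  by_cases hA : ∀ q : ℕ, q.Prime → q ∣ ν → q ∣ j
  · left
    apply good1
    have hc : Nat.Coprime ν (j + 1) := by
      refine Nat.coprime_of_dvd fun q hq h1 h2 => ?_
      exact hcop q hq (hA q hq h1) h2
    refine Nat.Coprime.dvd_of_dvd_mul_right hc ?_
    rw [← hνκ]
    exact Dvd.intro _ rfl
  by_cases hB : ∀ q : ℕ, q.Prime → q ∣ ν → q ∣ j + 1
  · have h1 : ν ∣ j + 1 := by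
      have hc : Nat.Coprime ν j := by
        refine Nat.coprime_of_dvd fun q hq h1 h2 => ?_
        exact hcop q hq h2 (hB q hq h1)
      refine Nat.Coprime.dvd_of_dvd_mul_left hc ?_
      rw [← hνκ]
      exact Dvd.intro _ rfl
    rcases good2 h1 with h2 | h2 | h2
    · left; exact h2
    · right; left; exact h2
    · right; right; left; exact h2
  -- the mixed case
  push Not at hA hB
  obtain ⟨q2, hq2, hν2, hj2⟩ := hA
  obtain ⟨q1, hq1, hν1, hj1'⟩ := hB
  have a1 : q1 ∣ j := (prime_dich q1 hq1 hν1).resolve_right hj1'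
  have a2 : q2 ∣ j + 1 := (prime_dich q2 hq2 hν2).resolve_left hj2
  have ge5 : ∀ q : ℕ, q.Prime → q ≠ 2 → q ≠ 3 → 5 ≤ q := by
    intro q hq h2 h3
    have h1 := hq.two_le
    have h4 : q ≠ 4 := by rintro rfl; exact absurd hq (by norm_num)
    omega
  have main : 2 ∣ ν ∧ 3 ∣ ν ∧ ∀ q : ℕ, q.Prime → q ∣ ν → q = 2 ∨ q = 3 := by
    by_cases e1 : q1 = 2
    · subst e1
      have e2 : q2 ≠ 2 := by
        rintro rfl
        exact hcop 2 hq2 a1 a2
      have e3 : q2 = 3 := by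
        by_contra hne
        have := (F2 hν1 q2 hq2 (ge5 q2 hq2 e2 hne) hν2).2 a2
        exact hcop 2 hq1 a1 this
      subst e3
      refine ⟨hν1, hν2, fun q hq hqν => ?_⟩
      by_contra hcon
      push Not at hcon
      have h5 := ge5 q hq hcon.1 hcon.2
      rcases prime_dich q hq hqν with h6 | h6
      · exact F1 q 3 hq hq2 hcon.1 (by norm_num) hqν hν2 h6 a2
      · exact hcop 2 hq1 a1 ((F2 hν1 q hq h5 hqν).2 h6)
    · by_cases e2 : q2 = 2
      · subst e2
        have e3 : q1 = 3 := by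
          by_contra hne
          have := (F2 hν2 q1 hq1 (ge5 q1 hq1 e1 hne) hν1).1 a1
          exact hcop 2 hq2 this a2
        subst e3
        refine ⟨hν2, hν1, fun q hq hqν => ?_⟩
        by_contra hcon
        push Not at hcon
        have h5 := ge5 q hq hcon.1 hcon.2
        rcases prime_dich q hq hqν with h6 | h6
        · exact hcop 2 hq2 ((F2 hν2 q hq h5 hqν).1 h6) a2
        · exact F1 3 q hq1 hq (by norm_num) hcon.1 hν1 hqν a1 h6
      · exact absurd (F1 q1 q2 hq1 hq2 e1 e2 hν1 hν2 a1 a2) id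
  obtain ⟨m2, m3, mp⟩ := main
  right; right; right
  have hn0 : n ≠ 0 := by rw [hν]; omega
  obtain ⟨e, b, he, hb, hnn⟩ := two_three_of_primes hn0 (by rw [hν]; exact mul_dvd_mul_left 2 m2)
    (hqn 3 m3) (by
      intro p hp hpn
      rw [hν] at hpn
      rcases (Nat.Prime.dvd_mul hp).mp hpn with h1 | h1
      · left; exact (Nat.prime_dvd_prime_iff_eq hp Nat.prime_two).mp h1
      · exact mp p hp h1)
  refine ⟨e, b, he, hb, ?_⟩
  rw [← hn, hnn]
  push_cast
  rfl

theorem all_case (h : Core P W) (hd : 2 ≤ d) (hW : ∀ c : ℂ, W ≠ c • 1) {s : ℕ}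
    (hs : d + 1 = s ^ 2) {k : ℤ} (hk : trace W = k) (hk2 : k ^ 2 = h.K.card)
    (hb1 : -((s : ℤ) - 1) ≤ k) (hb2 : k ≤ s + 1) :
    k = s + 1 ∨ k = s - 1 ∨ k = -((s : ℤ) - 1) ∨
      ∃ e b : ℕ, 2 ≤ e ∧ 1 ≤ b ∧ (d : ℤ) = 2 ^ e * 3 ^ b * |k| := by
  rcases Nat.even_or_odd d with he | ho
  · exact h.even_case hW hs hk hk2 hb1 hb2 he
  · rcases h.odd_case hd hW hs hk hk2 hb1 hb2 ho with h1 | h1 | h1
    · left; exact h1
    · right; left; exact h1
    · right; right; left; exact h1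

end Core

end Pool.Agent.Q92.Sic
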