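import Mathlib

/-! Arithmetic of the trace of an involutive symmetry (for MP_1c78a5_mp). -/

set_option autoImplicit false

namespace Pool.Agent.Q92.Sic

theorem isSq_of_rat {n : ℕ} {r : ℚ} (h : r ^ 2 = n) : ∃ k : ℕ, n = k ^ 2 := by
  have h1 : IsSquare ((n : ℕ) : ℚ) := ⟨r, by rw [← h, sq]⟩
  rw [Rat.isSquare_natCast_iff] at h1
  obtain ⟨k, hk⟩ := h1
  exact ⟨k, by rw [hk, sq]⟩

theorem arith (d n : ℕ) (t : ℝ) (b : ℤ) (hd : 2 ≤ d) (ht : t ^ 2 = n) (hn : 1 ≤ n) (hn2 : n < d ^ 2)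
    (hb : |b| ≤ (d : ℤ) ^ 2 - n) (hx : (d * t - n) * Real.sqrt (d + 1) = b) :
    ∃ (s : ℕ) (k : ℤ), d + 1 = s ^ 2 ∧ t = k ∧ -((s : ℤ) - 1) ≤ k ∧ k ≤ s + 1 := by
  have hd0 : (0 : ℝ) < d := by positivity
  have hn0 : (0 : ℝ) < n := by exact_mod_cast hn
  have hs : Real.sqrt (d + 1) ^ 2 = d + 1 := Real.sq_sqrt (by positivity)
  have h1 : (d * t - n) ^ 2 * (d + 1) = (b : ℝ) ^ 2 := by rw [← hx, mul_pow, hs]
  -- t is rational
  have h2 : t = (((d : ℚ) ^ 2 * n * (d + 1) + n ^ 2 * (d + 1) - b ^ 2) / (2 * d * n * (d + 1)) : ℚ) := by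
    push_cast
    rw [eq_div_iff (by positivity)]
    have h3 : (d * t - n) ^ 2 = d ^ 2 * n - 2 * d * n * t + n ^ 2 := by
      have : (d * t - n) ^ 2 = d ^ 2 * t ^ 2 - 2 * d * n * t + n ^ 2 := by ring
      rw [this, ht]
    rw [h3] at h1
    linarith
  obtain ⟨k0, hk0⟩ := isSq_of_rat (n := n) (r := ((d : ℚ) ^ 2 * n * (d + 1) + n ^ 2 * (d + 1) - b ^ 2) /
    (2 * d * n * (d + 1))) (by
      have h4 := ht
      rw [h2] at h4
      exact_mod_cast h4)
  have ht2 : ∃ k : ℤ, t = k := by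
    have h5 : t ^ 2 = (k0 : ℝ) ^ 2 := by rw [ht, hk0]; push_cast; ring
    rcases sq_eq_sq_iff_eq_or_eq_neg.mp h5 with h6 | h6
    · exact ⟨k0, by rw [h6]; push_cast; ring⟩
    · exact ⟨-k0, by rw [h6]; push_cast; ring⟩
  obtain ⟨k, hk⟩ := ht2
  have hkn : k ^ 2 = n := by
    rw [hk] at ht
    exact_mod_cast ht
  have h7 : ((d : ℤ) * k - n) ^ 2 * (d + 1) = b ^ 2 := by
    rw [hk] at h1
    exact_mod_cast h1
  have hnz : 1 ≤ (n : ℤ) := by exact_mod_cast hn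
  have hn2z : (n : ℤ) < d ^ 2 := by exact_mod_cast hn2
  have hdz : (2 : ℤ) ≤ d := by exact_mod_cast hd
  have hk1 : |k| < d := by
    apply abs_lt_of_sq_lt_sq _ (by linarith)
    rw [hkn]; exact hn2z
  obtain ⟨hk2, hk3⟩ := abs_lt.mp hk1
  have hkne : k ≠ 0 := by
    intro h; rw [h] at hkn; simp at hkn; omega
  have h8 : (d : ℤ) * k - n ≠ 0 := by
    rw [← hkn]
    intro h
    have : k * (d - k) = 0 := by linarith [h]
    rcases mul_eq_zero.mp this with h9 | h9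
    · exact hkne h9
    · omega
  have h9 : (((b : ℚ) / ((d : ℚ) * k - n)) ^ 2 : ℚ) = ((d + 1 : ℕ) : ℚ) := by
    have h10 : ((d : ℚ) * k - n) ≠ 0 := by exact_mod_cast h8
    rw [div_pow, div_eq_iff (pow_ne_zero 2 h10)]
    have : (((d : ℤ) * k - n) ^ 2 * (d + 1) : ℚ) = b ^ 2 := by exact_mod_cast h7
    rw [← this]
    push_cast
    ring
  obtain ⟨s, hs2⟩ := isSq_of_rat h9
  refine ⟨s, k, hs2, hk, ?_⟩
  have hsz : (d : ℤ) + 1 = s ^ 2 := by exact_mod_cast hs2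
  have hs3 : (2 : ℤ) ≤ s := by
    by_contra h
    have h11 : (s : ℤ) ≤ 1 := by omega
    have h12 : (0 : ℤ) ≤ s := by positivity
    nlinarith
  -- |b| = s |k| |d - k|
  have hb2 : |b| = s * (|k| * (d - k)) := by
    have h13 : |b| ^ 2 = (s * (|k| * (d - k))) ^ 2 := by
      rw [sq_abs, ← h7, mul_pow, mul_pow, sq_abs, ← hsz, ← hkn]
      ring
    have h14 : (0 : ℤ) ≤ s * (|k| * (d - k)) := by
      have : (0 : ℤ) ≤ d - k := by omega
      positivity
    exact (sq_eq_sq₀ (abs_nonneg b) h14).mp h13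
  have h15 : (s : ℤ) * |k| ≤ d + k := by
    rw [hb2, ← hkn] at hb
    have h16 : (0 : ℤ) < d - k := by omega
    have h17 : (s * |k|) * ((d : ℤ) - k) ≤ (d + k) * (d - k) := by
      calc (s * |k|) * ((d : ℤ) - k) = s * (|k| * (d - k)) := by ring
        _ ≤ _ := hb
        _ = _ := by ring
    exact le_of_mul_le_mul_right h17 h16
  rcases lt_or_gt_of_ne hkne with hneg | hpos
  · rw [abs_of_neg hneg] at h15
    constructor
    · have h18 : (-k) * ((s : ℤ) + 1) ≤ (s - 1) * (s + 1) := by nlinarith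
      have h19 := le_of_mul_le_mul_right h18 (by omega)
      linarith
    · omega
  · rw [abs_of_pos hpos] at h15
    constructor
    · omega
    · have h18 : k * ((s : ℤ) - 1) ≤ (s + 1) * (s - 1) := by nlinarith
      exact le_of_mul_le_mul_right h18 (by omega)

end Pool.Agent.Q92.Sic
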