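import Mathlib

/-! Displacement operators of the cyclic Weyl-Heisenberg group (for MP_1c78a5_mp). -/

set_option autoImplicit false

open Finset Matrix

namespace Pool.Agent.Q92.Sic

variable {d : ℕ} [NeZero d]

/-- the index group -/
abbrev PP (d : ℕ) := ZMod d × ZMod d

/-- the standard character -/
noncomputable def ch (x : ZMod d) : ℂ := ZMod.stdAddChar x

theorem ch_add (x y : ZMod d) : ch (x + y) = ch x * ch y := AddChar.map_add_eq_mul _ x y

theorem ch_zero : ch (0 : ZMod d) = 1 := AddChar.map_zero_eq_one _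

theorem norm_ch (x : ZMod d) : ‖ch x‖ = 1 := by
  unfold ch
  exact AddChar.norm_apply _ x

theorem ch_ne (x : ZMod d) : ch x ≠ 0 := by
  intro h
  have := norm_ch x
  rw [h, norm_zero] at this
  exact zero_ne_one this

theorem star_ch (x : ZMod d) : star (ch x) = ch (-x) := by
  have h1 : ch x * ch (-x) = 1 := by rw [← ch_add, add_neg_cancel, ch_zero]
  have h2 : ch x * star (ch x) = 1 := by
    rw [Complex.star_def, Complex.mul_conj, Complex.normSq_eq_norm_sq, norm_ch]
    simp
  exact mul_left_cancel₀ (ch_ne x) (h2.trans h1.symm)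

theorem ch_inj {x y : ZMod d} (h : ch x = ch y) : x = y := ZMod.injective_stdAddChar h

/-- the displacement operators -/
noncomputable def DD (p : PP d) : Matrix (ZMod d) (ZMod d) ℂ :=
  fun i j => if i = j + p.1 then ch (p.2 * j) else 0

theorem DD_zero : DD (0 : PP d) = 1 := by
  ext i j
  simp only [DD, Prod.fst_zero, add_zero, Prod.snd_zero, zero_mul, ch_zero, Matrix.one_apply]

theorem DD_mul (p q : PP d) : DD p * DD q = ch (p.2 * q.1) • DD (p + q) := by
  ext i j
  rw [Matrix.mul_apply, sum_eq_single (j + q.1)]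
  · simp only [DD, if_true, Matrix.smul_apply, smul_eq_mul, Prod.fst_add, Prod.snd_add]
    by_cases h : i = j + q.1 + p.1
    · rw [if_pos h, if_pos (by rw [h]; ring), ← ch_add, ← ch_add]
      congr 1
      ring
    · rw [if_neg h, if_neg (fun h' => h (by rw [h']; ring)), zero_mul, mul_zero]
  · intro k _ hk
    simp only [DD]
    rw [if_neg hk, mul_zero]
  · intro h; exact absurd (mem_univ _) h

/-- the symplectic form -/
def sf (p q : PP d) : ZMod d := p.2 * q.1 - q.2 * p.1

theorem DD_comm (p q : PP d) : DD p * DD q = ch (sf p q) • (DD q * DD p) := by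
  rw [DD_mul, DD_mul, smul_smul, ← ch_add, add_comm q p]
  congr 2
  simp only [sf]; ring

theorem DD_star (p : PP d) : star (DD p) = ch (p.1 * p.2) • DD (-p) := by
  ext i j
  simp only [Matrix.star_apply, DD, Matrix.smul_apply, smul_eq_mul, Prod.fst_neg, Prod.snd_neg]
  by_cases h : j = i + p.1
  · rw [if_pos h, if_pos (by rw [h]; ring), star_ch, ← ch_add]
    congr 1
    rw [h]; ring
  · rw [if_neg h, if_neg (fun h' => h (by rw [h']; ring)), star_zero, mul_zero]

theorem DD_mul_star (p : PP d) : DD p * star (DD p) = 1 := by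
  rw [DD_star, mul_smul_comm, DD_mul, smul_smul, ← ch_add, add_neg_cancel, DD_zero]
  have : p.1 * p.2 + p.2 * (-p).1 = 0 := by simp only [Prod.fst_neg]; ring
  rw [this, ch_zero, one_smul]

theorem star_DD_mul (p : PP d) : star (DD p) * DD p = 1 := by
  rw [DD_star, smul_mul_assoc, DD_mul, smul_smul, ← ch_add, neg_add_cancel, DD_zero]
  have : p.1 * p.2 + (-p).2 * p.1 = 0 := by simp only [Prod.snd_neg]; ring
  rw [this, ch_zero, one_smul]

theorem sum_ch (x : ZMod d) : ∑ y : ZMod d, ch (y * x) = if x = 0 then (d : ℂ) else 0 := by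
  have h := AddChar.sum_mulShift x (ZMod.isPrimitive_stdAddChar d)
  simp only [ch]
  rw [h, ZMod.card]
  split_ifs <;> simp

theorem trace_DD (p : PP d) : trace (DD p) = if p = 0 then (d : ℂ) else 0 := by
  rw [Matrix.trace]
  simp only [Matrix.diag_apply, DD]
  by_cases h1 : p.1 = 0
  · have : ∀ j : ZMod d, (if j = j + p.1 then ch (p.2 * j) else 0) = ch (j * p.2) := by
      intro j
      rw [h1, add_zero, if_pos rfl, mul_comm]
    simp only [this, sum_ch]
    by_cases h2 : p.2 = 0
    · rw [if_pos h2, if_pos (Prod.ext h1 h2)]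
    · rw [if_neg h2, if_neg (fun h => h2 (by rw [h]; rfl))]
  · have : ∀ j : ZMod d, (if j = j + p.1 then ch (p.2 * j) else 0) = 0 := by
      intro j
      rw [if_neg]
      intro h
      exact h1 (by simpa using h.symm)
    simp only [this, sum_const_zero]
    rw [if_neg (fun h => h1 (by rw [h]; rfl))]

/-- completeness -/
theorem complete (i j k l : ZMod d) :
    ∑ p : PP d, DD p i j * star (DD p k l) = if i = k ∧ j = l then (d : ℂ) else 0 := by
  have e : ∀ p : PP d, DD p i j * star (DD p k l) =
      (if p.1 = i - j then (if p.1 = k - l then ch (p.2 * (j - l)) else 0) else 0) := by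
    intro p
    simp only [DD]
    by_cases h1 : p.1 = i - j
    · rw [if_pos h1, if_pos (by rw [h1]; ring)]
      by_cases h2 : p.1 = k - l
      · rw [if_pos h2, if_pos (by rw [h2]; ring), star_ch, ← ch_add]
        congr 1; ring
      · rw [if_neg h2, if_neg (fun h => h2 (by rw [h]; ring)), star_zero, mul_zero]
    · rw [if_neg h1, if_neg (fun h => h1 (by rw [h]; ring)), zero_mul]
  simp only [e]
  rw [← Finset.univ_product_univ, Finset.sum_product]
  simp only
  rw [sum_eq_single (i - j)]
  · simp only [if_true]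
    by_cases h : i - j = k - l
    · simp only [if_pos h, sum_ch, sub_eq_zero]
      by_cases h2 : j = l
      · rw [if_pos h2, if_pos ⟨by rw [h2] at h; simpa using h, h2⟩]
      · rw [if_neg h2, if_neg (fun h' => h2 h'.2)]
    · simp only [if_neg h, sum_const_zero]
      rw [if_neg (fun h' => h (by rw [h'.1, h'.2]))]
  · intro b _ hb
    simp only [if_neg hb, sum_const_zero]
  · intro h; exact absurd (mem_univ _) h

/-- expansion of a matrix -/
theorem expand (A : Matrix (ZMod d) (ZMod d) ℂ) :
    ∑ p : PP d, trace (star (DD p) * A) • DD p = (d : ℂ) • A := by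
  ext i j
  rw [Matrix.sum_apply]
  simp only [Matrix.smul_apply, smul_eq_mul, Matrix.trace, Matrix.diag_apply, Matrix.mul_apply,
    Matrix.star_apply, sum_mul]
  have e : ∀ p : PP d, ∑ x, ∑ y, star (DD p y x) * A y x * DD p i j
      = ∑ x, ∑ y, (DD p i j * star (DD p y x)) * A y x := by
    intro p
    refine sum_congr rfl fun x _ => sum_congr rfl fun y _ => by ring
  simp only [e]
  rw [sum_comm]
  have e2 : ∀ x : ZMod d, ∑ p : PP d, ∑ y, DD p i j * star (DD p y x) * A y x
      = ∑ y, (if i = y ∧ j = x then (d : ℂ) else 0) * A y x := by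
    intro x
    rw [sum_comm]
    refine sum_congr rfl fun y _ => ?_
    rw [← sum_mul, complete]
  simp only [e2]
  rw [sum_eq_single j]
  · rw [sum_eq_single i]
    · simp
    · intro y _ hy; rw [if_neg (fun h => hy h.1.symm), zero_mul]
    · intro h; exact absurd (mem_univ _) h
  · intro x _ hx
    refine sum_eq_zero fun y _ => ?_
    rw [if_neg (fun h => hx h.2.symm), zero_mul]
  · intro h; exact absurd (mem_univ _) h

/-- twirl -/
theorem twirl (A : Matrix (ZMod d) (ZMod d) ℂ) :
    ∑ p : PP d, DD p * A * star (DD p) = ((d : ℂ) * trace A) • 1 := by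
  ext i j
  rw [Matrix.sum_apply]
  simp only [Matrix.mul_apply, Matrix.star_apply, sum_mul]
  have e : ∀ p : PP d, ∑ x, ∑ y, DD p i y * A y x * star (DD p j x)
      = ∑ x, ∑ y, (DD p i y * star (DD p j x)) * A y x := by
    intro p
    refine sum_congr rfl fun x _ => sum_congr rfl fun y _ => by ring
  simp only [e]
  rw [sum_comm]
  have e2 : ∀ x : ZMod d, ∑ p : PP d, ∑ y, DD p i y * star (DD p j x) * A y x
      = ∑ y, (if i = j ∧ y = x then (d : ℂ) else 0) * A y x := by
    intro x
    rw [sum_comm]
    refine sum_congr rfl fun y _ => ?_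
    rw [← sum_mul, complete]
  rw [sum_congr rfl (fun x _ => e2 x)]
  by_cases h : i = j
  · have e3 : ∀ x, ∑ y, (if i = j ∧ y = x then (d : ℂ) else 0) * A y x = d * A x x := by
      intro x
      rw [sum_eq_single x]
      · rw [if_pos ⟨h, rfl⟩]
      · intro y _ hy; rw [if_neg (fun h' => hy h'.2), zero_mul]
      · intro h; exact absurd (mem_univ _) h
    rw [sum_congr rfl (fun x _ => e3 x), ← mul_sum, Matrix.smul_apply, smul_eq_mul, h,
      Matrix.one_apply_eq, mul_one]
    rfl
  · have e3 : ∀ x, ∑ y, (if i = j ∧ y = x then (d : ℂ) else 0) * A y x = 0 := by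
      intro x
      refine sum_eq_zero fun y _ => ?_
      rw [if_neg (fun h' => h h'.1), zero_mul]
    simp only [e3, sum_const_zero, Matrix.smul_apply, smul_eq_mul, Matrix.one_apply_ne h, mul_zero]

end Pool.Agent.Q92.Sic
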