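import Pool.Agent.Q92.Sic.Grid

/-! Sign functions on finite abelian groups: the prime two (for MP_1c78a5_mp). -/

set_option autoImplicit false

open Finset

namespace Pool.Agent.Q92.Sic

theorem sum_quot {A : Type*} [AddCommGroup A] [Fintype A] (K : AddSubgroup A)
    [Fintype (A ⧸ K)] (f : A ⧸ K → ℤ) :
    ∑ p : A, f (QuotientAddGroup.mk p) = Nat.card K * ∑ x : A ⧸ K, f x := by
  classical
  rw [← sum_fiberwise univ (fun p : A => (QuotientAddGroup.mk p : A ⧸ K)), mul_sum]
  refine sum_congr rfl fun x _ => ?_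
  have h1 : ∑ p ∈ univ.filter (fun p : A => (QuotientAddGroup.mk p : A ⧸ K) = x),
      f (QuotientAddGroup.mk p) =
      ((univ.filter (fun p : A => (QuotientAddGroup.mk p : A ⧸ K) = x)).card : ℤ) * f x := by
    rw [← nsmul_eq_mul]
    apply sum_eq_card_nsmul
    intro p hp
    rw [(mem_filter.mp hp).2]
  rw [h1]
  congr 2
  rw [← Fintype.card_subtype, ← Nat.card_eq_fintype_card]
  apply Nat.card_congr
  exact {
    toFun := fun p => ⟨p.1 - x.out, by
      rw [← QuotientAddGroup.eq_zero_iff, QuotientAddGroup.mk_sub, p.2,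
        QuotientAddGroup.out_eq', sub_self]⟩
    invFun := fun κ => ⟨x.out + κ.1, by
      rw [QuotientAddGroup.mk_add_of_mem _ κ.2, QuotientAddGroup.out_eq']⟩
    left_inv := fun p => by
      apply Subtype.ext
      simp
    right_inv := fun κ => by
      apply Subtype.ext
      simp }

theorem frob_two {Q : Type*} [AddCommGroup Q] [Fintype Q] [DecidableEq Q] (M : Q → ℤ) (y : Q) :
    (2 : ℤ) ∣ ∑ x : Q, M x * M (y - x) - ∑ x : Q, if x + x = y then M x else 0 := by
  have h0 : ((∑ x : Q, M x * M (y - x) - ∑ x : Q, if x + x = y then M x else 0 : ℤ) : ZMod 2)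
      = 0 := by
    rw [← sum_sub_distrib]
    push_cast
    have h1 : ∑ x ∈ univ.filter (fun x : Q => x + x = y),
        ((M x : ZMod 2) * (M (y - x) : ZMod 2) - ((if x + x = y then M x else 0 : ℤ) : ZMod 2))
        = 0 := by
      refine sum_eq_zero fun x hx => ?_
      have hx' := (mem_filter.mp hx).2
      rw [if_pos hx', ← hx', add_sub_cancel_right]
      generalize (M x : ZMod 2) = a
      revert a
      decide
    have h2 : ∑ x ∈ univ.filter (fun x : Q => ¬ x + x = y),
        ((M x : ZMod 2) * (M (y - x) : ZMod 2) - ((if x + x = y then M x else 0 : ℤ) : ZMod 2))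
        = 0 := by
      refine sum_involution (fun x _ => y - x) ?_ ?_ ?_ ?_
      · intro x hx
        have hx' := (mem_filter.mp hx).2
        have hx'' : ¬ (y - x) + (y - x) = y := by
          intro h
          apply hx'
          have : x + x = y + y - ((y - x) + (y - x)) := by abel
          rw [this, h]; abel
        rw [if_neg hx', if_neg hx'', sub_sub_cancel]
        generalize (M x : ZMod 2) = a
        generalize (M (y - x) : ZMod 2) = b
        revert a b
        decide
      · intro x hx _ hxx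
        apply (mem_filter.mp hx).2
        rw [← hxx]
        nth_rw 2 [hxx]
        abel
      · intro x hx
        have hx' := (mem_filter.mp hx).2
        rw [mem_filter]
        refine ⟨mem_univ _, ?_⟩
        intro h
        apply hx'
        have : x + x = y + y - ((y - x) + (y - x)) := by abel
        rw [this, h]; abel
      · intro x _
        exact sub_sub_cancel _ _
    have h3 := sum_filter_add_sum_filter_not univ (fun x : Q => x + x = y) (fun x =>
      ((M x : ZMod 2) * (M (y - x) : ZMod 2) - ((if x + x = y then M x else 0 : ℤ) : ZMod 2)))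
    rw [h1, h2, add_zero] at h3
    refine Eq.trans (sum_congr rfl fun x _ => ?_) h3.symm
    push_cast
    rfl
  exact (ZMod.intCast_zmod_eq_zero_iff_dvd _ _).mp h0

/-- data of a sign function on a finite abelian group -/
structure Sgn {Q : Type*} [AddCommGroup Q] [Fintype Q] (g m : Q → ℤ) (D n : ℤ) : Prop where
  gm : ∀ x, g x = 1 - 2 * m x
  neg : ∀ x, m (-x) = m x
  card : (Fintype.card Q : ℤ) = n ^ 2
  auto : ∀ r, r ≠ 0 → ∑ x, g x * g (x + r) = D
  auto0 : ∑ x, g x * g x = D + n ^ 2

namespace Sgn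

variable {Q : Type*} [AddCommGroup Q] [Fintype Q] {g m : Q → ℤ} {D n : ℤ}

theorem expand (h : Sgn g m D n) (r : Q) :
    ∑ x, g x * g (x + r) = n ^ 2 - 4 * ∑ x, m x + 4 * ∑ x, m x * m (x + r) := by
  have h1 : ∑ x, m (x + r) = ∑ x, m x := Equiv.sum_comp (Equiv.addRight r) m
  have e : ∀ x, g x * g (x + r) = 1 - 2 * m x - 2 * m (x + r) + 4 * (m x * m (x + r)) := by
    intro x
    rw [h.gm, h.gm]; ring
  rw [sum_congr rfl (fun x _ => e x)]
  simp only [sum_add_distrib, sum_sub_distrib, ← mul_sum, h1, sum_const, card_univ, nsmul_eq_mul,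
    h.card]
  ring

theorem even_n (h : Sgn g m D n) (hQ : ∃ r : Q, r ≠ 0) : 2 ∣ n := by
  obtain ⟨r, hr⟩ := hQ
  have h1 := h.expand r
  have h2 := h.expand 0
  simp only [add_zero] at h2
  rw [h.auto r hr] at h1
  rw [h.auto0] at h2
  have h3 : (2 : ℤ) ∣ n ^ 2 := by
    refine ⟨2 * (∑ x, m x * m x - ∑ x, m x * m (x + r)), ?_⟩
    linarith
  exact Int.prime_two.dvd_of_dvd_pow h3

theorem fibre_even [DecidableEq Q] (h : Sgn g m D n) (hn : 4 ∣ n)
    (y : Q) : (2 : ℤ) ∣ ∑ x : Q, if x + x = y then m x else 0 := by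
  -- all autocorrelations of `m` have the same parity
  obtain ⟨n', hn'⟩ := hn
  have key : ∀ r : Q, (2 : ℤ) ∣ ∑ x, m x * m (x + r) - ∑ x, m x * m x := by
    intro r
    by_cases hr : r = 0
    · rw [hr]; simp
    · have h1 := h.expand r
      have h2 := h.expand 0
      simp only [add_zero] at h2
      rw [h.auto r hr] at h1
      rw [h.auto0] at h2
      refine ⟨-(2 * n' ^ 2), ?_⟩
      have h3 : 4 * (∑ x, m x * m (x + r) - ∑ x, m x * m x) = - n ^ 2 := by linarith
      rw [hn'] at h3
      have h4 : 4 * (∑ x, m x * m (x + r) - ∑ x, m x * m x) = 4 * (2 * -(2 * n' ^ 2)) := by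
        rw [h3]; ring
      exact mul_left_cancel₀ four_ne_zero h4
  have conv : ∀ y : Q, ∑ x, m x * m (y - x) = ∑ x, m x * m (x + -y) := by
    intro y
    refine sum_congr rfl fun x _ => ?_
    rw [← h.neg (y - x)]
    congr 2
    abel
  -- an element which is not a double
  have hcardn : Even (Fintype.card Q) := by
    have h1 : (2 : ℤ) ∣ (Fintype.card Q : ℤ) := by
      rw [h.card, hn']
      exact ⟨2 * n' * (4 * n'), by ring⟩
    rw [even_iff_two_dvd]
    exact_mod_cast h1
  obtain ⟨y0, hy0⟩ : ∃ y0 : Q, ∀ x : Q, x + x ≠ y0 := by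
    by_contra hcon
    push Not at hcon
    have hsurj : Function.Surjective (fun x : Q => x + x) := hcon
    have hinj := Finite.injective_iff_surjective.mpr hsurj
    have h2 : 2 ∣ Fintype.card Q := even_iff_two_dvd.mp hcardn
    have : Fact (Nat.Prime 2) := ⟨Nat.prime_two⟩
    obtain ⟨x, hx⟩ := exists_prime_addOrderOf_dvd_card 2 h2
    have h3 : x + x = 0 := by
      rw [← two_nsmul, ← hx]
      exact addOrderOf_nsmul_eq_zero x
    have h4 : x = 0 := hinj (by simp only [h3, add_zero])
    rw [h4, addOrderOf_zero] at hx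
    norm_num at hx
  have hpar : (2 : ℤ) ∣ ∑ x, m x * m x := by
    have h1 := frob_two m y0
    have h2 : ∑ x : Q, (if x + x = y0 then m x else 0) = 0 :=
      sum_eq_zero fun x _ => if_neg (hy0 x)
    rw [h2, sub_zero, conv] at h1
    have h3 := dvd_sub h1 (key (-y0))
    rwa [sub_sub_cancel] at h3
  have h1 := frob_two m y
  rw [conv] at h1
  have h2 := key (-y)
  have h3 : (2 : ℤ) ∣ ∑ x, m x * m (x + -y) := by
    have := dvd_add h2 hpar
    rwa [sub_add_cancel] at this
  have := dvd_sub h3 h1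
  rwa [sub_sub_cancel] at this

/-- comparison of the prime two with a prime `q ≥ 5` -/
theorem two_q [DecidableEq Q] {L : Type*} [Fintype L] (h : Sgn g m D n) (hn : 4 ∣ n)
    (hT : (univ.filter fun x : Q => x + x = 0).card ≤ 4)
    (h01 : ∀ x : Q, x ≠ 0 → g x = 1 ∨ g x = -1) (q : ℕ) (hq : 5 ≤ q) (ho : Odd q)
    (hL : Fintype.card L = q + 1) (b : L → Q) (hb : ∀ l x, x + x = 0 → b l + x ≠ 0)
    (hc : ∀ x : Q, x + x = 0 → (q : ℤ) ∣ ∑ l, g (b l + x) - g x) (ε : ℤ)
    (hε : ε = 1 ∨ ε = -1) (hs : (q : ℤ) ∣ g 0 - ε) : (4 : ℤ) ∣ g 0 - ε := by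
  classical
  -- boundary values
  set γ : Q → ℤ := fun x => if x = 0 then ε else g x with hγ
  have hγ1 : ∀ x, γ x = 1 ∨ γ x = -1 := by
    intro x
    simp only [hγ]
    split_ifs with hx
    · exact hε
    · exact h01 x hx
  have hcγ : ∀ x : Q, x + x = 0 → (q : ℤ) ∣ ∑ l, g (b l + x) - γ x := by
    intro x hx
    simp only [hγ]
    split_ifs with hx0
    · have h1 := hc x hx
      rw [hx0] at h1 ⊢
      have := dvd_add h1 hs
      rwa [sub_add_sub_cancel] at this
    · exact hc x hx
  have hrow : ∀ x : Q, ∃ a : ℤ, x + x = 0 → (a = 1 ∨ a = -1) ∧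
      ∑ l, g (b l + x) = γ x - q * a ∧ ∑ l, (1 + a * g (b l + x)) ≤ 2 := by
    intro x
    by_cases hx : x + x = 0
    · obtain ⟨a, ha⟩ := row q (by omega) ho hL (fun l => g (b l + x)) (fun l => h01 _ (hb l x hx))
        (γ x) (hγ1 x) (hcγ x hx)
      exact ⟨a, fun _ => ha⟩
    · exact ⟨0, fun h0 => absurd h0 hx⟩
  choose a ha using hrow
  set T : Finset Q := univ.filter fun x : Q => x + x = 0 with hTdef
  have memT : ∀ x, x ∈ T ↔ x + x = 0 := fun x => by simp [hTdef]
  -- a line which is exceptional for no element of `T`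
  obtain ⟨l0, hl0⟩ : ∃ l0 : L, ∀ x ∈ T, g (b l0 + x) = - a x := by
    by_contra hcon
    push Not at hcon
    have hsub : (univ : Finset L) ⊆ T.biUnion fun x => univ.filter fun l => g (b l + x) ≠ - a x := by
      intro l _
      obtain ⟨x, hx, hne⟩ := hcon l
      exact mem_biUnion.mpr ⟨x, hx, mem_filter.mpr ⟨mem_univ _, hne⟩⟩
    have h1 := card_le_card hsub
    have h2 : (T.biUnion fun x => univ.filter fun l => g (b l + x) ≠ - a x).card ≤ T.card * 1 := by
      refine card_biUnion_le_card_mul _ _ _ fun x hx => ?_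
      obtain ⟨ha1, _, ha3⟩ := ha x ((memT x).mp hx)
      have h3 : ∀ l, 1 + a x * g (b l + x) = 2 * (if g (b l + x) ≠ - a x then 1 else 0) := by
        intro l
        rcases ha1 with h4 | h4 <;> rcases h01 _ (hb l x ((memT x).mp hx)) with h5 | h5 <;>
          rw [h4, h5] <;> norm_num
      rw [sum_congr rfl (fun l _ => h3 l), ← mul_sum, sum_boole] at ha3
      have h6 : ((univ.filter fun l => g (b l + x) ≠ - a x).card : ℤ) ≤ 1 := by linarith
      exact_mod_cast h6
    rw [card_univ, hL] at h1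
    omega
  -- parities
  have hm01 : ∀ l x, x ∈ T → g (b l + x) = 1 - 2 * m (b l + x) := fun l x _ => h.gm _
  have hα : ∀ x, x ∈ T → a x = 1 - 2 * (1 - m (b l0 + x)) := by
    intro x hx
    have h1 := hl0 x hx
    rw [h.gm] at h1
    linarith
  have rowpar : ∀ l, (2 : ℤ) ∣ ∑ x ∈ T, m (b l + x) := by
    intro l
    have h1 := h.fibre_even hn (b l + b l)
    rw [← sum_filter] at h1
    have h2 : ∑ x ∈ univ.filter (fun x => x + x = b l + b l), m x = ∑ x ∈ T, m (b l + x) := by
      symm
      refine sum_bij (fun x _ => b l + x) ?_ ?_ ?_ ?_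
      · intro x hx
        rw [mem_filter]
        refine ⟨mem_univ _, ?_⟩
        have : b l + x + (b l + x) = b l + b l + (x + x) := by abel
        rw [this, (memT x).mp hx, add_zero]
      · intro x _ x' _ hxx
        exact add_left_cancel hxx
      · intro z hz
        have hz' := (mem_filter.mp hz).2
        refine ⟨z - b l, (memT _).mpr ?_, by abel⟩
        have : z - b l + (z - b l) = z + z - (b l + b l) := by abel
        rw [this, hz', sub_self]
      · intro x _; rfl
    rwa [h2] at h1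
  have corner : (2 : ℤ) ∣ ∑ x ∈ T, m x := by
    have h1 := h.fibre_even hn 0
    rwa [← sum_filter] at h1
  -- the total sum
  obtain ⟨j, hj⟩ := ho
  have total : ∑ x ∈ T, ∑ l, m (b l + x) = ∑ x ∈ T, (q + (1 - γ x) / 2 - q * (1 - m (b l0 + x))) := by
    refine sum_congr rfl fun x hx => ?_
    obtain ⟨_, ha2, _⟩ := ha x ((memT x).mp hx)
    have h1 : ∑ l, g (b l + x) = (q + 1) - 2 * ∑ l, m (b l + x) := by
      rw [sum_congr rfl (fun l _ => h.gm (b l + x)), sum_sub_distrib, ← mul_sum, sum_const,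
        card_univ, hL]
      simp
    rw [h1, hα x hx] at ha2
    rcases hγ1 x with h2 | h2 <;> rw [h2] at ha2 ⊢ <;> norm_num <;> linarith
  have htot : (2 : ℤ) ∣ ∑ x ∈ T, ∑ l, m (b l + x) := by
    rw [sum_comm]
    exact dvd_sum fun l _ => rowpar l
  have hl0par := rowpar l0
  have hγsum : (2 : ℤ) ∣ ∑ x ∈ T, (1 - γ x) / 2 := by
    rw [total] at htot
    have h1 : ∑ x ∈ T, ((q : ℤ) + (1 - γ x) / 2 - q * (1 - m (b l0 + x))) =
        ∑ x ∈ T, (1 - γ x) / 2 + q * ∑ x ∈ T, m (b l0 + x) := by
      rw [mul_sum, ← sum_add_distrib]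
      exact sum_congr rfl fun x _ => by ring
    rw [h1] at htot
    have := dvd_sub htot (hl0par.mul_left (q : ℤ))
    rwa [add_sub_cancel_right] at this
  -- compare with the corner
  have h0T : (0 : Q) ∈ T := (memT 0).mpr (add_zero 0)
  rw [← add_sum_erase T _ h0T] at hγsum corner
  have h2 : ∑ x ∈ T.erase 0, (1 - γ x) / 2 = ∑ x ∈ T.erase 0, m x := by
    refine sum_congr rfl fun x hx => ?_
    have hx0 := ne_of_mem_erase hx
    simp only [hγ, if_neg hx0]
    have := h.gm x
    omega
  rw [h2] at hγsum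
  have h3 := dvd_sub hγsum corner
  rw [add_sub_add_right_eq_sub] at h3
  simp only [hγ, if_true] at h3
  have h4 := h.gm 0
  obtain ⟨c, hc'⟩ := h3
  rcases hε with h5 | h5 <;> rw [h5] at hc' ⊢ <;> norm_num at hc' <;> omega

end Sgn

end Pool.Agent.Q92.Sic
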