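import Pool.Agent.Q92.Sic.Final
import Pool.Agent.Q92.Sic.Two

/-! Involutive Clifford symmetries in even dimensions (for MP_1c78a5_mp). -/

set_option autoImplicit false

open Finset Matrix

namespace Pool.Agent.Q92.Sic

variable {d : ℕ} [NeZero d]

namespace Core

variable {P W : Matrix (ZMod d) (ZMod d) ℂ}

/-- the group of sign positions -/
abbrev QQ (h : Core P W) : Type := PP d ⧸ (grp (d := d) h.sW)

noncomputable instance instFintypeQuot (K : AddSubgroup (PP d)) : Fintype (PP d ⧸ K) :=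
  Fintype.ofFinite _

theorem mk_eq_zero (h : Core P W) (p : PP d) :
    (QuotientAddGroup.mk p : h.QQ) = 0 ↔ h.F p = p := by
  rw [QuotientAddGroup.eq_zero_iff, h.F_iff_grp]

/-- the sign function on the quotient -/
noncomputable def gQ (h : Core P W) (s : ℕ) (x : h.QQ) : ℤ := h.G s x.out

theorem gQ_mk (h : Core P W) {s : ℕ} (hs : d + 1 = s ^ 2) (p : PP d) :
    h.gQ s (QuotientAddGroup.mk p) = h.G s p := by
  obtain ⟨κ, hκ⟩ := QuotientAddGroup.mk_out_eq_add (grp (d := d) h.sW) p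
  rw [gQ, hκ]
  exact h.G_period hs p ((h.F_iff_grp _).mp κ.2)

theorem card_QQ (h : Core P W) {k : ℤ} (hk2 : k ^ 2 = h.K.card) {n : ℕ}
    (hn : n * k.natAbs = d) : Fintype.card h.QQ = n ^ 2 := by
  have h1 : Nat.card (PP d) = Nat.card h.QQ * Nat.card (grp (d := d) h.sW) :=
    AddSubgroup.card_eq_card_quotient_mul_card_addSubgroup _
  rw [h.card_grp, h.natAbs_sq_card hk2, Nat.card_prod, Nat.card_zmod,
    Nat.card_eq_fintype_card (α := h.QQ)] at h1
  have hk0 : 0 < k.natAbs := by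
    rcases Nat.eq_zero_or_pos k.natAbs with h0 | h0
    · rw [h0, mul_zero] at hn
      exact absurd hn.symm (NeZero.ne d)
    · exact h0
  have h2 : Fintype.card h.QQ * k.natAbs ^ 2 = n ^ 2 * k.natAbs ^ 2 := by
    rw [← h1]
    calc d * d = (n * k.natAbs) * (n * k.natAbs) := by rw [hn]
      _ = n ^ 2 * k.natAbs ^ 2 := by ring
  exact Nat.eq_of_mul_eq_mul_right (pow_pos hk0 2) h2

theorem sgn (h : Core P W) {s : ℕ} (hs : d + 1 = s ^ 2) {k : ℤ} (hk : trace W = k)
    (hk2 : k ^ 2 = h.K.card) {n : ℕ} (hn : n * k.natAbs = d) (hd : Even d) :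
    Sgn (h.gQ s) (fun x => (1 - h.gQ s x) / 2) d n := by
  have hk0 : k ≠ 0 := by
    rintro rfl
    simp at hn
    exact NeZero.ne d hn.symm
  have hdk : (d : ℤ) ^ 2 = (n : ℤ) ^ 2 * k ^ 2 := by
    have : ((n * k.natAbs : ℕ) : ℤ) ^ 2 = (d : ℤ) ^ 2 := by rw [hn]
    rw [← this]
    push_cast
    rw [mul_pow, sq_abs]
  have hsodd : ¬ (2 : ℤ) ∣ s := by
    intro h2
    have h3 : 2 ∣ s := by exact_mod_cast h2
    have h4 : 2 ∣ d + 1 := by rw [hs]; exact Dvd.dvd.pow h3 two_ne_zero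
    obtain ⟨x, hx⟩ := hd
    omega
  have hodd : ∀ p, (h.G s p) % 2 = 1 := by
    intro p
    by_cases hp : h.F p = p
    · rw [h.G_fix s hp]; omega
    · rcases h.G_cases s hp with h1 | h1 <;> rw [h1] <;> norm_num
  have hcardK : (Nat.card (grp (d := d) h.sW) : ℤ) = k ^ 2 := by rw [h.card_grp, hk2]
  refine ⟨fun x => ?_, fun x => ?_, ?_, ?_, ?_⟩
  · have := hodd x.out
    change h.gQ s x = 1 - 2 * ((1 - h.gQ s x) / 2)
    rw [gQ]
    omega
  · obtain ⟨p, rfl⟩ := QuotientAddGroup.mk_surjective x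
    have : -(QuotientAddGroup.mk p : h.QQ) = QuotientAddGroup.mk (-p) := rfl
    rw [this, h.gQ_mk hs, h.gQ_mk hs, h.G_neg hs]
  · rw [h.card_QQ hk2 hn]; push_cast; rfl
  · intro r hr
    obtain ⟨r0, rfl⟩ := QuotientAddGroup.mk_surjective r
    have hr0 : h.F r0 ≠ r0 := fun hF => hr ((h.mk_eq_zero r0).mpr hF)
    have h1 := h.G_auto hs hk hr0
    have h2 := sum_quot (grp (d := d) h.sW) (fun x => h.gQ s x * h.gQ s (x + QuotientAddGroup.mk r0))
    have h3 : ∀ p : PP d, h.gQ s (QuotientAddGroup.mk p) *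
        h.gQ s ((QuotientAddGroup.mk p : h.QQ) + QuotientAddGroup.mk r0) =
        h.G s p * h.G s (p + r0) := by
      intro p
      rw [← QuotientAddGroup.mk_add, h.gQ_mk hs, h.gQ_mk hs]
    rw [sum_congr rfl (fun p _ => h3 p), h1, hcardK] at h2
    have h4 : k ^ 2 * ∑ x, h.gQ s x * h.gQ s (x + QuotientAddGroup.mk r0) = k ^ 2 * d := by
      rw [← h2]; ring
    exact mul_left_cancel₀ (pow_ne_zero 2 hk0) h4
  · have h1 := h.G_auto' hs hk2 h.F_zero
    simp only [add_zero] at h1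
    have h2 := sum_quot (grp (d := d) h.sW) (fun x => h.gQ s x * h.gQ s x)
    have h3 : ∀ p : PP d, h.gQ s (QuotientAddGroup.mk p) *
        h.gQ s (QuotientAddGroup.mk p) = h.G s p * h.G s p := by
      intro p
      rw [h.gQ_mk hs]
    rw [sum_congr rfl (fun p _ => h3 p), h1, hcardK, hdk] at h2
    have h4 : k ^ 2 * ∑ x, h.gQ s x * h.gQ s x = k ^ 2 * (d + n ^ 2) := by
      rw [← h2]; ring
    exact mul_left_cancel₀ (pow_ne_zero 2 hk0) h4

theorem two_even (h : Core P W) {s : ℕ} (hs : d + 1 = s ^ 2) {k : ℤ} (hk : trace W = k)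
    (hk2 : k ^ 2 = h.K.card) {n : ℕ} (hn : n * k.natAbs = d) (hd : Even d) (hn1 : n ≠ 1) :
    2 ∣ n := by
  have h1 := h.sgn hs hk hk2 hn hd
  have h2 : ∃ r : h.QQ, r ≠ 0 := by
    by_contra hcon
    push Not at hcon
    have h3 : Fintype.card h.QQ ≤ 1 := by
      rw [Fintype.card_le_one_iff]
      intro a b
      rw [hcon a, hcon b]
    rw [h.card_QQ hk2 hn] at h3
    have hn0 : n ≠ 0 := by
      rintro rfl
      rw [zero_mul] at hn
      exact NeZero.ne d hn.symm
    have h4 : 2 ≤ n := by omega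
    nlinarith
  have h3 := h1.even_n h2
  exact_mod_cast h3

theorem two_k (h : Core P W) {k : ℤ} (hk2 : k ^ 2 = h.K.card) (hd : Even d) : (2 : ℤ) ∣ k := by
  obtain ⟨c, hc⟩ := hd
  have hc0 : (c : ZMod d) ≠ 0 := by
    intro h0
    rw [ZMod.natCast_eq_zero_iff] at h0
    have hd0 := NeZero.pos d
    have := Nat.le_of_dvd (by omega) h0
    omega
  have h2c : (c : ZMod d) + c = 0 := by
    rw [← Nat.cast_add, ← hc, ZMod.natCast_self]
  set x : PP d := ((c : ZMod d), 0) with hx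
  have hx0 : x ≠ 0 := fun h0 => hc0 (congrArg Prod.fst h0)
  have hxx : x + x = 0 := Prod.ext h2c (add_zero 0)
  -- a fixed element of order two
  obtain ⟨y, hy0, hyy, hy⟩ : ∃ y : PP d, y ≠ 0 ∧ y + y = 0 ∧ h.F y = y := by
    by_cases hF : x + h.F x = 0
    · refine ⟨x, hx0, hxx, ?_⟩
      have h1 : h.F x = -x := (neg_eq_of_add_eq_zero_right hF).symm
      rw [h1]
      exact neg_eq_of_add_eq_zero_right hxx
    · refine ⟨x + h.F x, hF, ?_, ?_⟩
      · have : x + h.F x + (x + h.F x) = (x + x) + (h.F x + h.F x) := by abel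
        rw [this, ← h.F_add, hxx, h.F_zero, add_zero]
      · rw [h.F_add, h.F_F, add_comm]
  have hy' : y ∈ grp (d := d) h.sW := (h.F_iff_grp y).mpr hy
  have h1 : addOrderOf (⟨y, hy'⟩ : grp (d := d) h.sW) = 2 := by
    rw [AddSubgroup.addOrderOf_mk]
    refine addOrderOf_eq_prime ?_ hy0
    rw [two_nsmul, hyy]
  have h2 := addOrderOf_dvd_natCard (⟨y, hy'⟩ : grp (d := d) h.sW)
  rw [h1, h.card_grp] at h2
  have h3 : (2 : ℤ) ∣ k ^ 2 := by rw [hk2]; exact_mod_cast h2
  exact Int.prime_two.dvd_of_dvd_pow h3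

/-- at most four elements of order dividing two -/
theorem card_T (h : Core P W) [DecidableEq h.QQ] :
    (univ.filter fun x : h.QQ => x + x = 0).card ≤ 4 := by
  classical
  let φ : h.QQ →+ h.QQ := AddMonoidHom.id _ + AddMonoidHom.id _
  have h1 := AddSubgroup.card_mul_index φ.ker
  rw [AddSubgroup.index_ker] at h1
  have hker : Nat.card φ.ker = (univ.filter fun x : h.QQ => x + x = 0).card := by
    rw [← Fintype.card_subtype, ← Nat.card_eq_fintype_card]
    apply Nat.card_congr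
    exact Equiv.subtypeEquivRight fun x => Iff.rfl
  have hpos : 0 < Nat.card φ.range := Nat.card_pos
  -- every element is a double plus one of four representatives
  let ρ : φ.range × (Fin 2 × Fin 2) → h.QQ := fun y =>
    y.1.1 + QuotientAddGroup.mk (((y.2.1.val : ℕ) : ZMod d), ((y.2.2.val : ℕ) : ZMod d))
  have hρ : Function.Surjective ρ := by
    intro x
    obtain ⟨p, rfl⟩ := QuotientAddGroup.mk_surjective x
    let w : PP d := (((p.1.val / 2 : ℕ) : ZMod d), ((p.2.val / 2 : ℕ) : ZMod d))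
    refine ⟨(⟨QuotientAddGroup.mk w + QuotientAddGroup.mk w, ⟨QuotientAddGroup.mk w, rfl⟩⟩,
      (⟨p.1.val % 2, Nat.mod_lt _ two_pos⟩, ⟨p.2.val % 2, Nat.mod_lt _ two_pos⟩)), ?_⟩
    simp only [ρ]
    rw [← QuotientAddGroup.mk_add, ← QuotientAddGroup.mk_add]
    congr 1
    have e : ∀ z : ZMod d, ((z.val / 2 : ℕ) : ZMod d) + ((z.val / 2 : ℕ) : ZMod d) +
        ((z.val % 2 : ℕ) : ZMod d) = z := by
      intro z
      rw [← Nat.cast_add, ← Nat.cast_add]
      have : z.val / 2 + z.val / 2 + z.val % 2 = z.val := by omega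
      rw [this, ZMod.natCast_zmod_val]
    exact Prod.ext (e p.1) (e p.2)
  have h2 : Nat.card h.QQ ≤ Nat.card φ.range * 4 := by
    have := Nat.card_le_card_of_surjective ρ hρ
    rw [Nat.card_prod, Nat.card_prod] at this
    simpa using this
  rw [← h1, hker, mul_comm] at h2
  exact Nat.le_of_mul_le_mul_left h2 hpos

theorem line_dvd' (h : Core P W) {s : ℕ} (hs : d + 1 = s ^ 2) {k : ℤ} (hk : trace W = k)
    (hk2 : k ^ 2 = h.K.card) {q : ℕ} [hq : Fact q.Prime] (hqd : q ∣ d) (p0 : PP d)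
    (hp0 : ∀ T : ℕ, Nat.Coprime T d → h.F ((T : ZMod d) • p0 - p0) = (T : ZMod d) • p0 - p0) :
    (q : ℤ) ∣ ∑ o, h.G s (p0 + iota d q (rep q o)) - h.G s p0 := by
  have h1 := h.coset_dvd hs hk hk2 hqd p0
  have h2 := sum_lines q (fun v => h.G s (p0 + iota d q v)) (by
    intro t v ht
    obtain ⟨T, hT1, hT2, _⟩ := exists_unit hq.out hqd t ht
    have h3 : (T : ZMod d) • (p0 + iota d q v) =
        (p0 + iota d q (t • v)) + ((T : ZMod d) • p0 - p0) := by
      rw [smul_add, hT2]; abel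
    change h.G s (p0 + iota d q (t • v)) = h.G s (p0 + iota d q v)
    rw [← h.G_unit hs hk hk2 T hT1 (p0 + iota d q v), h3, h.G_period hs _ (hp0 T hT1)])
  rw [h2, iota_zero, add_zero] at h1
  have h4 : ∑ o, h.G s (p0 + iota d q (rep q o)) - h.G s p0 =
      (q : ℤ) * ∑ o, h.G s (p0 + iota d q (rep q o)) -
      (h.G s p0 + ((q : ℤ) - 1) * ∑ o, h.G s (p0 + iota d q (rep q o))) := by ring
  rw [h4]
  exact dvd_sub (Dvd.intro _ rfl) h1

theorem two_five (h : Core P W) {s : ℕ} (hs : d + 1 = s ^ 2) {k : ℤ} (hk : trace W = k)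
    (hk2 : k ^ 2 = h.K.card) {n : ℕ} (hn : n * k.natAbs = d) (hd : Even d) (h4 : 4 ∣ n)
    {q : ℕ} (hq : q.Prime) (hq5 : 5 ≤ q) (hqn : q ∣ n) (ε : ℤ) (hε : ε = 1 ∨ ε = -1)
    (hsε : (q : ℤ) ∣ s - ε) : (4 : ℤ) ∣ s - ε := by
  classical
  have f1 : Fact q.Prime := ⟨hq⟩
  have g1 : Fact (1 < q) := ⟨hq.one_lt⟩
  have ho : Odd q := hq.odd_of_ne_two (by omega)
  have hqd : q ∣ d := hqn.trans ⟨_, hn.symm⟩
  have h0 : h.gQ s 0 = s := by
    have := h.gQ_mk hs 0
    rw [h.G_fix s h.F_zero] at this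
    exact this
  have hL : Fintype.card (Option (ZMod q)) = q + 1 := by rw [Fintype.card_option, ZMod.card]
  have key := (h.sgn hs hk hk2 hn hd).two_q (by exact_mod_cast h4) h.card_T ?_ q hq5 ho hL
    (fun o => QuotientAddGroup.mk (iota d q (rep q o))) ?_ ?_ ε hε (by rw [h0]; exact hsε)
  · rwa [h0] at key
  · intro x hx
    obtain ⟨p, rfl⟩ := QuotientAddGroup.mk_surjective x
    rw [h.gQ_mk hs]
    exact h.G_cases s (fun hF => hx ((h.mk_eq_zero p).mpr hF))
  · intro o x hx hbx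
    have h1 : (QuotientAddGroup.mk (iota d q (rep q o) + iota d q (rep q o)) : h.QQ) = 0 := by
      rw [QuotientAddGroup.mk_add]
      have h2 : (QuotientAddGroup.mk (iota d q (rep q o)) : h.QQ) = -x :=
        eq_neg_of_add_eq_zero_left hbx
      rw [h2, ← neg_add, hx, neg_zero]
    rw [h.mk_eq_zero] at h1
    have h2 : (q : ZMod d) • (iota d q (rep q o) + iota d q (rep q o)) = 0 := by
      rw [smul_add, iota_kill hqd, add_zero]
    have h3 := h.fix_zero hk2 hn hq ho hqn h2 h1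
    have h4 : iota d q (rep q o) = 0 := by
      obtain ⟨j, hj⟩ := ho
      have h5 : (q : ZMod d) = (j : ZMod d) * 2 + 1 := by
        have := congrArg (fun z : ℕ => (z : ZMod d)) hj
        push_cast at this
        rw [this]; ring
      have h6 := iota_kill hqd (rep q o)
      rw [h5, add_smul, mul_smul, two_smul, h3, smul_zero, one_smul, zero_add] at h6
      exact h6
    rw [← iota_zero (d := d) q] at h4
    exact rep_ne q o (iota_inj hqd h4)
  · intro x hx
    obtain ⟨p, rfl⟩ := QuotientAddGroup.mk_surjective x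
    have hpp : h.F (p + p) = p + p := (h.mk_eq_zero (p + p)).mp hx
    have h1 := h.line_dvd' hs hk hk2 hqd p (by
      intro T hT
      have hTodd : Odd T := by
        by_contra hTe
        rw [Nat.not_odd_iff_even] at hTe
        have h2 : 2 ∣ Nat.gcd T d := Nat.dvd_gcd hTe.two_dvd hd.two_dvd
        rw [hT] at h2
        exact absurd h2 (by norm_num)
      obtain ⟨j, hj⟩ := hTodd
      have h5 : (T : ZMod d) • p - p = (j : ZMod d) • (p + p) := by
        rw [hj]
        push_cast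
        rw [add_smul, mul_smul, one_smul, add_sub_cancel_right, smul_comm, two_smul]
      rw [h5, h.F_smul, hpp])
    have e : ∑ o, h.gQ s (QuotientAddGroup.mk (iota d q (rep q o)) + QuotientAddGroup.mk p) =
        ∑ o, h.G s (p + iota d q (rep q o)) := by
      refine sum_congr rfl fun o _ => ?_
      rw [← QuotientAddGroup.mk_add, h.gQ_mk hs, add_comm]
    rw [e, h.gQ_mk hs]
    exact h1

end Core

end Pool.Agent.Q92.Sic
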