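import Pool.Agent.Q92.Sic.Mix

/-! Classification of involutive Clifford symmetries in odd dimensions (for MP_1c78a5_mp). -/

set_option autoImplicit false

open Finset Matrix

namespace Pool.Agent.Q92.Sic

variable {d : ℕ} [NeZero d]

namespace Core

variable {P W : Matrix (ZMod d) (ZMod d) ℂ}

theorem natAbs_sq_card (h : Core P W) {k : ℤ} (hk2 : k ^ 2 = h.K.card) :
    h.K.card = k.natAbs ^ 2 := by
  have : ((h.K.card : ℕ) : ℤ) = ((k.natAbs ^ 2 : ℕ) : ℤ) := by
    rw [← hk2]; push_cast; rw [sq_abs]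
  exact_mod_cast this

/-- in odd dimensions only three values of the trace are possible -/
theorem odd_case (h : Core P W) (hd : 2 ≤ d) (hW : ∀ c : ℂ, W ≠ c • 1) {s : ℕ}
    (hs : d + 1 = s ^ 2) {k : ℤ} (hk : trace W = k) (hk2 : k ^ 2 = h.K.card)
    (hb1 : -((s : ℤ) - 1) ≤ k) (hb2 : k ≤ s + 1) (hodd : Odd d) :
    k = s + 1 ∨ k = s - 1 ∨ k = -((s : ℤ) - 1) := by
  have hkd : k.natAbs ∣ d := by
    have := h.dvd hk2
    rw [← Int.natAbs_dvd] at this
    exact_mod_cast this
  obtain ⟨n, hn'⟩ := hkd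
  have hn : n * k.natAbs = d := by rw [mul_comm]; exact hn'.symm
  obtain ⟨a, rfl⟩ : ∃ a, s = a + 1 := by
    refine Nat.exists_eq_succ_of_ne_zero ?_
    rintro rfl
    simp at hs
  have hda : d = a * (a + 2) := by
    have : d + 1 = a * (a + 2) + 1 := by rw [hs]; ring
    omega
  have ha1 : 1 ≤ a := by
    rcases Nat.eq_zero_or_pos a with h0 | h0
    · rw [h0] at hda; omega
    · exact h0
  have haodd : Odd a := by
    rw [hda, Nat.odd_mul] at hodd
    exact hodd.1
  have hnodd : Odd n := by
    rw [← hn, Nat.odd_mul] at hodd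
    exact hodd.1
  have hcard := h.card_lt hW
  rw [h.natAbs_sq_card hk2] at hcard
  have hn1 : n ≠ 1 := by
    rintro rfl
    rw [one_mul] at hn
    rw [hn] at hcard
    exact lt_irrefl _ hcard
  have hkle : k.natAbs ≤ a + 2 := by
    push_cast at hb1 hb2
    omega
  have hprime : ∀ q : ℕ, q.Prime → q ∣ n → Odd q := by
    intro q _ hqn
    exact Odd.of_dvd_nat hnodd hqn
  have hdich : (∀ q : ℕ, q.Prime → q ∣ n → q ∣ a) ∨ (∀ q : ℕ, q.Prime → q ∣ n → q ∣ a + 2) := by
    by_contra hcon
    push Not at hcon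
    obtain ⟨⟨q2, hq2, hn2, ha2⟩, ⟨q1, hq1, hn1, ha1'⟩⟩ := hcon
    have h1 : q1 ∣ a := by
      have : q1 ∣ a * (a + 2) := by rw [← hda, ← hn]; exact hn1.mul_right _
      rcases (Nat.Prime.dvd_mul hq1).mp this with h3 | h3
      · exact h3
      · exact absurd h3 ha1'
    have h2 : q2 ∣ a + 2 := by
      have : q2 ∣ a * (a + 2) := by rw [← hda, ← hn]; exact hn2.mul_right _
      rcases (Nat.Prime.dvd_mul hq2).mp this with h3 | h3
      · exact absurd h3 ha2
      · exact h3
    refine h.no_mix hs hk hk2 hn hq1 hq2 (hprime _ hq1 hn1) (hprime _ hq2 hn2) hn1 hn2 ?_ ?_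
    · have : ((a + 1 : ℕ) : ℤ) - 1 = ((a : ℕ) : ℤ) := by push_cast; ring
      rw [this]
      exact_mod_cast h1
    · have : ((a + 1 : ℕ) : ℤ) + 1 = ((a + 2 : ℕ) : ℤ) := by push_cast; ring
      rw [this]
      exact_mod_cast h2
  have hcop : ∀ q : ℕ, q.Prime → q ∣ a → q ∣ a + 2 → False := by
    intro q hq h1 h2
    have h3 : q ∣ 2 := (Nat.dvd_add_right h1).mp h2
    have h4 := (Nat.prime_dvd_prime_iff_eq hq Nat.prime_two).mp h3
    rw [h4] at h1
    obtain ⟨x, hx⟩ := haodd
    omega
  rcases hdich with hA | hB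
  · have hc : Nat.Coprime n (a + 2) := by
      refine Nat.coprime_of_dvd fun q hq h1 h2 => ?_
      exact hcop q hq (hA q hq h1) h2
    have h1 : n ∣ a := by
      refine Nat.Coprime.dvd_of_dvd_mul_right hc ?_
      rw [← hda, ← hn]
      exact Dvd.intro _ rfl
    have h2 : n ≤ a := Nat.le_of_dvd ha1 h1
    have h3 : k.natAbs = a + 2 := by
      apply le_antisymm hkle
      by_contra hlt
      push Not at hlt
      have h4 : n * k.natAbs < a * (a + 2) := by
        calc n * k.natAbs ≤ a * k.natAbs := Nat.mul_le_mul_right _ h2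
          _ < a * (a + 2) := Nat.mul_lt_mul_of_pos_left hlt ha1
      omega
    left
    push_cast at hb1 hb2 ⊢
    omega
  · have hc : Nat.Coprime n a := by
      refine Nat.coprime_of_dvd fun q hq h1 h2 => ?_
      exact hcop q hq h2 (hB q hq h1)
    have h1 : n ∣ a + 2 := by
      refine Nat.Coprime.dvd_of_dvd_mul_left hc ?_
      rw [← hda, ← hn]
      exact Dvd.intro _ rfl
    have h2 : n = a + 2 := by
      obtain ⟨c, hc'⟩ := h1
      rcases Nat.lt_or_ge c 2 with h3 | h3
      · interval_cases c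
        · omega
        · omega
      · exfalso
        have h4 : 2 * n ≤ a + 2 := by nlinarith
        have h5 : 2 * (a * (a + 2)) ≤ (a + 2) * (a + 2) := by
          rw [← hda, ← hn]
          calc 2 * (n * k.natAbs) = (2 * n) * k.natAbs := by ring
            _ ≤ (a + 2) * (a + 2) := Nat.mul_le_mul h4 hkle
        have h6 : 2 * a ≤ a + 2 := by
          have : (a + 2) * (2 * a) ≤ (a + 2) * (a + 2) := by
            calc (a + 2) * (2 * a) = 2 * (a * (a + 2)) := by ring
              _ ≤ _ := h5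
          exact Nat.le_of_mul_le_mul_left this (by omega)
        obtain ⟨x, hx⟩ := haodd
        obtain ⟨y, hy⟩ := hnodd
        have : a = 1 := by omega
        rw [this] at h4
        omega
    have h3 : k.natAbs = a := by
      rw [hda, h2, mul_comm a] at hn
      exact Nat.eq_of_mul_eq_mul_left (by omega) hn
    right
    push_cast at hb1 hb2 ⊢
    omega

theorem sum_fix (h : Core P W) (s : ℕ) {k : ℤ} (hk2 : k ^ 2 = h.K.card)
    [DecidablePred fun p => h.F p = p] :
    ∑ p ∈ univ.filter (fun p => h.F p = p), h.G s p = s * k ^ 2 ∧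
    ((univ.filter fun p => h.F p = p).card : ℤ) = k ^ 2 ∧
    ((univ.filter fun p => ¬ h.F p = p).card : ℤ) = d ^ 2 - k ^ 2 := by
  have h1 : ((univ.filter fun p => h.F p = p).card : ℤ) = k ^ 2 := by
    rw [hk2, K]
    congr 2
    ext p
    simp only [mem_filter]
  refine ⟨?_, h1, ?_⟩
  · rw [sum_congr rfl (g := fun _ => (s : ℤ)) (fun p hp => h.G_fix s (mem_filter.mp hp).2),
      sum_const, nsmul_eq_mul, h1, mul_comm]
  · have h3 := card_filter_add_card_filter_not (s := (univ : Finset (PP d))) (fun p => h.F p = p)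
    rw [card_univ, Fintype.card_prod, ZMod.card, ← sq] at h3
    have h4 : ((univ.filter fun p => h.F p = p).card : ℤ) +
        ((univ.filter fun p => ¬ h.F p = p).card : ℤ) = (d : ℤ) ^ 2 := by exact_mod_cast h3
    linarith

theorem sum_nonfix (h : Core P W) {s : ℕ} (hs : d + 1 = s ^ 2) {k : ℤ} (hk : trace W = k)
    (hk2 : k ^ 2 = h.K.card) [DecidablePred fun p => h.F p = p] :
    ∑ p ∈ univ.filter (fun p => ¬ h.F p = p), h.G s p = s * k * (d - k) := by
  have h1 := h.G_sum hs hk
  rw [← sum_filter_add_sum_filter_not univ (fun p => h.F p = p), (h.sum_fix s hk2).1] at h1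
  linear_combination h1

theorem signs_pos (h : Core P W) {s : ℕ} (hs : d + 1 = s ^ 2) {k : ℤ} (hk : trace W = k)
    (hk2 : k ^ 2 = h.K.card) (hks : k = s + 1) (p : PP d) (hp : h.F p ≠ p) : h.G s p = 1 := by
  classical
  have hdZ : (d : ℤ) = (s - 1) * (s + 1) := by
    have : (d : ℤ) + 1 = (s : ℤ) ^ 2 := by exact_mod_cast hs
    linear_combination this
  have h1 : ∑ p ∈ univ.filter (fun p => ¬ h.F p = p), (1 - h.G s p) = 0 := by
    rw [sum_sub_distrib, h.sum_nonfix hs hk hk2, sum_const, nsmul_eq_mul, mul_one,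
      (h.sum_fix s hk2).2.2, hdZ, hks]
    ring
  have h2 := (sum_eq_zero_iff_of_nonneg (fun p hp => by
    rcases h.G_cases s (mem_filter.mp hp).2 with h3 | h3 <;> rw [h3] <;> norm_num)).mp h1 p
    (mem_filter.mpr ⟨mem_univ _, hp⟩)
  linarith

theorem signs_neg (h : Core P W) {s : ℕ} (hs : d + 1 = s ^ 2) {k : ℤ} (hk : trace W = k)
    (hk2 : k ^ 2 = h.K.card) (hks : k = -((s : ℤ) - 1)) (p : PP d) (hp : h.F p ≠ p) :
    h.G s p = -1 := by
  classical
  have hdZ : (d : ℤ) = (s - 1) * (s + 1) := by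
    have : (d : ℤ) + 1 = (s : ℤ) ^ 2 := by exact_mod_cast hs
    linear_combination this
  have h1 : ∑ p ∈ univ.filter (fun p => ¬ h.F p = p), (1 + h.G s p) = 0 := by
    rw [sum_add_distrib, h.sum_nonfix hs hk hk2, sum_const, nsmul_eq_mul, mul_one,
      (h.sum_fix s hk2).2.2, hdZ, hks]
    ring
  have h2 := (sum_eq_zero_iff_of_nonneg (fun p hp => by
    rcases h.G_cases s (mem_filter.mp hp).2 with h3 | h3 <;> rw [h3] <;> norm_num)).mp h1 p
    (mem_filter.mpr ⟨mem_univ _, hp⟩)
  linarith

/-- the third case: the negative signs together with the fixed points form a subgroup -/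
theorem signs_lag (h : Core P W) {s : ℕ} (hs : d + 1 = s ^ 2) {k : ℤ} (hk : trace W = k)
    (hk2 : k ^ 2 = h.K.card) (hks : k = (s : ℤ) - 1) :
    ∃ L : AddSubgroup (PP d), (Nat.card L : ℤ) = d * k ∧
      ∀ p : PP d, (p ∈ L ↔ (h.F p = p ∨ h.G s p = -1)) := by
  classical
  have hdZ : (d : ℤ) = (s - 1) * (s + 1) := by
    have : (d : ℤ) + 1 = (s : ℤ) ^ 2 := by exact_mod_cast hs
    linear_combination this
  set e : PP d → ℤ := fun p => if (h.F p = p ∨ h.G s p = -1) then 1 else 0 with he
  set κ : PP d → ℤ := fun p => if h.F p = p then 1 else 0 with hκ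
  have e01 : ∀ p, e p = 0 ∨ e p = 1 := by
    intro p
    simp only [he]
    split_ifs
    · right; rfl
    · left; rfl
  have hG : ∀ p, h.G s p = 1 + (s + 1) * κ p - 2 * e p := by
    intro p
    simp only [he, hκ]
    by_cases hp : h.F p = p
    · rw [if_pos hp, if_pos (Or.inl hp), h.G_fix s hp]; ring
    · rw [if_neg hp]
      rcases h.G_cases s hp with h1 | h1
      · rw [h1, if_neg (by rintro (h2 | h2); exacts [hp h2, by norm_num at h2])]; ring
      · rw [h1, if_pos (Or.inr rfl)]; ring
  have hκsum : ∑ p, κ p = k ^ 2 := by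
    simp only [hκ]
    rw [sum_boole, (h.sum_fix s hk2).2.1]
  have hcardd : ((Fintype.card (PP d) : ℕ) : ℤ) = (d : ℤ) ^ 2 := by
    rw [Fintype.card_prod, ZMod.card]; push_cast; ring
  have hesum : ∑ p, e p = d * k := by
    have h1 := h.G_sum hs hk
    rw [sum_congr rfl (fun p _ => hG p), sum_sub_distrib, sum_add_distrib, ← mul_sum, ← mul_sum,
      hκsum, sum_const, card_univ, nsmul_eq_mul, hcardd] at h1
    rw [hdZ, hks] at h1 ⊢
    have h2 : 2 * ∑ p, e p = 2 * ((s - 1) * (s + 1) * (s - 1)) := by linear_combination -h1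
    exact mul_left_cancel₀ two_ne_zero h2
  have hFadd : ∀ p r, h.F r = r → (h.F (p + r) = p + r ↔ h.F p = p) := by
    intro p r hr
    rw [h.F_add, hr]
    exact add_left_inj r
  have κper : ∀ p r, h.F r = r → κ (p + r) = κ p := by
    intro p r hr
    simp only [hκ, hFadd p r hr]
  have eper : ∀ p r, h.F r = r → e (p + r) = e p := by
    intro p r hr
    have h1 := hG (p + r)
    rw [h.G_period hs p hr, κper p r hr, hG p] at h1
    linarith
  have κneg : ∀ p, κ (-p) = κ p := by
    intro p
    simp only [hκ, h.F_neg, neg_inj]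
  have eneg : ∀ p, e (-p) = e p := by
    intro p
    have h1 := hG (-p)
    rw [h.G_neg hs p, κneg p, hG p] at h1
    linarith
  have κ1 : ∀ p, κ p = 0 ∨ h.F p = p := by
    intro p
    by_cases hp : h.F p = p
    · right; exact hp
    · left; simp only [hκ, if_neg hp]
  have auto : ∀ r, h.F r ≠ r → ∑ p, e p * e (p + r) = d * k * e r := by
    intro r hr
    have h1 := h.G_auto hs hk hr
    have h2 : ∀ p : PP d, h.G s p * h.G s (p + r) = 1 + (s + 1) * κ p + (s + 1) * κ (p + r)
        - 2 * e p - 2 * e (p + r) - 2 * (s + 1) * e r * κ p - 2 * (s + 1) * e r * κ (p + r)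
        + 4 * (e p * e (p + r)) := by
      intro p
      rw [hG p, hG (p + r)]
      have t1 : κ p * κ (p + r) = 0 := by
        rcases κ1 p with h3 | h3
        · rw [h3, zero_mul]
        · rcases κ1 (p + r) with h4 | h4
          · rw [h4, mul_zero]
          · exfalso
            apply hr
            rw [h.F_add, h3] at h4
            exact add_left_cancel h4
      have t2 : κ p * e (p + r) = κ p * e r := by
        rcases κ1 p with h3 | h3
        · rw [h3, zero_mul, zero_mul]
        · rw [add_comm p r, eper r p h3]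
      have t3 : e p * κ (p + r) = e r * κ (p + r) := by
        rcases κ1 (p + r) with h3 | h3
        · rw [h3, mul_zero, mul_zero]
        · have h4 := eper (-r) (p + r) h3
          rw [show -r + (p + r) = p by abel, eneg r] at h4
          rw [h4]
      linear_combination ((s : ℤ) + 1) ^ 2 * t1 - 2 * ((s : ℤ) + 1) * t2 - 2 * ((s : ℤ) + 1) * t3
    have sκ : ∑ p, κ (p + r) = k ^ 2 := by
      rw [← hκsum]
      exact Equiv.sum_comp (Equiv.addRight r) κ
    have se : ∑ p, e (p + r) = d * k := by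
      rw [← hesum]
      exact Equiv.sum_comp (Equiv.addRight r) e
    rw [sum_congr rfl (fun p _ => h2 p)] at h1
    simp only [sum_add_distrib, sum_sub_distrib, ← mul_sum, hκsum, sκ, hesum, se, sum_const,
      card_univ, nsmul_eq_mul, hcardd] at h1
    have h3 : 4 * ∑ p, e p * e (p + r) = 4 * (d * k * e r) := by
      rw [hdZ, hks] at h1 ⊢
      linear_combination h1
    exact mul_left_cancel₀ four_ne_zero h3
  have closed : ∀ p r, e p = 1 → e r = 1 → e (p + r) = 1 := by
    intro p r hp hr
    by_cases hrf : h.F r = r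
    · rw [eper p r hrf, hp]
    · have h1 := auto r hrf
      rw [hr, mul_one, ← hesum] at h1
      have h2 : ∑ p, (e p - e p * e (p + r)) = 0 := by
        rw [sum_sub_distrib, h1, sub_self]
      have h3 := (sum_eq_zero_iff_of_nonneg (fun p _ => by
        rcases e01 p with h4 | h4 <;> rcases e01 (p + r) with h5 | h5 <;> rw [h4, h5] <;>
          norm_num)).mp h2 p (mem_univ _)
      rw [hp] at h3
      linarith
  have e_iff : ∀ p, e p = 1 ↔ (h.F p = p ∨ h.G s p = -1) := by
    intro p
    simp only [he]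
    split_ifs with h1
    · simp [h1]
    · simp [h1]
  let L : AddSubgroup (PP d) :=
    { carrier := {p | e p = 1}
      zero_mem' := (e_iff 0).mpr (Or.inl h.F_zero)
      add_mem' := fun {a b} ha hb => closed a b ha hb
      neg_mem' := fun {a} ha => by
        change e (-a) = 1
        rw [eneg]; exact ha }
  refine ⟨L, ?_, fun p => ?_⟩
  · have h1 : Nat.card L = (univ.filter fun p => e p = 1).card := by
      rw [← Fintype.card_subtype, ← Nat.card_eq_fintype_card]
      rfl
    rw [h1, ← hesum]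
    rw [card_filter]
    push_cast
    refine sum_congr rfl fun p _ => ?_
    rcases e01 p with h2 | h2 <;> rw [h2] <;> norm_num
  · change e p = 1 ↔ _
    exact e_iff p

/-- in odd dimensions the fixed points are the elements killed by `k` -/
theorem odd_fix (h : Core P W) (hd : 2 ≤ d) (hW : ∀ c : ℂ, W ≠ c • 1) {s : ℕ}
    (hs : d + 1 = s ^ 2) {k : ℤ} (hk : trace W = k) (hk2 : k ^ 2 = h.K.card)
    (hb1 : -((s : ℤ) - 1) ≤ k) (hb2 : k ≤ s + 1) (hodd : Odd d) (p : PP d) :
    h.F p = p ↔ (k : ZMod d) • p = 0 := by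
  classical
  obtain ⟨a, rfl⟩ : ∃ a, s = a + 1 := by
    refine Nat.exists_eq_succ_of_ne_zero ?_
    rintro rfl
    simp at hs
  have hda : d = a * (a + 2) := by
    have : d + 1 = a * (a + 2) + 1 := by rw [hs]; ring
    omega
  have haodd : Odd a := by
    rw [hda, Nat.odd_mul] at hodd
    exact hodd.1
  have hcop : Nat.Coprime a (a + 2) := by
    rw [Nat.coprime_self_add_right, Nat.coprime_two_right]
    exact haodd
  obtain ⟨n, hn, hc⟩ : ∃ n, d = k.natAbs * n ∧ Nat.Coprime k.natAbs n := by
    rcases h.odd_case hd hW hs hk hk2 hb1 hb2 hodd with h1 | h1 | h1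
    · refine ⟨a, ?_, ?_⟩
      · rw [show k.natAbs = a + 2 by push_cast at h1; omega, hda, mul_comm]
      · rw [show k.natAbs = a + 2 by push_cast at h1; omega]
        exact hcop.symm
    · refine ⟨a + 2, ?_, ?_⟩
      · rw [show k.natAbs = a by push_cast at h1; omega, hda]
      · rw [show k.natAbs = a by push_cast at h1; omega]
        exact hcop
    · refine ⟨a + 2, ?_, ?_⟩
      · rw [show k.natAbs = a by push_cast at h1; omega, hda]
      · rw [show k.natAbs = a by push_cast at h1; omega]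
        exact hcop
  have hm0 : k.natAbs ≠ 0 := by
    intro h0
    rw [h0, zero_mul] at hn
    omega
  have : NeZero k.natAbs := ⟨hm0⟩
  have hmd : k.natAbs ∣ d := ⟨n, hn⟩
  have hsm : ∀ x : PP d, (k : ZMod d) • x = 0 ↔ (k.natAbs : ZMod d) • x = 0 := by
    intro x
    rcases Int.natAbs_eq k with h1 | h1
    · conv_lhs => rw [h1]
      rw [Int.cast_natCast]
    · conv_lhs => rw [h1]
      rw [Int.cast_neg, Int.cast_natCast, neg_smul, neg_eq_zero]
  have hdx : ∀ x : PP d, d • x = 0 := by
    intro x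
    rw [← Nat.cast_smul_eq_nsmul (ZMod d), ZMod.natCast_self, zero_smul]
  have sub : ∀ x : PP d, h.F x = x → (k.natAbs : ZMod d) • x = 0 := by
    intro x hx
    have hx' : x ∈ grp (d := d) h.sW := (h.F_iff_grp x).mpr hx
    have h1 : addOrderOf x ∣ k.natAbs ^ 2 := by
      have h2 := addOrderOf_dvd_natCard (⟨x, hx'⟩ : grp (d := d) h.sW)
      rw [h.card_grp, h.natAbs_sq_card hk2] at h2
      rwa [AddSubgroup.addOrderOf_mk] at h2
    have h2 : addOrderOf x ∣ d := addOrderOf_dvd_of_nsmul_eq_zero (hdx x)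
    have h3 : addOrderOf x ∣ k.natAbs := by
      have h4 := Nat.dvd_gcd h1 h2
      have h5 : Nat.gcd (k.natAbs ^ 2) d = k.natAbs := by
        calc Nat.gcd (k.natAbs ^ 2) d = Nat.gcd (k.natAbs * k.natAbs) (k.natAbs * n) := by
              rw [sq, ← hn]
          _ = k.natAbs * Nat.gcd k.natAbs n := Nat.gcd_mul_left _ _ _
          _ = k.natAbs := by rw [hc, mul_one]
      rwa [h5] at h4
    rw [Nat.cast_smul_eq_nsmul]
    exact addOrderOf_dvd_iff_nsmul_eq_zero.mp h3
  rw [hsm]
  refine ⟨sub p, fun hp => ?_⟩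
  -- counting
  have hB : (univ.filter fun x : PP d => (k.natAbs : ZMod d) • x = 0).card = k.natAbs ^ 2 := by
    have h1 : (univ.filter fun x : PP d => (k.natAbs : ZMod d) • x = 0) =
        univ.image (iota d k.natAbs) := by
      ext x
      simp only [mem_filter, mem_univ, true_and, mem_image]
      constructor
      · intro hx; exact iota_surj hmd hx
      · rintro ⟨v, rfl⟩; exact iota_kill hmd v
    rw [h1, card_image_of_injective _ (fun v v' hv => iota_inj hmd hv), card_univ,
      Fintype.card_prod, ZMod.card, sq]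
  have hsub : h.K ⊆ univ.filter fun x : PP d => (k.natAbs : ZMod d) • x = 0 := by
    intro x hx
    rw [K, mem_filter] at hx
    exact mem_filter.mpr ⟨mem_univ _, sub x hx.2⟩
  have heq := eq_of_subset_of_card_le hsub (by rw [hB, h.natAbs_sq_card hk2])
  have hpK : p ∈ h.K := by
    rw [heq]
    exact mem_filter.mpr ⟨mem_univ _, hp⟩
  rw [K, mem_filter] at hpK
  exact hpK.2

end Core

end Pool.Agent.Q92.Sic
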