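import Pool.Agent.Q92.Sic.Signs

/-! Divisibility of coset sums (for MP_1c78a5_mp). -/

set_option autoImplicit false

open Finset

namespace Pool.Agent.Q92.Sic

/-- If the autocorrelation of an integer function on a finite abelian group is divisible by the
prime `q`, then so are its sums over the fibres of multiplication by `q`. -/
theorem frob {A : Type*} [AddCommGroup A] [Fintype A] [DecidableEq A] (G : A → ℤ) (q : ℕ)
    [hq : Fact q.Prime] (hR : ∀ r : A, (q : ℤ) ∣ ∑ p : A, G p * G (r - p)) (y : A) :
    (q : ℤ) ∣ ∑ p : A, if q • p = y then G p else 0 := by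
  classical
  let g : AddMonoidAlgebra (ZMod q) A := ∑ p : A, AddMonoidAlgebra.single p ((G p : ℤ) : ZMod q)
  have hg2 : g * g = 0 := by
    simp only [g]
    rw [sum_mul_sum]
    have e : ∀ p : A, ∑ p' : A, AddMonoidAlgebra.single p ((G p : ℤ) : ZMod q) *
        AddMonoidAlgebra.single p' ((G p' : ℤ) : ZMod q) =
        ∑ r : A, AddMonoidAlgebra.single r ((G p * G (r - p) : ℤ) : ZMod q) := by
      intro p
      rw [← Equiv.sum_comp (Equiv.subRight p) (fun p' => AddMonoidAlgebra.single p ((G p : ℤ) : ZMod q) *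
        AddMonoidAlgebra.single p' ((G p' : ℤ) : ZMod q))]
      refine sum_congr rfl fun r _ => ?_
      rw [Equiv.subRight_apply, AddMonoidAlgebra.single_mul_single, add_sub_cancel]
      push_cast
      rfl
    rw [sum_congr rfl (fun p _ => e p), sum_comm]
    refine sum_eq_zero fun r _ => ?_
    have h1 : ∑ p : A, AddMonoidAlgebra.single r ((G p * G (r - p) : ℤ) : ZMod q) =
        AddMonoidAlgebra.single r (((∑ p : A, G p * G (r - p) : ℤ)) : ZMod q) := by
      rw [← AddMonoidAlgebra.coeff_inj]
      ext x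
      simp only [AddMonoidAlgebra.coeff_sum, AddMonoidAlgebra.coeff_single, Finsupp.finsetSum_apply,
        Finsupp.single_apply]
      by_cases hx : r = x
      · simp only [if_pos hx]
        push_cast
        rfl
      · simp only [if_neg hx, sum_const_zero]
    rw [h1, (ZMod.intCast_zmod_eq_zero_iff_dvd _ _).mpr (hR r)]
    simp
  have hgq : g ^ q = 0 := by
    have h2 : 2 ≤ q := hq.out.two_le
    obtain ⟨m, hm⟩ := Nat.exists_eq_add_of_le h2
    have h5 : g ^ q = g ^ (2 + m) := congrArg (fun n => g ^ n) hm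
    rw [h5, pow_add, sq, hg2, zero_mul]
  have : CharP (AddMonoidAlgebra (ZMod q) A) q :=
    charP_of_injective_algebraMap (algebraMap (ZMod q) (AddMonoidAlgebra (ZMod q) A)).injective q
  have h3 : g ^ q = ∑ p : A, AddMonoidAlgebra.single (q • p) ((G p : ℤ) : ZMod q) := by
    simp only [g]
    rw [sum_pow_char q]
    refine sum_congr rfl fun p _ => ?_
    rw [AddMonoidAlgebra.single_pow, ZMod.pow_card]
  rw [hgq] at h3
  have h4 := congrArg (fun f => f.coeff y) h3
  simp only [AddMonoidAlgebra.coeff_zero, Finsupp.coe_zero, Pi.zero_apply,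
    AddMonoidAlgebra.coeff_sum, AddMonoidAlgebra.coeff_single, Finsupp.finsetSum_apply,
    Finsupp.single_apply] at h4
  rw [← ZMod.intCast_zmod_eq_zero_iff_dvd]
  push_cast
  exact h4.symm

end Pool.Agent.Q92.Sic
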