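import Mathlib

/-! Combinatorics of sign grids (for MP_1c78a5_mp). -/

set_option autoImplicit false

open Finset

namespace Pool.Agent.Q92.Sic

/-- representatives of the lines of the plane over `ZMod q` -/
def rep (q : ℕ) : Option (ZMod q) → ZMod q × ZMod q
  | none => (0, 1)
  | some t => (1, t)

theorem rep_ne (q : ℕ) [Fact (1 < q)] (o : Option (ZMod q)) : rep q o ≠ 0 := by
  cases o with
  | none => intro h; exact one_ne_zero (congrArg Prod.snd h)
  | some t => intro h; exact one_ne_zero (congrArg Prod.fst h)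

theorem sum_lines (q : ℕ) [hq : Fact q.Prime] (f : ZMod q × ZMod q → ℤ)
    (hf : ∀ (t : ZMod q) (v : ZMod q × ZMod q), t ≠ 0 → f (t • v) = f v) :
    ∑ v, f v = f 0 + ((q : ℤ) - 1) * ∑ o : Option (ZMod q), f (rep q o) := by
  classical
  have hcard : ((univ.erase (0 : ZMod q)).card : ℤ) = (q : ℤ) - 1 := by
    rw [card_erase_of_mem (mem_univ _), card_univ, ZMod.card, Nat.cast_sub hq.out.one_lt.le]
    simp
  rw [Fintype.sum_prod_type, Fintype.sum_option, ← add_sum_erase univ _ (mem_univ (0 : ZMod q)),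
    ← add_sum_erase univ _ (mem_univ (0 : ZMod q))]
  have h1 : ∑ y ∈ univ.erase (0 : ZMod q), f (0, y) = ((q : ℤ) - 1) * f (rep q none) := by
    rw [← hcard, ← nsmul_eq_mul]
    apply sum_eq_card_nsmul
    intro y hy
    have h2 : ((0, y) : ZMod q × ZMod q) = y • rep q none := by
      simp [rep]
    rw [h2, hf _ _ (ne_of_mem_erase hy)]
  have h2 : ∑ x ∈ univ.erase (0 : ZMod q), ∑ y, f (x, y) =
      ((q : ℤ) - 1) * ∑ t : ZMod q, f (rep q (some t)) := by
    rw [← hcard, ← nsmul_eq_mul]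
    apply sum_eq_card_nsmul
    intro x hx
    have hx0 := ne_of_mem_erase hx
    rw [← Equiv.sum_comp (Equiv.mulLeft₀ x hx0) (fun y => f (x, y))]
    refine sum_congr rfl fun t _ => ?_
    have h3 : ((x, x * t) : ZMod q × ZMod q) = x • rep q (some t) := by
      simp [rep]
    change f (x, x * t) = _
    rw [h3, hf _ _ hx0]
  rw [h1, h2]
  change f (0, 0) + _ + _ = f (0, 0) + _
  ring

theorem pm_sum {ι : Type*} [Fintype ι] (f : ι → ℤ) (hf : ∀ i, f i = 1 ∨ f i = -1) :
    ∃ N : ℕ, N ≤ Fintype.card ι ∧ ∑ i, f i = (Fintype.card ι : ℤ) - 2 * N := by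
  classical
  refine ⟨(univ.filter fun i => f i = -1).card, card_le_univ _, ?_⟩
  have e : ∀ i, f i = 1 - 2 * (if f i = -1 then 1 else 0) := by
    intro i
    rcases hf i with h | h <;> rw [h] <;> norm_num
  rw [sum_congr rfl (fun i _ => e i), sum_sub_distrib, ← mul_sum, sum_boole, sum_const, card_univ]
  simp

theorem cross {R C : Type*} [Fintype R] [Fintype C] (u : R → C → ℤ) (a : R → ℤ) (b : C → ℤ)
    (hu : ∀ l m, u l m = 1 ∨ u l m = -1)
    (hb : ∀ m, b m = 1 ∨ b m = -1)
    (hA : ∀ l, ∑ m, (1 + a l * u l m) ≤ 2) (hB : ∀ m, ∑ l, (1 + b m * u l m) ≤ 2)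
    (α : ℤ) (hα : α = 1 ∨ α = -1) [DecidablePred fun l => a l = α]
    [DecidablePred fun m => b m = -α] :
    ((univ.filter fun m => b m = -α).card : ℤ) * (((univ.filter fun l => a l = α).card : ℤ) - 1) ≤
      (univ.filter fun l => a l = α).card := by
  have h0 : ∀ l m, 0 ≤ 1 + α * u l m := by
    intro l m
    rcases hα with h | h <;> rcases hu l m with h' | h' <;> rw [h, h'] <;> norm_num
  have h0' : ∀ l m, 0 ≤ 1 + b m * u l m := by
    intro l m
    rcases hb m with h | h <;> rcases hu l m with h' | h' <;> rw [h, h'] <;> norm_num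
  have h1 : ∀ m ∈ univ.filter (fun m => b m = -α),
      2 * (((univ.filter fun l => a l = α).card : ℤ) - 1) ≤
        ∑ l ∈ univ.filter (fun l => a l = α), (1 + α * u l m) := by
    intro m hm
    have hbm : b m = -α := (mem_filter.mp hm).2
    have h2 : ∑ l ∈ univ.filter (fun l => a l = α), (1 + b m * u l m) ≤ 2 :=
      (sum_le_univ_sum_of_nonneg (fun l => h0' l m)).trans (hB m)
    have h3 : ∑ l ∈ univ.filter (fun l => a l = α), (1 + α * u l m) =
        2 * ((univ.filter fun l => a l = α).card : ℤ) -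
          ∑ l ∈ univ.filter (fun l => a l = α), (1 + b m * u l m) := by
      rw [eq_sub_iff_add_eq, ← sum_add_distrib, mul_comm, ← nsmul_eq_mul]
      apply sum_eq_card_nsmul
      intro l _
      rw [hbm]; ring
    rw [h3]; linarith
  have h2 := sum_le_sum h1
  rw [sum_const, nsmul_eq_mul, sum_comm] at h2
  have h3 : ∑ l ∈ univ.filter (fun l => a l = α), ∑ m ∈ univ.filter (fun m => b m = -α),
      (1 + α * u l m) ≤ ∑ l ∈ univ.filter (fun l => a l = α), 2 := by
    refine sum_le_sum fun l hl => ?_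
    have hal : a l = α := (mem_filter.mp hl).2
    have := hA l
    rw [hal] at this
    exact (sum_le_univ_sum_of_nonneg (fun m => h0 l m)).trans this
  rw [sum_const, nsmul_eq_mul] at h3
  nlinarith

theorem card_pm {ι : Type*} [Fintype ι] (f : ι → ℤ) (hf : ∀ i, f i = 1 ∨ f i = -1)
    [DecidablePred fun i => f i = 1] [DecidablePred fun i => f i = -1] :
    ((univ.filter fun i => f i = 1).card : ℤ) + (univ.filter fun i => f i = -1).card =
      Fintype.card ι ∧
    ∑ i, f i = ((univ.filter fun i => f i = 1).card : ℤ) - (univ.filter fun i => f i = -1).card := by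
  have h1 : (univ.filter fun i => f i = -1) = univ.filter fun i => ¬ f i = 1 := by
    ext i
    simp only [mem_filter, mem_univ, true_and]
    rcases hf i with h | h <;> rw [h] <;> norm_num
  constructor
  · rw [h1]
    have := card_filter_add_card_filter_not (s := (univ : Finset ι)) (fun i => f i = 1)
    rw [card_univ] at this
    exact_mod_cast this
  · rw [← sum_filter_add_sum_filter_not univ (fun i => f i = 1), ← h1]
    rw [sum_congr rfl (g := fun _ => (1 : ℤ)) (fun i hi => (mem_filter.mp hi).2)]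
    rw [sum_congr rfl (g := fun _ => (-1 : ℤ)) (s₁ := univ.filter fun i => f i = -1)
      (fun i hi => (mem_filter.mp hi).2)]
    simp
    ring

/-- one row or column -/
theorem row {ι : Type*} [Fintype ι] (q : ℕ) (hq : 3 ≤ q) (ho : Odd q)
    (hc : Fintype.card ι = q + 1) (f : ι → ℤ) (hf : ∀ i, f i = 1 ∨ f i = -1) (g : ℤ)
    (hg : g = 1 ∨ g = -1) (hd : (q : ℤ) ∣ ∑ i, f i - g) :
    ∃ a : ℤ, (a = 1 ∨ a = -1) ∧ ∑ i, f i = g - q * a ∧ ∑ i, (1 + a * f i) ≤ 2 := by
  obtain ⟨N, hN, hs⟩ := pm_sum f hf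
  obtain ⟨j, hj⟩ := hd
  rw [hc] at hN hs
  obtain ⟨x, hx⟩ := ho
  have hj2 : j % 2 = 1 := by
    rw [hs] at hj
    have h1 : ((q : ℤ) * j) % 2 = 1 := by
      rw [← hj]
      push_cast
      rcases hg with h | h <;> rw [h] <;> omega
    rw [Int.mul_emod] at h1
    have h2 : (q : ℤ) % 2 = 1 := by omega
    rw [h2] at h1
    omega
  have hq0 : (0 : ℤ) < q := by omega
  have hj1 : j < 2 := by
    by_contra h
    push Not at h
    have h1 : (q : ℤ) * 2 ≤ q * j := mul_le_mul_of_nonneg_left h hq0.le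
    rw [← hj, hs] at h1
    push_cast at h1
    rcases hg with h' | h' <;> rw [h'] at h1 <;> omega
  have hj1' : -2 < j := by
    by_contra h
    push Not at h
    have h1 : (q : ℤ) * j ≤ q * (-2) := mul_le_mul_of_nonneg_left h hq0.le
    rw [← hj, hs] at h1
    push_cast at h1
    rcases hg with h' | h' <;> rw [h'] at h1 <;> omega
  have hj3 : j = 1 ∨ j = -1 := by omega
  refine ⟨-j, by omega, by linarith, ?_⟩
  rw [sum_add_distrib, ← mul_sum, sum_const, card_univ, hc]
  have hS : ∑ i, f i = g + q * j := by linarith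
  rw [hS]
  simp only [nsmul_eq_mul, mul_one]
  push_cast
  rcases hj3 with h | h <;> rcases hg with h' | h' <;> rw [h, h'] <;> ring_nf <;> omega

theorem grid {R C : Type*} [Fintype R] [Fintype C] (q1 q2 : ℕ) (hR : Fintype.card R = q1 + 1)
    (hC : Fintype.card C = q2 + 1) (h1 : 3 ≤ q1) (h2 : 5 ≤ q2) (o1 : Odd q1) (o2 : Odd q2)
    (u : R → C → ℤ) (hu : ∀ l m, u l m = 1 ∨ u l m = -1)
    (g : R → ℤ) (hg : ∀ l, g l = 1 ∨ g l = -1) (g' : C → ℤ) (hg' : ∀ m, g' m = 1 ∨ g' m = -1)
    (H1 : ∀ l, (q2 : ℤ) ∣ ∑ m, u l m - g l) (H2 : ∀ m, (q1 : ℤ) ∣ ∑ l, u l m - g' m)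
    (H3 : (q1 : ℤ) ∣ ∑ l, g l - 1) (H4 : (q2 : ℤ) ∣ ∑ m, g' m + 1) : False := by
  classical
  choose a ha ha2 ha3 using fun l => row q2 (by omega) o2 hC (u l) (hu l) (g l) (hg l) (H1 l)
  choose b hb hb2 hb3 using fun m => row q1 h1 o1 hR (fun l => u l m) (fun l => hu l m) (g' m)
    (hg' m) (H2 m)
  have I1 := cross u a b hu hb ha3 hb3 1 (Or.inl rfl)
  have I2 := cross u a b hu hb ha3 hb3 (-1) (Or.inr rfl)
  rw [neg_neg] at I2
  obtain ⟨hr1, hr2⟩ := card_pm a ha
  obtain ⟨hc1, hc2⟩ := card_pm b hb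
  rw [hR] at hr1
  rw [hC] at hc1
  set rp : ℤ := ((univ.filter fun l => a l = 1).card : ℤ) with hrp
  set rm : ℤ := ((univ.filter fun l => a l = -1).card : ℤ) with hrm
  set cp : ℤ := ((univ.filter fun m => b m = 1).card : ℤ) with hcp
  set cm : ℤ := ((univ.filter fun m => b m = -1).card : ℤ) with hcm
  have p1 : 0 ≤ rp := by positivity
  have p2 : 0 ≤ rm := by positivity
  have p3 : 0 ≤ cp := by positivity
  have p4 : 0 ≤ cm := by positivity
  push_cast at hr1 hc1
  have key : (rm ≤ 1 ∧ cm ≤ 1) ∨ (rp ≤ 1 ∧ cp ≤ 1) := by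
    rcases le_or_gt rm 1 with h | h
    · left
      refine ⟨h, ?_⟩
      by_contra hc
      push Not at hc
      nlinarith
    · rcases le_or_gt rp 1 with h' | h'
      · right
        refine ⟨h', ?_⟩
        by_contra hc
        push Not at hc
        nlinarith
      · exfalso
        have e1 : cp ≤ 2 := by
          by_contra hc
          push Not at hc
          nlinarith
        have e2 : cm ≤ 2 := by
          by_contra hc
          push Not at hc
          nlinarith
        omega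
  have tot : ∑ l, g l - q2 * ∑ l, a l = ∑ m, g' m - q1 * ∑ m, b m := by
    have e1 : ∑ l, ∑ m, u l m = ∑ l, g l - q2 * ∑ l, a l := by
      rw [mul_sum, ← sum_sub_distrib]
      exact sum_congr rfl fun l _ => ha2 l
    have e2 : ∑ m, ∑ l, u l m = ∑ m, g' m - q1 * ∑ m, b m := by
      rw [mul_sum, ← sum_sub_distrib]
      exact sum_congr rfl fun m _ => hb2 m
    rw [← e1, ← e2, sum_comm]
  obtain ⟨x, hx⟩ := o1
  obtain ⟨y, hy⟩ := o2
  have S1 : ∑ l, g l = q1 + 1 ∨ ∑ l, g l = 1 - q1 := by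
    obtain ⟨N, hN, hs⟩ := pm_sum g hg
    rw [hR] at hN hs
    rw [hs] at H3 ⊢
    have h3 : (q1 : ℤ) ∣ (2 : ℤ) * N := by
      have : (2 : ℤ) * N = q1 - (((q1 + 1 : ℕ) : ℤ) - 2 * N - 1) := by push_cast; ring
      rw [this]
      exact dvd_sub (dvd_refl _) H3
    have h4 : q1 ∣ 2 * N := by exact_mod_cast h3
    have h5 : q1 ∣ N := by
      refine (Nat.Coprime.dvd_mul_left ?_).mp h4
      rw [Nat.coprime_comm, Nat.coprime_two_left]
      exact ⟨x, hx⟩
    obtain ⟨t, ht⟩ := h5
    have h6 : t < 2 := by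
      by_contra h
      push Not at h
      have := Nat.mul_le_mul_left q1 h
      omega
    push_cast
    interval_cases t
    · left; omega
    · right; omega
  have S2 : ∑ m, g' m = q2 - 1 ∨ ∑ m, g' m = -q2 - 1 := by
    obtain ⟨N, hN, hs⟩ := pm_sum g' hg'
    rw [hC] at hN hs
    rw [hs] at H4 ⊢
    have hN0 : N ≠ 0 := by
      rintro rfl
      have : (q2 : ℤ) ∣ 2 := by
        have e : (2 : ℤ) = (((q2 + 1 : ℕ) : ℤ) - 2 * ((0 : ℕ) : ℤ) + 1) - q2 := by push_cast; ring
        rw [e]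
        exact dvd_sub H4 (dvd_refl _)
      have := Int.le_of_dvd (by norm_num) this
      omega
    obtain ⟨N', rfl⟩ := Nat.exists_eq_succ_of_ne_zero hN0
    have h3 : (q2 : ℤ) ∣ (2 : ℤ) * N' := by
      have : (2 : ℤ) * N' = q2 - (((q2 + 1 : ℕ) : ℤ) - 2 * ((N'.succ : ℕ) : ℤ) + 1) := by
        push_cast; ring
      rw [this]
      exact dvd_sub (dvd_refl _) H4
    have h4 : q2 ∣ 2 * N' := by exact_mod_cast h3
    have h5 : q2 ∣ N' := by
      refine (Nat.Coprime.dvd_mul_left ?_).mp h4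
      rw [Nat.coprime_comm, Nat.coprime_two_left]
      exact ⟨y, hy⟩
    obtain ⟨t, ht⟩ := h5
    have h6 : t < 2 := by
      by_contra h
      push Not at h
      have := Nat.mul_le_mul_left q2 h
      omega
    push_cast
    interval_cases t
    · left; omega
    · right; omega
  rw [hr2, hc2] at tot
  rcases key with ⟨k1, k2⟩ | ⟨k1, k2⟩
  · have er : rp = q1 + 1 - rm := by linarith
    have ec : cp = q2 + 1 - cm := by linarith
    rw [er, ec] at tot
    have k3 : rm = 0 ∨ rm = 1 := by omega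
    have k4 : cm = 0 ∨ cm = 1 := by omega
    rcases k3 with k3 | k3 <;> rcases k4 with k4 | k4 <;> rcases S1 with s1 | s1 <;>
      rcases S2 with s2 | s2 <;> rw [k3, k4, s1, s2] at tot <;> ring_nf at tot <;> omega
  · have er : rm = q1 + 1 - rp := by linarith
    have ec : cm = q2 + 1 - cp := by linarith
    rw [er, ec] at tot
    have k3 : rp = 0 ∨ rp = 1 := by omega
    have k4 : cp = 0 ∨ cp = 1 := by omega
    rcases k3 with k3 | k3 <;> rcases k4 with k4 | k4 <;> rcases S1 with s1 | s1 <;>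
      rcases S2 with s2 | s2 <;> rw [k3, k4, s1, s2] at tot <;> ring_nf at tot <;> omega

end Pool.Agent.Q92.Sic
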