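import Pool.Agent.Q92.Sic.Basic
import Pool.Agent.Q92.Sic.Arith

/-! Involutive Clifford symmetries of WH SIC fiducials (for MP_1c78a5_mp). -/

set_option autoImplicit false

open Finset Matrix

namespace Pool.Agent.Q92.Sic

variable {d : ℕ} [NeZero d]

theorem DD_mul_star_DD (p q : PP d) :
    ∃ c : ℂ, ‖c‖ = 1 ∧ DD q * star (DD p) = c • DD (q - p) := by
  refine ⟨ch (p.1 * p.2) * ch (q.2 * (-p).1), ?_, ?_⟩
  · rw [norm_mul, norm_ch, norm_ch, one_mul]
  · rw [DD_star, mul_smul_comm, DD_mul, smul_smul, sub_eq_add_neg]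

theorem conj_DD (p q : PP d) : DD p * DD q * star (DD p) = ch (sf p q) • DD q := by
  rw [DD_comm, smul_mul_assoc, mul_assoc, DD_mul_star, mul_one]

theorem sum_sf (r : PP d) : ∑ p : PP d, ch (sf p r) = if r = 0 then (d : ℂ) ^ 2 else 0 := by
  have e : ∀ p : PP d, ch (sf p r) = ch (p.1 * (-r.2)) * ch (p.2 * r.1) := by
    intro p
    rw [← ch_add]
    congr 1
    simp only [sf]; ring
  simp only [e]
  rw [← Finset.univ_product_univ, Finset.sum_product]
  simp only [← mul_sum, sum_ch]
  rw [← sum_mul, sum_ch]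
  by_cases h1 : r.1 = 0
  · by_cases h2 : r.2 = 0
    · rw [if_pos (by rw [h2, neg_zero]), if_pos h1, if_pos (Prod.ext h1 h2), sq]
    · rw [if_neg (fun h => h2 (neg_eq_zero.mp h)), zero_mul, if_neg (fun h => h2 (by rw [h]; rfl))]
  · rw [if_neg h1, mul_zero, if_neg (fun h => h1 (by rw [h]; rfl))]

/-- coefficients -/
noncomputable def uu (W : Matrix (ZMod d) (ZMod d) ℂ) (q : PP d) : ℂ := trace (star (DD q) * W)

noncomputable def gg (P W : Matrix (ZMod d) (ZMod d) ℂ) (p : PP d) : ℂ :=
  trace (P * (DD p * W * star (DD p)))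

theorem dne : (d : ℂ) ≠ 0 := Nat.cast_ne_zero.mpr (NeZero.ne d)

theorem gg_eq (P W : Matrix (ZMod d) (ZMod d) ℂ) (p : PP d) :
    (d : ℂ) * gg P W p = ∑ q : PP d, uu W q * trace (P * DD q) * ch (sf p q) := by
  have h : (d : ℂ) * gg P W p = trace (P * (DD p * ((d : ℂ) • W) * star (DD p))) := by
    rw [gg, mul_smul_comm, smul_mul_assoc, mul_smul_comm, trace_smul, smul_eq_mul]
  rw [h, ← expand W, mul_sum, sum_mul, mul_sum, trace_sum]
  refine sum_congr rfl fun q _ => ?_
  rw [mul_smul_comm, smul_mul_assoc, conj_DD, mul_smul_comm, mul_smul_comm, trace_smul, trace_smul,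
    smul_eq_mul, smul_eq_mul, uu]
  ring

theorem parseval (P W : Matrix (ZMod d) (ZMod d) ℂ) :
    ∑ p : PP d, gg P W p * star (gg P W p) =
      ∑ q : PP d, (uu W q * star (uu W q)) * (trace (P * DD q) * star (trace (P * DD q))) := by
  have hd2 : ((d : ℂ) * d) ≠ 0 := mul_ne_zero dne dne
  apply mul_left_cancel₀ hd2
  rw [mul_sum]
  have e : ∀ p : PP d, (d : ℂ) * d * (gg P W p * star (gg P W p)) =
      ∑ q : PP d, ∑ q' : PP d, (uu W q * trace (P * DD q)) * star (uu W q' * trace (P * DD q')) *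
        ch (sf p (q - q')) := by
    intro p
    have h1 : (d : ℂ) * d * (gg P W p * star (gg P W p)) =
        ((d : ℂ) * gg P W p) * star ((d : ℂ) * gg P W p) := by
      rw [star_mul', star_natCast]; ring
    rw [h1, gg_eq, star_sum, sum_mul_sum]
    refine sum_congr rfl fun q _ => sum_congr rfl fun q' _ => ?_
    have h2 : ch (sf p (q - q')) = ch (sf p q) * star (ch (sf p q')) := by
      rw [star_ch, ← ch_add]
      congr 1
      simp only [sf, Prod.fst_sub, Prod.snd_sub]; ring
    rw [h2, star_mul' (uu W q' * trace (P * DD q'))]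
    ring
  rw [sum_congr rfl (fun p _ => e p), sum_comm]
  rw [mul_sum]
  refine sum_congr rfl fun q _ => ?_
  rw [sum_comm]
  have e2 : ∀ q' : PP d, ∑ p : PP d, (uu W q * trace (P * DD q)) *
      star (uu W q' * trace (P * DD q')) * ch (sf p (q - q')) =
      (uu W q * trace (P * DD q)) * star (uu W q' * trace (P * DD q')) *
        (if q - q' = 0 then (d : ℂ) ^ 2 else 0) := by
    intro q'
    rw [← mul_sum, sum_sf]
  rw [sum_congr rfl (fun q' _ => e2 q'), sum_eq_single q]
  · rw [if_pos (sub_self q), star_mul']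
    ring
  · intro q' _ hq'
    rw [if_neg (fun h => hq' (sub_eq_zero.mp h).symm), mul_zero]
  · intro h; exact absurd (mem_univ _) h

theorem parseval2 (W : Matrix (ZMod d) (ZMod d) ℂ) :
    ∑ q : PP d, uu W q * star (uu W q) = d * trace (W * star W) := by
  have h : (d : ℂ) * trace (W * star W) = trace (((d : ℂ) • W) * star W) := by
    rw [smul_mul_assoc, trace_smul, smul_eq_mul]
  rw [h, ← expand W, sum_mul, trace_sum]
  refine sum_congr rfl fun q _ => ?_
  rw [smul_mul_assoc, trace_smul, smul_eq_mul, uu]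
  congr 1
  rw [← trace_conjTranspose]
  rw [← star_eq_conjTranspose, star_mul, star_star, trace_mul_comm]

theorem sum_gg (P W : Matrix (ZMod d) (ZMod d) ℂ) :
    ∑ p : PP d, gg P W p = d * trace W * trace P := by
  simp only [gg]
  rw [← trace_sum, ← mul_sum, twirl, mul_smul_comm, trace_smul, mul_one, smul_eq_mul]

omit [NeZero d] in
theorem smul_one_ne [NeZero d] {c : ℂ} (h : c • (1 : Matrix (ZMod d) (ZMod d) ℂ) = 0) : c = 0 := by
  have := congrFun (congrFun h 0) 0
  simpa using this

/-- hypotheses of the core theorem -/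
structure Core (P W : Matrix (ZMod d) (ZMod d) ℂ) : Prop where
  herm : star P = P
  tr : trace P = 1
  sic : ∀ p : PP d, p ≠ 0 → ‖trace (P * DD p)‖ ^ 2 = 1 / (d + 1)
  sW : star W = W
  WW : W * W = 1
  WP : W * P = P
  cl : ∀ p : PP d, ∃ (q : PP d) (c : ℂ), W * DD p * W = c • DD q

namespace Core

variable {P W : Matrix (ZMod d) (ZMod d) ℂ}

theorem PW (h : Core P W) : P * W = P := by
  have := congrArg star h.WP
  rwa [star_mul, h.herm, h.sW] at this

/-- the linear part -/
noncomputable def F (h : Core P W) (p : PP d) : PP d := (h.cl p).choose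

noncomputable def c (h : Core P W) (p : PP d) : ℂ := (h.cl p).choose_spec.choose

theorem cF (h : Core P W) (p : PP d) : W * DD p * W = h.c p • DD (h.F p) :=
  (h.cl p).choose_spec.choose_spec

theorem norm_c (h : Core P W) (p : PP d) : ‖h.c p‖ = 1 := by
  have h1 : (W * DD p * W) * star (W * DD p * W) = 1 := by
    rw [star_mul, star_mul, h.sW]
    calc W * DD p * W * (W * (star (DD p) * W)) = W * DD p * (W * W) * star (DD p) * W := by
          simp only [mul_assoc]
      _ = W * (DD p * star (DD p)) * W := by rw [h.WW, mul_one]; simp only [mul_assoc]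
      _ = 1 := by rw [DD_mul_star, mul_one, h.WW]
  rw [h.cF, star_smul, smul_mul_assoc, mul_smul_comm, smul_smul, DD_mul_star] at h1
  have h2 : (h.c p * star (h.c p) - 1) • (1 : Matrix (ZMod d) (ZMod d) ℂ) = 0 := by
    rw [sub_smul, h1, one_smul, sub_self]
  have h3 := sub_eq_zero.mp (smul_one_ne h2)
  rw [Complex.star_def, Complex.mul_conj, Complex.normSq_eq_norm_sq] at h3
  have h4 : ‖h.c p‖ ^ 2 = 1 := by exact_mod_cast h3
  rw [← sq_eq_sq₀ (norm_nonneg _) zero_le_one, h4, one_pow]

theorem gg_form (h : Core P W) (p : PP d) :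
    ∃ c' : ℂ, ‖c'‖ = 1 ∧ gg P W p = c' * trace (P * DD (h.F p - p)) := by
  obtain ⟨e, he, h1⟩ := DD_mul_star_DD p (h.F p)
  refine ⟨h.c p * e, by rw [norm_mul, h.norm_c, he, one_mul], ?_⟩
  have h2 : DD p * W = W * (W * DD p * W) := by
    rw [← mul_assoc, ← mul_assoc, h.WW, one_mul]
  rw [gg, h2, h.cF, mul_assoc, ← mul_assoc, h.PW, smul_mul_assoc, h1, mul_smul_comm, mul_smul_comm,
    trace_smul, trace_smul, smul_eq_mul, smul_eq_mul, mul_assoc]

theorem norm_gg (h : Core P W) (p : PP d) :
    ‖gg P W p‖ ^ 2 = if h.F p = p then 1 else 1 / ((d : ℝ) + 1) := by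
  obtain ⟨c', hc, h1⟩ := h.gg_form p
  rw [h1, norm_mul, hc, one_mul]
  split_ifs with h2
  · rw [h2, sub_self, DD_zero, mul_one, h.tr, norm_one, one_pow]
  · exact h.sic _ (fun h3 => h2 (sub_eq_zero.mp h3))

theorem mul_star' (z : ℂ) : z * star z = ((‖z‖ ^ 2 : ℝ) : ℂ) := by
  rw [Complex.star_def, Complex.mul_conj, Complex.normSq_eq_norm_sq]

open Classical in
/-- the number of fixed points -/
noncomputable def K (h : Core P W) : Finset (PP d) := univ.filter fun p => h.F p = p

theorem sum_norm (h : Core P W) :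
    ∑ p : PP d, ‖gg P W p‖ ^ 2 = (h.K.card : ℝ) + ((d : ℝ) ^ 2 - h.K.card) / (d + 1) := by
  classical
  simp only [h.norm_gg]
  rw [← sum_filter_add_sum_filter_not univ (fun p => h.F p = p)]
  have h1 : ∑ p ∈ univ.filter (fun p => h.F p = p), (if h.F p = p then (1 : ℝ) else 1 / ((d : ℝ) + 1))
      = h.K.card := by
    rw [sum_congr rfl (g := fun _ => (1 : ℝ)) (fun p hp => by rw [if_pos (mem_filter.mp hp).2])]
    simp [K]
  have h2 : ∑ p ∈ univ.filter (fun p => ¬ h.F p = p),
      (if h.F p = p then (1 : ℝ) else 1 / ((d : ℝ) + 1)) = ((d : ℝ) ^ 2 - h.K.card) / (d + 1) := by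
    rw [sum_congr rfl (g := fun _ => 1 / ((d : ℝ) + 1)) (fun p hp => by rw [if_neg (mem_filter.mp hp).2])]
    rw [sum_const, nsmul_eq_mul]
    have h3 := card_filter_add_card_filter_not (s := (univ : Finset (PP d))) (fun p => h.F p = p)
    rw [card_univ, Fintype.card_prod, ZMod.card] at h3
    have h4 : ((univ.filter (fun p => ¬ h.F p = p)).card : ℝ) = (d : ℝ) ^ 2 - h.K.card := by
      have h5 : ((h.K.card + (univ.filter (fun p => ¬ h.F p = p)).card : ℕ) : ℝ) = ((d * d : ℕ) : ℝ) := by
        rw [← h3]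
        rfl
      push_cast at h5
      linarith
    rw [h4]; ring
  rw [h1, h2]

theorem sum_norm2 (h : Core P W) :
    ∑ p : PP d, ‖gg P W p‖ ^ 2 = (d : ℝ) ^ 2 / (d + 1) + (d / (d + 1)) * ‖trace W‖ ^ 2 := by
  have h1 := parseval P W
  have h2 := parseval2 W
  simp only [mul_star'] at h1 h2
  rw [h.sW, h.WW, trace_one, Fintype.card_eq_nat_card, Nat.card_eq_fintype_card, ZMod.card] at h2
  have h1' : ∑ p : PP d, ‖gg P W p‖ ^ 2 = ∑ q : PP d, ‖uu W q‖ ^ 2 * ‖trace (P * DD q)‖ ^ 2 := by
    exact_mod_cast h1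
  have h2' : ∑ q : PP d, ‖uu W q‖ ^ 2 = (d : ℝ) * d := by exact_mod_cast h2
  rw [h1']
  have h3 : ∀ q : PP d, ‖uu W q‖ ^ 2 * ‖trace (P * DD q)‖ ^ 2 =
      ‖uu W q‖ ^ 2 * (1 / ((d : ℝ) + 1)) + (if q = 0 then ‖trace W‖ ^ 2 * (d / ((d : ℝ) + 1)) else 0) := by
    intro q
    by_cases hq : q = 0
    · rw [if_pos hq, hq, DD_zero, mul_one, h.tr, norm_one, one_pow, mul_one, uu, DD_zero, star_one,
        one_mul]
      have : (d : ℝ) + 1 ≠ 0 := by positivity
      field_simp
      ring
    · rw [if_neg hq, h.sic q hq, add_zero]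
  rw [sum_congr rfl (fun q _ => h3 q), sum_add_distrib, ← sum_mul, h2', sum_ite_eq' univ,
    if_pos (mem_univ _)]
  ring

/-- `|tr W|^2` is the number of fixed points of the linear part -/
theorem card_K (h : Core P W) : (h.K.card : ℝ) = ‖trace W‖ ^ 2 := by
  have h1 := h.sum_norm
  rw [h.sum_norm2] at h1
  have hd : (0 : ℝ) < d := by exact_mod_cast (NeZero.pos d)
  have h2 : (d : ℝ) + 1 ≠ 0 := by positivity
  field_simp at h1
  have h3 : (d : ℝ) * (h.K.card : ℝ) = d * ‖trace W‖ ^ 2 := by linarith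
  exact mul_left_cancel₀ hd.ne' h3

theorem F_zero (h : Core P W) : h.F 0 = 0 := by
  by_contra hne
  have h1 := h.cF 0
  rw [DD_zero, mul_one, h.WW] at h1
  have h2 := congrArg trace h1
  rw [trace_one, trace_smul, trace_DD, if_neg hne, smul_zero, ZMod.card] at h2
  exact dne h2

theorem one_le_card (h : Core P W) : 1 ≤ h.K.card := by
  classical
  apply Finset.card_pos.mpr
  exact ⟨0, mem_filter.mpr ⟨mem_univ _, h.F_zero⟩⟩

theorem trW_ne (h : Core P W) : trace W ≠ 0 := by
  intro h0
  have h1 := h.card_K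
  rw [h0, norm_zero] at h1
  have h2 : h.K.card = 0 := by
    have : (h.K.card : ℝ) = 0 := by rw [h1]; norm_num
    exact_mod_cast this
  have := h.one_le_card
  omega

theorem DD_indep {p q : PP d} {c : ℂ} (h : DD p = c • DD q) : q = p := by
  by_contra hne
  obtain ⟨e, _, h1⟩ := DD_mul_star_DD p q
  have h2 : DD p * star (DD p) = (c * e) • DD (q - p) := by
    conv_lhs => rw [h]
    rw [smul_mul_assoc, ← h, h1, smul_smul]
  rw [DD_mul_star] at h2
  have h3 := congrArg trace h2
  rw [trace_one, trace_smul, trace_DD, if_neg (fun h => hne (sub_eq_zero.mp h)), smul_zero,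
    ZMod.card] at h3
  exact dne h3

/-- fixed points of the linear part are the displacement operators commuting with `W` -/
theorem fix_iff (h : Core P W) (p : PP d) : h.F p = p ↔ W * DD p = DD p * W := by
  constructor
  · intro hp
    have h1 := h.cF p
    rw [hp] at h1
    have h2 : W * DD p = h.c p • (DD p * W) := by
      have h3 : W * DD p = (W * DD p * W) * W := by rw [mul_assoc (W * DD p), h.WW, mul_one]
      rw [h3, h1, smul_mul_assoc]
    have h4 : trace W = h.c p * trace W := by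
      have h5 : trace (W * DD p * star (DD p)) = trace W := by
        rw [mul_assoc, DD_mul_star, mul_one]
      rw [h2, smul_mul_assoc, trace_smul, smul_eq_mul, trace_mul_comm, ← mul_assoc, star_DD_mul,
        one_mul] at h5
      exact h5.symm
    have h6 : h.c p = 1 := by
      have h7 : (h.c p - 1) * trace W = 0 := by rw [sub_mul, ← h4]; ring
      rcases mul_eq_zero.mp h7 with h8 | h8
      · exact sub_eq_zero.mp h8
      · exact absurd h8 h.trW_ne
    rw [h2, h6, one_smul]
  · intro hp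
    have h1 := h.cF p
    rw [hp, mul_assoc, h.WW, mul_one] at h1
    exact DD_indep h1

theorem gg_fix (h : Core P W) {p : PP d} (hp : h.F p = p) : gg P W p = 1 := by
  rw [gg, ← (h.fix_iff p).mp hp, mul_assoc, DD_mul_star, mul_one, h.PW, h.tr]

theorem star_gg (h : Core P W) (p : PP d) : star (gg P W p) = gg P W p := by
  rw [gg, ← trace_conjTranspose, ← star_eq_conjTranspose]
  simp only [star_mul, star_star, h.sW, h.herm]
  rw [trace_mul_comm, ← mul_assoc, ← mul_assoc]
  congr 1
  simp only [mul_assoc]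

theorem gg_real (h : Core P W) (p : PP d) : gg P W p = ((gg P W p).re : ℂ) := by
  exact (Complex.conj_eq_iff_re.mp (h.star_gg p)).symm

theorem trW_real (h : Core P W) : trace W = ((trace W).re : ℂ) := by
  apply (Complex.conj_eq_iff_re.mp _).symm
  have h1 := trace_conjTranspose W
  rw [← star_eq_conjTranspose, h.sW] at h1
  exact h1.symm

theorem card_lt (h : Core P W) (hW : ∀ c : ℂ, W ≠ c • 1) : h.K.card < d ^ 2 := by
  classical
  rcases lt_or_ge h.K.card (d ^ 2) with h1 | h1
  · exact h1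
  · exfalso
    have h2 : h.K = univ := by
      apply eq_univ_of_card
      rw [Fintype.card_prod, ZMod.card, ← sq]
      apply le_antisymm _ h1
      have := card_le_univ h.K
      rwa [Fintype.card_prod, ZMod.card, ← sq] at this
    have h3 : ∀ p : PP d, DD p * W * star (DD p) = W := by
      intro p
      have h4 : p ∈ h.K := by rw [h2]; exact mem_univ _
      have h5 := (h.fix_iff p).mp (mem_filter.mp h4).2
      rw [← h5, mul_assoc, DD_mul_star, mul_one]
    have h6 := twirl W
    rw [sum_congr rfl (fun p _ => h3 p), sum_const, card_univ, Fintype.card_prod, ZMod.card,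
      ← Nat.cast_smul_eq_nsmul ℂ] at h6
    have hd2 : ((d * d : ℕ) : ℂ) ≠ 0 := by
      push_cast
      exact mul_ne_zero dne dne
    refine hW (((d * d : ℕ) : ℂ)⁻¹ * ((d : ℂ) * trace W)) ?_
    rw [mul_smul, ← h6, smul_smul, inv_mul_cancel₀ hd2, one_smul]

theorem sum_rest (h : Core P W) : ∃ b : ℤ, |b| ≤ (d : ℤ) ^ 2 - h.K.card ∧
    ((d : ℝ) * (trace W).re - h.K.card) * Real.sqrt (d + 1) = b := by
  classical
  have hsq : (0 : ℝ) < (d : ℝ) + 1 := by positivity
  have hs : Real.sqrt ((d : ℝ) + 1) ^ 2 = d + 1 := Real.sq_sqrt hsq.le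
  have hs0 : 0 < Real.sqrt ((d : ℝ) + 1) := Real.sqrt_pos.mpr hsq
  set N : Finset (PP d) := univ.filter (fun p => ¬ h.F p = p) with hN
  have h1 : ∑ p : PP d, (gg P W p).re = d * (trace W).re := by
    have h2 := sum_gg P W
    rw [h.tr, mul_one] at h2
    have h3 := congrArg Complex.re h2
    rw [Complex.re_sum] at h3
    rw [h3, h.trW_real]
    simp
  have h4 : ∑ p : PP d, (gg P W p).re = h.K.card + ∑ p ∈ N, (gg P W p).re := by
    rw [← sum_filter_add_sum_filter_not univ (fun p => h.F p = p)]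
    congr 1
    rw [sum_congr rfl (g := fun _ => (1 : ℝ)) (fun p hp => by
      rw [h.gg_fix (mem_filter.mp hp).2, Complex.one_re])]
    simp [K]
  have hcard : h.K.card + N.card = d ^ 2 := by
    have h3 := card_filter_add_card_filter_not (s := (univ : Finset (PP d))) (fun p => h.F p = p)
    rw [card_univ, Fintype.card_prod, ZMod.card, ← sq] at h3
    rw [← h3]
    rfl
  let ε : PP d → ℤ := fun p => if 0 ≤ (gg P W p).re then 1 else -1
  have h5 : ∀ p ∈ N, (gg P W p).re * Real.sqrt (d + 1) = ε p := by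
    intro p hp
    have h6 := h.norm_gg p
    rw [if_neg (mem_filter.mp hp).2, h.gg_real p, Complex.norm_real, Real.norm_eq_abs, sq_abs] at h6
    have h7 : ((gg P W p).re * Real.sqrt (d + 1)) ^ 2 = 1 := by
      rw [mul_pow, hs, h6]
      field_simp
    rcases sq_eq_sq_iff_eq_or_eq_neg.mp (h7.trans (one_pow 2).symm) with h8 | h8
    · have h9 : 0 ≤ (gg P W p).re := by
        by_contra hneg
        push Not at hneg
        nlinarith
      simp only [ε, if_pos h9, Int.cast_one, h8]
    · have h9 : ¬ 0 ≤ (gg P W p).re := by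
        intro hpos
        nlinarith
      simp only [ε, if_neg h9, h8]
      norm_num
  refine ⟨∑ p ∈ N, ε p, ?_, ?_⟩
  · calc |∑ p ∈ N, ε p| ≤ ∑ p ∈ N, |ε p| := abs_sum_le_sum_abs _ _
      _ = ∑ p ∈ N, 1 := by
          refine sum_congr rfl fun p _ => ?_
          simp only [ε]
          split_ifs <;> simp
      _ = N.card := by simp
      _ = (d : ℤ) ^ 2 - h.K.card := by
          have : ((h.K.card + N.card : ℕ) : ℤ) = ((d ^ 2 : ℕ) : ℤ) := by rw [hcard]
          push_cast at this
          linarith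
  · rw [← h1, h4, add_sub_cancel_left, sum_mul, sum_congr rfl h5]
    push_cast
    rfl

/-- **core theorem** -/
theorem main (h : Core P W) (hd : 2 ≤ d) (hW : ∀ c : ℂ, W ≠ c • 1) :
    ∃ (s : ℕ) (k : ℤ), d + 1 = s ^ 2 ∧ trace W = k ∧ -((s : ℤ) - 1) ≤ k ∧ k ≤ s + 1 ∧
      k ^ 2 = h.K.card := by
  obtain ⟨b, hb, hx⟩ := h.sum_rest
  have ht : (trace W).re ^ 2 = (h.K.card : ℝ) := by
    rw [h.card_K, h.trW_real, Complex.norm_real, Real.norm_eq_abs, sq_abs]
    simp
  obtain ⟨s, k, h1, h2, h3, h4⟩ := arith d h.K.card (trace W).re b hd ht h.one_le_card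
    (h.card_lt hW) hb hx
  refine ⟨s, k, h1, ?_, h3, h4, ?_⟩
  · rw [h.trW_real, h2]
    push_cast
    rfl
  · rw [h2] at ht
    exact_mod_cast ht

/-- the displacement operators commuting with `W` -/
def grp (sW : star W = W) : AddSubgroup (PP d) where
  carrier := {p | W * DD p = DD p * W}
  zero_mem' := by
    change W * DD 0 = DD 0 * W
    rw [DD_zero, mul_one, one_mul]
  add_mem' := by
    intro p q hp hq
    change W * DD (p + q) = DD (p + q) * W
    change W * DD p = DD p * W at hp
    change W * DD q = DD q * W at hq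
    have h1 : W * (DD p * DD q) = (DD p * DD q) * W := by
      rw [← mul_assoc, hp, mul_assoc, hq, mul_assoc]
    rw [DD_mul, mul_smul_comm, smul_mul_assoc] at h1
    have h2 := congrArg (fun M => (ch (p.2 * q.1))⁻¹ • M) h1
    simpa only [smul_smul, inv_mul_cancel₀ (ch_ne _), one_smul] using h2
  neg_mem' := by
    intro p hp
    change W * DD (-p) = DD (-p) * W
    change W * DD p = DD p * W at hp
    have h1 := congrArg star hp
    rw [star_mul, star_mul, sW, DD_star, mul_smul_comm, smul_mul_assoc] at h1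
    have h2 := congrArg (fun M => (ch (p.1 * p.2))⁻¹ • M) h1
    simp only [smul_smul, inv_mul_cancel₀ (ch_ne _), one_smul] at h2
    exact h2.symm

theorem card_grp (h : Core P W) : Nat.card (grp (d := d) h.sW) = h.K.card := by
  classical
  have h1 : Nat.card (grp (d := d) h.sW) = Nat.card {p : PP d // h.F p = p} := by
    apply Nat.card_congr
    exact Equiv.subtypeEquivRight fun p => (h.fix_iff p).symm
  rw [h1, Nat.card_eq_fintype_card, Fintype.card_subtype, K]

theorem dvd (h : Core P W) {k : ℤ} (hk : k ^ 2 = h.K.card) : k ∣ d := by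
  have h1 := AddSubgroup.card_addSubgroup_dvd_card (grp (d := d) h.sW)
  rw [h.card_grp, Nat.card_prod, Nat.card_zmod, ← sq] at h1
  have h2 : k ^ 2 ∣ (d : ℤ) ^ 2 := by
    rw [hk]
    exact_mod_cast h1
  exact (Int.pow_dvd_pow_iff two_ne_zero).mp h2

end Core

end Pool.Agent.Q92.Sic
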