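import Pool.Agent.Q92.Sic.Odd

/-! Two odd primes of different kinds cannot both divide `d/k` (for MP_1c78a5_mp). -/

set_option autoImplicit false

open Finset Matrix

namespace Pool.Agent.Q92.Sic

variable {d : ℕ} [NeZero d]

/-- embedding of the plane over `ZMod q` as the elements of order dividing `q` -/
def iota (d q : ℕ) (v : ZMod q × ZMod q) : PP d :=
  (((d / q : ℕ) : ZMod d) * (v.1.val : ZMod d), ((d / q : ℕ) : ZMod d) * (v.2.val : ZMod d))

theorem div_mul_congr {q : ℕ} (hqd : q ∣ d) {a b : ℕ} (hab : a ≡ b [MOD q]) :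
    ((d / q : ℕ) : ZMod d) * (a : ZMod d) = ((d / q : ℕ) : ZMod d) * (b : ZMod d) := by
  rw [← Nat.cast_mul, ← Nat.cast_mul, ZMod.natCast_eq_natCast_iff]
  have h1 := Nat.ModEq.mul_left' (d / q) hab
  rwa [Nat.div_mul_cancel hqd] at h1

theorem div_mul_cancel' {q : ℕ} (hqd : q ∣ d) {a b : ℕ}
    (hab : ((d / q : ℕ) : ZMod d) * (a : ZMod d) = ((d / q : ℕ) : ZMod d) * (b : ZMod d)) :
    a ≡ b [MOD q] := by
  rw [← Nat.cast_mul, ← Nat.cast_mul, ZMod.natCast_eq_natCast_iff] at hab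
  have h2 : d / q ≠ 0 := (Nat.div_pos (Nat.le_of_dvd (NeZero.pos d) hqd)
    (Nat.pos_of_dvd_of_pos hqd (NeZero.pos d))).ne'
  have h3 : d / q * a ≡ d / q * b [MOD d / q * q] := by
    rwa [Nat.div_mul_cancel hqd]
  exact Nat.ModEq.mul_left_cancel' h2 h3

theorem iota_zero (q : ℕ) : iota d q 0 = 0 := by
  refine Prod.ext ?_ ?_
  · simp [iota]
  · simp [iota]

theorem iota_kill {q : ℕ} (hqd : q ∣ d) (v : ZMod q × ZMod q) : (q : ZMod d) • iota d q v = 0 := by
  have h1 : (q : ZMod d) * ((d / q : ℕ) : ZMod d) = 0 := by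
    rw [← Nat.cast_mul, Nat.mul_div_cancel' hqd, ZMod.natCast_self]
  refine Prod.ext ?_ ?_
  · simp only [iota, Prod.smul_fst, smul_eq_mul, Prod.fst_zero]
    rw [← mul_assoc, h1, zero_mul]
  · simp only [iota, Prod.smul_snd, smul_eq_mul, Prod.snd_zero]
    rw [← mul_assoc, h1, zero_mul]

theorem iota_inj {q : ℕ} [NeZero q] (hqd : q ∣ d) {v v' : ZMod q × ZMod q}
    (h : iota d q v = iota d q v') : v = v' := by
  have h1 := div_mul_cancel' hqd (congrArg Prod.fst h)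
  have h2 := div_mul_cancel' hqd (congrArg Prod.snd h)
  rw [← ZMod.natCast_eq_natCast_iff, ZMod.natCast_zmod_val, ZMod.natCast_zmod_val] at h1 h2
  exact Prod.ext h1 h2

theorem iota_surj {q : ℕ} [NeZero q] (hqd : q ∣ d) {x : PP d} (hx : (q : ZMod d) • x = 0) :
    ∃ v, iota d q v = x := by
  obtain ⟨w, hw⟩ := exists_div2 hqd (NeZero.pos q) hx
  refine ⟨((w.1.val : ZMod q), (w.2.val : ZMod q)), ?_⟩
  rw [hw]
  refine Prod.ext ?_ ?_
  · simp only [iota, Prod.smul_fst, smul_eq_mul]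
    rw [ZMod.val_natCast, div_mul_congr hqd (Nat.mod_modEq _ _), ZMod.natCast_zmod_val]
  · simp only [iota, Prod.smul_snd, smul_eq_mul]
    rw [ZMod.val_natCast, div_mul_congr hqd (Nat.mod_modEq _ _), ZMod.natCast_zmod_val]

theorem sum_coset {q : ℕ} [NeZero q] (hqd : q ∣ d) (f : PP d → ℤ) (p0 : PP d) :
    ∑ p : PP d, (if q • p = q • p0 then f p else 0) = ∑ v, f (p0 + iota d q v) := by
  classical
  rw [← sum_filter]
  symm
  refine sum_bij (fun v _ => p0 + iota d q v) ?_ ?_ ?_ ?_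
  · intro v _
    rw [mem_filter]
    refine ⟨mem_univ _, ?_⟩
    rw [smul_add, ← Nat.cast_smul_eq_nsmul (ZMod d) q (iota d q v), iota_kill hqd, add_zero]
  · intro v _ v' _ hv
    exact iota_inj hqd (add_left_cancel hv)
  · intro p hp
    have h1 := (mem_filter.mp hp).2
    have h2 : (q : ZMod d) • (p - p0) = 0 := by
      rw [Nat.cast_smul_eq_nsmul, smul_sub, h1, sub_self]
    obtain ⟨v, hv⟩ := iota_surj hqd h2
    exact ⟨v, mem_univ _, by rw [hv]; abel⟩
  · intro v _; rfl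

theorem exists_unit {q : ℕ} (hq : q.Prime) (hqd : q ∣ d) (t : ZMod q) (ht : t ≠ 0) :
    ∃ T : ℕ, Nat.Coprime T d ∧ (∀ v, (T : ZMod d) • iota d q v = iota d q (t • v)) ∧
      ∀ q' : ℕ, q'.Prime → q' ∣ d → q' ≠ q → ∀ v', (T : ZMod d) • iota d q' v' = iota d q' v' := by
  have : NeZero q := ⟨hq.ne_zero⟩
  obtain ⟨e, m, hm, hde⟩ := Nat.exists_eq_pow_mul_and_not_dvd (NeZero.ne d) q hq.ne_one
  have he : e ≠ 0 := by
    rintro rfl
    rw [pow_zero, one_mul] at hde
    exact hm (hde ▸ hqd)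
  have hcop : Nat.Coprime (q ^ e) m := (Nat.Prime.coprime_pow_of_not_dvd hq hm).symm
  obtain ⟨T, hT1, hT2⟩ := Nat.chineseRemainder hcop t.val 1
  have hTq : T ≡ t.val [MOD q] := hT1.of_dvd (dvd_pow_self q he)
  have htq : ¬ q ∣ t.val := by
    intro hdiv
    have h1 := Nat.le_of_dvd (Nat.pos_of_ne_zero ((ZMod.val_ne_zero t).mpr ht)) hdiv
    exact absurd (ZMod.val_lt t) (not_lt.mpr h1)
  refine ⟨T, ?_, ?_, ?_⟩
  · rw [hde]
    apply Nat.Coprime.mul_right
    · apply Nat.Coprime.pow_right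
      rw [Nat.coprime_comm, Nat.Prime.coprime_iff_not_dvd hq]
      intro hdiv
      exact htq ((Nat.modEq_zero_iff_dvd.mp (hTq.symm.trans (Nat.modEq_zero_iff_dvd.mpr hdiv))))
    · have h1 := hT2.gcd_eq
      rw [Nat.gcd_one_left] at h1
      exact h1
  · intro v
    refine Prod.ext ?_ ?_
    · simp only [iota, Prod.smul_fst, smul_eq_mul]
      rw [← mul_assoc, mul_comm (T : ZMod d), mul_assoc, ← Nat.cast_mul]
      apply div_mul_congr hqd
      rw [ZMod.val_mul]
      exact (hTq.mul_right _).trans (Nat.mod_modEq _ _).symm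
    · simp only [iota, Prod.smul_snd, smul_eq_mul]
      rw [← mul_assoc, mul_comm (T : ZMod d), mul_assoc, ← Nat.cast_mul]
      apply div_mul_congr hqd
      rw [ZMod.val_mul]
      exact (hTq.mul_right _).trans (Nat.mod_modEq _ _).symm
  · intro q' hq' hqd' hne v'
    have h1 : q' ∣ m := by
      rw [hde] at hqd'
      rcases (Nat.Prime.dvd_mul hq').mp hqd' with h2 | h2
      · exact absurd ((Nat.prime_dvd_prime_iff_eq hq' hq).mp (hq'.dvd_of_dvd_pow h2)) hne
      · exact h2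
    have h2 : T ≡ 1 [MOD q'] := hT2.of_dvd h1
    refine Prod.ext ?_ ?_
    · simp only [iota, Prod.smul_fst, smul_eq_mul]
      rw [← mul_assoc, mul_comm (T : ZMod d), mul_assoc, ← Nat.cast_mul]
      apply div_mul_congr hqd'
      have h3 := h2.mul_right v'.1.val
      rwa [one_mul] at h3
    · simp only [iota, Prod.smul_snd, smul_eq_mul]
      rw [← mul_assoc, mul_comm (T : ZMod d), mul_assoc, ← Nat.cast_mul]
      apply div_mul_congr hqd'
      have h3 := h2.mul_right v'.2.val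
      rwa [one_mul] at h3

namespace Core

variable {P W : Matrix (ZMod d) (ZMod d) ℂ}

theorem coset_dvd (h : Core P W) {s : ℕ} (hs : d + 1 = s ^ 2) {k : ℤ} (hk : trace W = k)
    (hk2 : k ^ 2 = h.K.card) {q : ℕ} [hq : Fact q.Prime] (hqd : q ∣ d) (p0 : PP d) :
    (q : ℤ) ∣ ∑ v, h.G s (p0 + iota d q v) := by
  rw [← sum_coset hqd]
  refine frob (h.G s) q (fun r => ?_) _
  have e : ∑ p : PP d, h.G s p * h.G s (r - p) = ∑ p : PP d, h.G s p * h.G s (p + -r) := by
    refine sum_congr rfl fun p _ => ?_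
    rw [← h.G_neg hs (r - p)]
    congr 2
    abel
  have hqZ : (q : ℤ) ∣ (d : ℤ) := by exact_mod_cast hqd
  rw [e]
  by_cases hr : h.F (-r) = -r
  · rw [h.G_auto' hs hk2 hr]
    exact dvd_add (hqZ.mul_right _) (hqZ.trans (dvd_pow_self _ two_ne_zero))
  · rw [h.G_auto hs hk hr]
    exact hqZ.mul_right _

/-- the sum over lines -/
theorem line_dvd (h : Core P W) {s : ℕ} (hs : d + 1 = s ^ 2) {k : ℤ} (hk : trace W = k)
    (hk2 : k ^ 2 = h.K.card) {q : ℕ} [hq : Fact q.Prime] (hqd : q ∣ d) (p0 : PP d)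
    (hp0 : ∀ T : ℕ, (∀ q' : ℕ, q'.Prime → q' ∣ d → q' ≠ q → ∀ v', (T : ZMod d) • iota d q' v' =
      iota d q' v') → (T : ZMod d) • p0 = p0) :
    (q : ℤ) ∣ ∑ o, h.G s (p0 + iota d q (rep q o)) - h.G s p0 := by
  have h1 := h.coset_dvd hs hk hk2 hqd p0
  have h2 := sum_lines q (fun v => h.G s (p0 + iota d q v)) (by
    intro t v ht
    obtain ⟨T, hT1, hT2, hT3⟩ := exists_unit hq.out hqd t ht
    have h3 : p0 + iota d q (t • v) = (T : ZMod d) • (p0 + iota d q v) := by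
      rw [smul_add, hp0 T hT3, hT2]
    change h.G s (p0 + iota d q (t • v)) = h.G s (p0 + iota d q v)
    rw [h3, h.G_unit hs hk hk2 T hT1])
  rw [h2, iota_zero, add_zero] at h1
  have h4 : ∑ o, h.G s (p0 + iota d q (rep q o)) - h.G s p0 =
      (q : ℤ) * ∑ o, h.G s (p0 + iota d q (rep q o)) -
      (h.G s p0 + ((q : ℤ) - 1) * ∑ o, h.G s (p0 + iota d q (rep q o))) := by ring
  rw [h4]
  exact dvd_sub (Dvd.intro _ rfl) h1

theorem no_mix (h : Core P W) {s : ℕ} (hs : d + 1 = s ^ 2) {k : ℤ} (hk : trace W = k)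
    (hk2 : k ^ 2 = h.K.card) {n : ℕ} (hn : n * k.natAbs = d) {q1 q2 : ℕ} (hq1 : q1.Prime)
    (hq2 : q2.Prime) (ho1 : Odd q1) (ho2 : Odd q2) (hn1 : q1 ∣ n) (hn2 : q2 ∣ n)
    (hs1 : (q1 : ℤ) ∣ s - 1) (hs2 : (q2 : ℤ) ∣ s + 1) : False := by
  classical
  have f1 : Fact q1.Prime := ⟨hq1⟩
  have f2 : Fact q2.Prime := ⟨hq2⟩
  have g1 : Fact (1 < q1) := ⟨hq1.one_lt⟩
  have g2 : Fact (1 < q2) := ⟨hq2.one_lt⟩
  have hqd1 : q1 ∣ d := hn1.trans ⟨_, hn.symm⟩
  have hqd2 : q2 ∣ d := hn2.trans ⟨_, hn.symm⟩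
  have h31 : 3 ≤ q1 := by
    have := hq1.two_le
    obtain ⟨x, hx⟩ := ho1
    omega
  have h32 : 3 ≤ q2 := by
    have := hq2.two_le
    obtain ⟨x, hx⟩ := ho2
    omega
  have hne : q1 ≠ q2 := by
    rintro rfl
    have h1 : (q1 : ℤ) ∣ 2 := by
      have := dvd_sub hs2 hs1
      have e : ((s : ℤ) + 1) - (s - 1) = 2 := by ring
      rwa [e] at this
    have := Int.le_of_dvd (by norm_num) h1
    omega
  -- values
  have fix1 : ∀ o : Option (ZMod q1), h.F (iota d q1 (rep q1 o)) ≠ iota d q1 (rep q1 o) := by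
    intro o hF
    have h1 := h.fix_zero hk2 hn hq1 ho1 hn1 (iota_kill hqd1 _) hF
    rw [← iota_zero (d := d) q1] at h1
    exact rep_ne q1 o (iota_inj hqd1 h1)
  have fix2 : ∀ o : Option (ZMod q2), h.F (iota d q2 (rep q2 o)) ≠ iota d q2 (rep q2 o) := by
    intro o hF
    have h1 := h.fix_zero hk2 hn hq2 ho2 hn2 (iota_kill hqd2 _) hF
    rw [← iota_zero (d := d) q2] at h1
    exact rep_ne q2 o (iota_inj hqd2 h1)
  have fix12 : ∀ (o1 : Option (ZMod q1)) (o2 : Option (ZMod q2)),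
      h.F (iota d q1 (rep q1 o1) + iota d q2 (rep q2 o2)) ≠
        iota d q1 (rep q1 o1) + iota d q2 (rep q2 o2) := by
    intro o1 o2 hF
    have h1 := h.F_smul (q2 : ZMod d) (iota d q1 (rep q1 o1) + iota d q2 (rep q2 o2))
    rw [hF, smul_add, iota_kill hqd2, add_zero] at h1
    have h2 : (q1 : ZMod d) • ((q2 : ZMod d) • iota d q1 (rep q1 o1)) = 0 := by
      rw [smul_comm, iota_kill hqd1, smul_zero]
    have h3 := h.fix_zero hk2 hn hq1 ho1 hn1 h2 h1
    -- q1 and q2 kill it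
    have h4 : iota d q1 (rep q1 o1) = 0 := by
      have hc : Nat.Coprime q1 q2 := (Nat.coprime_primes hq1 hq2).mpr hne
      have h5 := Nat.gcd_eq_gcd_ab q1 q2
      rw [hc] at h5
      have h6 : ((1 : ℤ) : ZMod d) = (q1 : ZMod d) * ((q1.gcdA q2 : ℤ) : ZMod d) +
          (q2 : ZMod d) * ((q1.gcdB q2 : ℤ) : ZMod d) := by
        have := congrArg (fun z : ℤ => (z : ZMod d)) h5
        push_cast at this ⊢
        exact this
      have h7 : iota d q1 (rep q1 o1) = ((1 : ℤ) : ZMod d) • iota d q1 (rep q1 o1) := by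
        rw [Int.cast_one, one_smul]
      rw [h7, h6, add_smul, mul_comm (q1 : ZMod d), mul_comm (q2 : ZMod d), mul_smul, mul_smul,
        iota_kill hqd1, h3, smul_zero, smul_zero, add_zero]
    rw [← iota_zero (d := d) q1] at h4
    exact rep_ne q1 o1 (iota_inj hqd1 h4)
  have G0 : h.G s 0 = s := h.G_fix s h.F_zero
  have D1 : ∀ o1 : Option (ZMod q1), (q2 : ℤ) ∣
      ∑ o2, h.G s (iota d q1 (rep q1 o1) + iota d q2 (rep q2 o2)) -
        h.G s (iota d q1 (rep q1 o1)) := by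
    intro o1
    exact h.line_dvd hs hk hk2 hqd2 _ (fun T hT => hT q1 hq1 hqd1 hne _)
  have D2 : ∀ o2 : Option (ZMod q2), (q1 : ℤ) ∣
      ∑ o1, h.G s (iota d q1 (rep q1 o1) + iota d q2 (rep q2 o2)) -
        h.G s (iota d q2 (rep q2 o2)) := by
    intro o2
    have := h.line_dvd hs hk hk2 hqd1 (iota d q2 (rep q2 o2))
      (fun T hT => hT q2 hq2 hqd2 hne.symm _)
    rw [sum_congr rfl (fun o1 _ => by rw [add_comm])] at this
    exact this
  have D3 : (q1 : ℤ) ∣ ∑ o1, h.G s (iota d q1 (rep q1 o1)) - 1 := by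
    have := h.line_dvd hs hk hk2 hqd1 0 (fun T _ => smul_zero _)
    rw [G0] at this
    simp only [zero_add] at this
    have e : ∑ o1, h.G s (iota d q1 (rep q1 o1)) - 1 =
        (∑ o1, h.G s (iota d q1 (rep q1 o1)) - s) + (s - 1) := by ring
    rw [e]
    exact dvd_add this hs1
  have D4 : (q2 : ℤ) ∣ ∑ o2, h.G s (iota d q2 (rep q2 o2)) + 1 := by
    have := h.line_dvd hs hk hk2 hqd2 0 (fun T _ => smul_zero _)
    rw [G0] at this
    simp only [zero_add] at this
    have e : ∑ o2, h.G s (iota d q2 (rep q2 o2)) + 1 =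
        (∑ o2, h.G s (iota d q2 (rep q2 o2)) - s) + (s + 1) := by ring
    rw [e]
    exact dvd_add this hs2
  have c1 : Fintype.card (Option (ZMod q1)) = q1 + 1 := by rw [Fintype.card_option, ZMod.card]
  have c2 : Fintype.card (Option (ZMod q2)) = q2 + 1 := by rw [Fintype.card_option, ZMod.card]
  rcases Nat.lt_or_ge q2 5 with h5 | h5
  · have h51 : 5 ≤ q1 := by
      obtain ⟨x, hx⟩ := ho1
      obtain ⟨y, hy⟩ := ho2
      omega
    refine grid q2 q1 c2 c1 h32 h51 ho2 ho1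
      (fun o2 o1 => -h.G s (iota d q1 (rep q1 o1) + iota d q2 (rep q2 o2)))
      (fun o2 o1 => ?_) (fun o2 => -h.G s (iota d q2 (rep q2 o2))) (fun o2 => ?_)
      (fun o1 => -h.G s (iota d q1 (rep q1 o1))) (fun o1 => ?_) (fun o2 => ?_) (fun o1 => ?_) ?_ ?_
    · rcases h.G_cases s (fix12 o1 o2) with h1 | h1
      · right; rw [h1]
      · left; rw [h1]; norm_num
    · rcases h.G_cases s (fix2 o2) with h1 | h1
      · right; rw [h1]
      · left; rw [h1]; norm_num
    · rcases h.G_cases s (fix1 o1) with h1 | h1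
      · right; rw [h1]
      · left; rw [h1]; norm_num
    · have := D2 o2
      rw [← dvd_neg] at this
      rw [sum_neg_distrib]
      have e : -(∑ o1, h.G s (iota d q1 (rep q1 o1) + iota d q2 (rep q2 o2)) -
        h.G s (iota d q2 (rep q2 o2))) = -∑ o1, h.G s (iota d q1 (rep q1 o1) +
          iota d q2 (rep q2 o2)) - -h.G s (iota d q2 (rep q2 o2)) := by ring
      rwa [e] at this
    · have := D1 o1
      rw [← dvd_neg] at this
      rw [sum_neg_distrib]
      have e : -(∑ o2, h.G s (iota d q1 (rep q1 o1) + iota d q2 (rep q2 o2)) -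
        h.G s (iota d q1 (rep q1 o1))) = -∑ o2, h.G s (iota d q1 (rep q1 o1) +
          iota d q2 (rep q2 o2)) - -h.G s (iota d q1 (rep q1 o1)) := by ring
      rwa [e] at this
    · have := D4
      rw [← dvd_neg] at this
      rw [sum_neg_distrib]
      have e : -(∑ o2, h.G s (iota d q2 (rep q2 o2)) + 1) =
        -∑ o2, h.G s (iota d q2 (rep q2 o2)) - 1 := by ring
      rwa [e] at this
    · have := D3
      rw [← dvd_neg] at this
      rw [sum_neg_distrib]
      have e : -(∑ o1, h.G s (iota d q1 (rep q1 o1)) - 1) =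
        -∑ o1, h.G s (iota d q1 (rep q1 o1)) + 1 := by ring
      rwa [e] at this
  · exact grid q1 q2 c1 c2 h31 h5 ho1 ho2
      (fun o1 o2 => h.G s (iota d q1 (rep q1 o1) + iota d q2 (rep q2 o2)))
      (fun o1 o2 => h.G_cases s (fix12 o1 o2)) (fun o1 => h.G s (iota d q1 (rep q1 o1)))
      (fun o1 => h.G_cases s (fix1 o1)) (fun o2 => h.G s (iota d q2 (rep q2 o2)))
      (fun o2 => h.G_cases s (fix2 o2)) D1 D2 D3 D4

end Core

end Pool.Agent.Q92.Sic
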