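import Pool.Agent.Q92.Sic.Frob
import Pool.Agent.Q92.Sic.Grid

/-! The linear part of an involutive Clifford symmetry (for MP_1c78a5_mp). -/

set_option autoImplicit false

open Finset Matrix

namespace Pool.Agent.Q92.Sic

variable {d : ℕ} [NeZero d]

theorem exists_div {q : ℕ} (hqd : q ∣ d) (hq : 0 < q) {x : ZMod d} (hx : (q : ZMod d) * x = 0) :
    ∃ w : ZMod d, x = ((d / q : ℕ) : ZMod d) * w := by
  have h1 : ((q * x.val : ℕ) : ZMod d) = 0 := by
    push_cast
    rw [ZMod.natCast_zmod_val, hx]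
  rw [ZMod.natCast_eq_zero_iff] at h1
  obtain ⟨m, hm⟩ := hqd
  have hm' : d / q = m := by
    conv_lhs => rw [hm]
    exact Nat.mul_div_cancel_left m hq
  have h2 : d / q ∣ x.val := by
    rw [hm']
    have h3 : q * m ∣ q * x.val := (dvd_of_eq hm.symm).trans h1
    exact (Nat.mul_dvd_mul_iff_left hq).mp h3
  obtain ⟨w, hw⟩ := h2
  refine ⟨(w : ZMod d), ?_⟩
  rw [← Nat.cast_mul, ← hw, ZMod.natCast_zmod_val]

theorem exists_div2 {q : ℕ} (hqd : q ∣ d) (hq : 0 < q) {x : PP d} (hx : (q : ZMod d) • x = 0) :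
    ∃ w : PP d, x = ((d / q : ℕ) : ZMod d) • w := by
  obtain ⟨w1, h1⟩ := exists_div hqd hq (x := x.1) (congrArg Prod.fst hx)
  obtain ⟨w2, h2⟩ := exists_div hqd hq (x := x.2) (congrArg Prod.snd hx)
  exact ⟨(w1, w2), Prod.ext h1 h2⟩

theorem not_dvd_of {q : ℕ} (hqd : q ∣ d) {x : ZMod d} (hx : ((d / q : ℕ) : ZMod d) * x ≠ 0) :
    ¬ q ∣ x.val := by
  rintro ⟨m, hm⟩
  apply hx
  rw [← ZMod.natCast_zmod_val x, hm, ← Nat.cast_mul, ← mul_assoc, Nat.div_mul_cancel hqd]
  push_cast
  simp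

theorem four_mul {q : ℕ} (hq : q.Prime) (ho : Odd q) (hqd : q ∣ d) {x y : ZMod d}
    (hx : ¬ q ∣ x.val) (hy : ¬ q ∣ y.val) : 4 * x * y ≠ 0 := by
  intro h
  have h1 : ((4 * x.val * y.val : ℕ) : ZMod d) = 0 := by
    push_cast
    rw [ZMod.natCast_zmod_val, ZMod.natCast_zmod_val, h]
  rw [ZMod.natCast_eq_zero_iff] at h1
  have h2 := hqd.trans h1
  rcases (Nat.Prime.dvd_mul hq).mp h2 with h3 | h3
  · rcases (Nat.Prime.dvd_mul hq).mp h3 with h4 | h4
    · have h5 : q ∣ 2 := by
        have : q ∣ 2 ^ 2 := by simpa using h4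
        exact hq.dvd_of_dvd_pow this
      have := (Nat.prime_dvd_prime_iff_eq hq Nat.prime_two).mp h5
      rw [this] at ho
      exact absurd ho (by decide)
    · exact hx h4
  · exact hy h3

namespace Core

variable {P W : Matrix (ZMod d) (ZMod d) ℂ}

/-- the linear part as a homomorphism -/
noncomputable def FF (h : Core P W) : PP d →+ PP d where
  toFun := h.F
  map_zero' := h.F_zero
  map_add' := h.F_add

theorem F_neg (h : Core P W) (p : PP d) : h.F (-p) = -h.F p := map_neg h.FF p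

theorem F_smul (h : Core P W) (t : ZMod d) (p : PP d) : h.F (t • p) = t • h.F p := by
  have h1 : ∀ (n : ℕ) (x : PP d), (n : ZMod d) • x = n • x := by
    intro n x
    exact Nat.cast_smul_eq_nsmul _ n x
  rw [← ZMod.natCast_zmod_val t, h1, h1]
  exact map_nsmul h.FF _ _

theorem sf_F (h : Core P W) (p q : PP d) : sf (h.F p) (h.F q) = sf p q := by
  have hc : ∀ x, h.c x ≠ 0 := fun x hx => by
    have := h.norm_c x
    rw [hx, norm_zero] at this
    exact zero_ne_one this
  have e : ∀ x y : PP d, W * (DD x * DD y) * W = (h.c x * h.c y) • (DD (h.F x) * DD (h.F y)) := by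
    intro x y
    have h1 : W * (DD x * DD y) * W = (W * DD x * W) * (W * DD y * W) := by
      calc W * (DD x * DD y) * W = W * DD x * (1 * DD y * W) := by
            rw [one_mul]; simp only [mul_assoc]
        _ = (W * DD x * W) * (W * DD y * W) := by rw [← h.WW]; simp only [mul_assoc]
    rw [h1, h.cF, h.cF, smul_mul_smul_comm]
  have h1 := e p q
  rw [DD_comm p q, mul_smul_comm, smul_mul_assoc, e q p, DD_comm (h.F p) (h.F q), smul_smul,
    smul_smul, DD_mul, smul_smul, smul_smul] at h1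
  have h2 : DD (h.F q + h.F p) * star (DD (h.F q + h.F p)) = 1 := DD_mul_star _
  have h3 := congrArg (fun M => M * star (DD (h.F q + h.F p))) h1
  simp only [smul_mul_assoc, h2] at h3
  have h4 : (ch (sf p q) * (h.c q * h.c p) * ch ((h.F q).2 * (h.F p).1) -
      h.c p * h.c q * ch (sf (h.F p) (h.F q)) * ch ((h.F q).2 * (h.F p).1)) •
      (1 : Matrix (ZMod d) (ZMod d) ℂ) = 0 := by
    rw [sub_smul, h3, sub_self]
  have h5 := smul_one_ne h4
  have h6 : (h.c p * h.c q * ch ((h.F q).2 * (h.F p).1)) *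
      (ch (sf p q) - ch (sf (h.F p) (h.F q))) = 0 := by
    rw [← h5]; ring
  rcases mul_eq_zero.mp h6 with h7 | h7
  · exact absurd h7 (mul_ne_zero (mul_ne_zero (hc p) (hc q)) (ch_ne _))
  · exact (ch_inj (sub_eq_zero.mp h7)).symm

/-- if `q` divides `d/k` then `F` has the eigenvalue `-1` on elements of order `q` -/
theorem exists_neg (h : Core P W) {k : ℤ} (hk2 : k ^ 2 = h.K.card) {n : ℕ}
    (hn : n * k.natAbs = d) {q : ℕ} (hq : q.Prime) (hqn : q ∣ n) :
    ∃ b : PP d, (q : ZMod d) • b = 0 ∧ b ≠ 0 ∧ h.F b = -b := by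
  classical
  let φ : PP d →+ PP d := AddMonoidHom.id _ - h.FF
  have hker : Nat.card φ.ker = h.K.card := by
    rw [← h.card_grp]
    apply Nat.card_congr
    refine Equiv.subtypeEquivRight fun p => ?_
    rw [h.F_iff_grp, AddMonoidHom.mem_ker]
    change p - h.F p = 0 ↔ _
    rw [sub_eq_zero, eq_comm]
  have h1 := AddSubgroup.card_mul_index φ.ker
  rw [AddSubgroup.index_ker, hker, Nat.card_prod, Nat.card_zmod] at h1
  have hk3 : h.K.card = k.natAbs ^ 2 := by
    have : ((h.K.card : ℕ) : ℤ) = ((k.natAbs ^ 2 : ℕ) : ℤ) := by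
      rw [← hk2]; push_cast; rw [sq_abs]
    exact_mod_cast this
  have hd0 : 0 < d := NeZero.pos d
  have hk0 : 0 < k.natAbs := by
    rcases Nat.eq_zero_or_pos k.natAbs with h0 | h0
    · rw [h0, mul_zero] at hn; omega
    · exact h0
  have h2 : Nat.card φ.range = n ^ 2 := by
    rw [hk3] at h1
    have h3 : k.natAbs ^ 2 * Nat.card φ.range = k.natAbs ^ 2 * n ^ 2 := by
      rw [h1]
      calc d * d = (n * k.natAbs) * (n * k.natAbs) := by rw [hn]
        _ = k.natAbs ^ 2 * n ^ 2 := by ring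
    exact Nat.eq_of_mul_eq_mul_left (pow_pos hk0 2) h3
  have h3 : q ∣ Nat.card φ.range := by
    rw [h2]; exact Dvd.dvd.pow hqn two_ne_zero
  have : Fact q.Prime := ⟨hq⟩
  obtain ⟨⟨b, hb⟩, hb2⟩ := exists_prime_addOrderOf_dvd_card' q h3
  have hb3 : addOrderOf b = q := by
    rw [← hb2]
    exact (AddSubgroup.addOrderOf_mk b hb).symm
  obtain ⟨x, hx⟩ := hb
  refine ⟨b, ?_, ?_, ?_⟩
  · rw [Nat.cast_smul_eq_nsmul, ← hb3]
    exact addOrderOf_nsmul_eq_zero b
  · rintro rfl
    rw [addOrderOf_zero] at hb3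
    exact hq.one_lt.ne hb3
  · have hx' : x - h.F x = b := hx
    rw [← hx', ← sub_eq_zero]
    have : h.F (x - h.F x) = h.F x - x := by
      rw [sub_eq_add_neg, h.F_add, h.F_neg, h.F_F]; abel
    rw [this]; abel

/-- then the only fixed point of `F` of order dividing `q` is zero -/
theorem fix_zero (h : Core P W) {k : ℤ} (hk2 : k ^ 2 = h.K.card) {n : ℕ}
    (hn : n * k.natAbs = d) {q : ℕ} (hq : q.Prime) (ho : Odd q) (hqn : q ∣ n) {b : PP d}
    (hqb : (q : ZMod d) • b = 0) (hb : h.F b = b) : b = 0 := by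
  by_contra hb0
  obtain ⟨b', hqb', hb0', hb'⟩ := h.exists_neg hk2 hn hq hqn
  have hqd : q ∣ d := hqn.trans ⟨_, hn.symm⟩
  have two : ∀ x : PP d, (q : ZMod d) • x = 0 → (2 : ZMod d) • x = 0 → x = 0 := by
    intro x h1 h2
    obtain ⟨j, hj⟩ := ho
    have h3 : (q : ZMod d) = (j : ZMod d) * 2 + 1 := by rw [hj]; push_cast; ring
    rw [h3, add_smul, mul_smul, h2, smul_zero, one_smul, zero_add] at h1
    exact h1
  obtain ⟨w, hw⟩ := exists_div2 hqd hq.pos hqb
  obtain ⟨w', hw'⟩ := exists_div2 hqd hq.pos hqb'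
  set c : ZMod d := ((d / q : ℕ) : ZMod d) with hc
  set v := w + h.F w with hv
  set v' := w' - h.F w' with hv'
  have hFv : h.F v = v := by rw [hv, h.F_add, h.F_F, add_comm]
  have hFv' : h.F v' = -v' := by
    rw [hv', sub_eq_add_neg, h.F_add, h.F_neg, h.F_F]; abel
  have hcv : c • v ≠ 0 := by
    rw [hv, smul_add, ← h.F_smul, ← hw, hb, ← two_smul (ZMod d)]
    exact fun h0 => hb0 (two b hqb h0)
  have hcv' : c • v' ≠ 0 := by
    rw [hv', smul_sub, ← h.F_smul, ← hw', hb', sub_neg_eq_add, ← two_smul (ZMod d)]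
    exact fun h0 => hb0' (two b' hqb' h0)
  have hsf : 2 * sf v v' = 0 := by
    have h1 := h.sf_F v v'
    rw [hFv, hFv'] at h1
    have h2 : sf v (-v') = -sf v v' := by
      simp only [sf, Prod.fst_neg, Prod.snd_neg]; ring
    rw [h2] at h1
    linear_combination -h1
  have key : ∀ α β : ZMod d, (2 * α) • v = (2 * β) • v' → (4 * α) • v = 0 := by
    intro α β h1
    have h2 := h.F_smul (2 * α) v
    have h3 := h.F_smul (2 * β) v'
    rw [hFv] at h2
    rw [hFv', ← h1, h2, smul_neg, ← h1] at h3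
    have h4 : (2 * α) • v + (2 * α) • v = 0 := by
      nth_rw 1 [h3]
      exact neg_add_cancel _
    rw [← add_smul] at h4
    rw [← h4]
    congr 1
    ring
  have k1 : (4 * v'.1) • v = 0 := by
    refine key v'.1 v.1 (Prod.ext ?_ ?_)
    · simp only [Prod.smul_fst, smul_eq_mul]; ring
    · simp only [Prod.smul_snd, smul_eq_mul]
      simp only [sf] at hsf
      linear_combination hsf
  have k2 : (4 * v'.2) • v = 0 := by
    refine key v'.2 v.2 (Prod.ext ?_ ?_)
    · simp only [Prod.smul_fst, smul_eq_mul]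
      simp only [sf] at hsf
      linear_combination -hsf
    · simp only [Prod.smul_snd, smul_eq_mul]; ring
  have hv1 : ¬ q ∣ v.1.val ∨ ¬ q ∣ v.2.val := by
    by_contra hcon
    push Not at hcon
    apply hcv
    refine Prod.ext ?_ ?_
    · by_contra h0
      exact not_dvd_of hqd h0 hcon.1
    · by_contra h0
      exact not_dvd_of hqd h0 hcon.2
  have hv1' : ¬ q ∣ v'.1.val ∨ ¬ q ∣ v'.2.val := by
    by_contra hcon
    push Not at hcon
    apply hcv'
    refine Prod.ext ?_ ?_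
    · by_contra h0
      exact not_dvd_of hqd h0 hcon.1
    · by_contra h0
      exact not_dvd_of hqd h0 hcon.2
  rcases hv1 with h1 | h1 <;> rcases hv1' with h2 | h2
  · exact four_mul hq ho hqd h2 h1 (congrArg Prod.fst k1)
  · exact four_mul hq ho hqd h2 h1 (congrArg Prod.fst k2)
  · exact four_mul hq ho hqd h2 h1 (congrArg Prod.snd k1)
  · exact four_mul hq ho hqd h2 h1 (congrArg Prod.snd k2)

end Core

end Pool.Agent.Q92.Sic
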