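import Pool.Agent.Q92.Sic.Main

/-! Sign patterns of involutive Clifford symmetries of WH SIC fiducials (for MP_1c78a5_mp). -/

set_option autoImplicit false

open Finset Matrix

namespace Pool.Agent.Q92.Sic

variable {d : ℕ} [NeZero d]

theorem sf_sub_right (p q r : PP d) : sf p (q - r) = sf p q - sf p r := by
  simp only [sf, Prod.fst_sub, Prod.snd_sub]; ring

theorem sf_add_left (p q r : PP d) : sf (p + q) r = sf p r + sf q r := by
  simp only [sf, Prod.fst_add, Prod.snd_add]; ring

theorem sf_neg_left (p r : PP d) : sf (-p) r = - sf p r := by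
  simp only [sf, Prod.fst_neg, Prod.snd_neg]; ring

theorem sum_sf' (r : PP d) : ∑ p : PP d, ch (sf r p) = if r = 0 then (d : ℂ) ^ 2 else 0 := by
  have e : ∀ p : PP d, ch (sf r p) = ch (sf (-p) r) := by
    intro p
    congr 1
    simp only [sf, Prod.fst_neg, Prod.snd_neg]; ring
  rw [sum_congr rfl (fun p _ => e p), ← sum_sf r]
  exact Fintype.sum_equiv (Equiv.neg _) _ _ (fun p => by rw [Equiv.neg_apply])

theorem parseval_shift (P W : Matrix (ZMod d) (ZMod d) ℂ) (r : PP d) :
    ∑ p : PP d, gg P W p * star (gg P W (p + r)) =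
      ∑ q : PP d, (uu W q * star (uu W q)) * (trace (P * DD q) * star (trace (P * DD q))) *
        star (ch (sf r q)) := by
  have hd2 : ((d : ℂ) * d) ≠ 0 := mul_ne_zero dne dne
  apply mul_left_cancel₀ hd2
  rw [mul_sum]
  have e : ∀ p : PP d, (d : ℂ) * d * (gg P W p * star (gg P W (p + r))) =
      ∑ q : PP d, ∑ q' : PP d, (uu W q * trace (P * DD q)) * star (uu W q' * trace (P * DD q')) *
        star (ch (sf r q')) * ch (sf p (q - q')) := by
    intro p
    have h1 : (d : ℂ) * d * (gg P W p * star (gg P W (p + r))) =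
        ((d : ℂ) * gg P W p) * star ((d : ℂ) * gg P W (p + r)) := by
      rw [star_mul', star_natCast]; ring
    rw [h1, gg_eq, gg_eq, star_sum, sum_mul_sum]
    refine sum_congr rfl fun q _ => sum_congr rfl fun q' _ => ?_
    have h2 : ch (sf p (q - q')) = ch (sf p q) * star (ch (sf p q')) := by
      rw [star_ch, ← ch_add, sf_sub_right, sub_eq_add_neg]
    have h3 : star (ch (sf (p + r) q')) = star (ch (sf p q')) * star (ch (sf r q')) := by
      rw [sf_add_left, ch_add, star_mul']
    rw [h2, star_mul' (uu W q' * trace (P * DD q')), h3]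
    ring
  rw [sum_congr rfl (fun p _ => e p), sum_comm]
  rw [mul_sum]
  refine sum_congr rfl fun q _ => ?_
  rw [sum_comm]
  have e2 : ∀ q' : PP d, ∑ p : PP d, (uu W q * trace (P * DD q)) *
      star (uu W q' * trace (P * DD q')) * star (ch (sf r q')) * ch (sf p (q - q')) =
      (uu W q * trace (P * DD q)) * star (uu W q' * trace (P * DD q')) * star (ch (sf r q')) *
        (if q - q' = 0 then (d : ℂ) ^ 2 else 0) := by
    intro q'
    rw [← mul_sum, sum_sf]
  rw [sum_congr rfl (fun q' _ => e2 q'), sum_eq_single q]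
  · rw [if_pos (sub_self q), star_mul']
    ring
  · intro q' _ hq'
    rw [if_neg (fun h => hq' (sub_eq_zero.mp h).symm), mul_zero]
  · intro h; exact absurd (mem_univ _) h

theorem sum_u (W : Matrix (ZMod d) (ZMod d) ℂ) (r : PP d) :
    ∑ q : PP d, (uu W q * star (uu W q)) * star (ch (sf r q)) =
      d * trace (star (DD r * W * star (DD r)) * W) := by
  have h : (d : ℂ) * trace (star (DD r * W * star (DD r)) * W) =
      trace (star (DD r * ((d : ℂ) • W) * star (DD r)) * W) := by
    rw [mul_smul_comm, smul_mul_assoc, star_smul, star_natCast, smul_mul_assoc, trace_smul,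
      smul_eq_mul]
  rw [h, ← expand W, mul_sum, sum_mul, star_sum, sum_mul, trace_sum]
  refine sum_congr rfl fun q _ => ?_
  rw [mul_smul_comm, smul_mul_assoc, conj_DD, star_smul, star_smul, smul_mul_assoc,
    smul_mul_assoc, trace_smul, trace_smul, smul_eq_mul, smul_eq_mul, uu]
  ring

namespace Core

variable {P W : Matrix (ZMod d) (ZMod d) ℂ}

theorem trace_conj (h : Core P W) {r : PP d} (hr : h.F r ≠ r) :
    trace (star (DD r * W * star (DD r)) * W) = 0 := by
  have h1 : star (DD r * W * star (DD r)) = DD r * W * star (DD r) := by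
    rw [star_mul, star_mul, star_star, h.sW, mul_assoc]
  have h2 : DD r * W = W * (W * DD r * W) := by
    rw [← mul_assoc, ← mul_assoc, h.WW, one_mul]
  obtain ⟨e, _, h3⟩ := DD_mul_star_DD r (h.F r)
  rw [h1, h2, h.cF, mul_smul_comm, smul_mul_assoc, smul_mul_assoc, trace_smul]
  rw [show trace (W * DD (h.F r) * star (DD r) * W) = trace (DD (h.F r) * star (DD r)) by
    rw [trace_mul_comm, mul_assoc W, ← mul_assoc W W, h.WW, one_mul]]
  rw [h3, trace_smul, trace_DD, if_neg (fun h4 => hr (sub_eq_zero.mp h4)), smul_zero, smul_zero]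

theorem trace_conj' (h : Core P W) {r : PP d} (hr : h.F r = r) :
    trace (star (DD r * W * star (DD r)) * W) = d := by
  have h1 : DD r * W * star (DD r) = W := by
    rw [← (h.fix_iff r).mp hr, mul_assoc, DD_mul_star, mul_one]
  rw [h1, h.sW, h.WW, trace_one, ZMod.card]

/-- autocorrelation -/
theorem auto (h : Core P W) {r : PP d} (hr : h.F r ≠ r) :
    ∑ p : PP d, gg P W p * star (gg P W (p + r)) =
      ((d : ℂ) / (d + 1)) * (trace W * star (trace W)) := by
  rw [parseval_shift]
  have hd : (d : ℂ) + 1 ≠ 0 := by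
    have : ((d + 1 : ℕ) : ℂ) ≠ 0 := Nat.cast_ne_zero.mpr (by omega)
    push_cast at this
    exact this
  have h3 : ∀ q : PP d, (uu W q * star (uu W q)) * (trace (P * DD q) * star (trace (P * DD q))) *
        star (ch (sf r q)) =
      (1 / ((d : ℂ) + 1)) * ((uu W q * star (uu W q)) * star (ch (sf r q))) +
        (if q = 0 then (d / ((d : ℂ) + 1)) * (trace W * star (trace W)) else 0) := by
    intro q
    by_cases hq : q = 0
    · rw [if_pos hq, hq]
      have h4 : sf r 0 = 0 := by simp [sf]
      rw [DD_zero, mul_one, h.tr, uu, DD_zero, star_one, one_mul, star_one, h4, ch_zero, star_one]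
      field_simp
      ring
    · rw [if_neg hq, add_zero]
      have h5 : trace (P * DD q) * star (trace (P * DD q)) = 1 / ((d : ℂ) + 1) := by
        rw [mul_star', h.sic q hq]
        push_cast
        rfl
      rw [h5]
      ring
  rw [sum_congr rfl (fun q _ => h3 q), sum_add_distrib, ← mul_sum, sum_u, h.trace_conj hr,
    mul_zero, mul_zero, zero_add, sum_ite_eq' univ, if_pos (mem_univ _)]

theorem gg_period (h : Core P W) (p : PP d) {k : PP d} (hk : h.F k = k) :
    gg P W (p + k) = gg P W p := by
  have h1 : DD p * DD k = ch (p.2 * k.1) • DD (p + k) := DD_mul p k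
  have h2 : DD (p + k) = (ch (p.2 * k.1))⁻¹ • (DD p * DD k) := by
    rw [h1, smul_smul, inv_mul_cancel₀ (ch_ne _), one_smul]
  have h3 : (ch (p.2 * k.1))⁻¹ * star ((ch (p.2 * k.1))⁻¹) = 1 := by
    rw [mul_star', norm_inv, norm_ch]
    simp
  have h4 : DD (p + k) * W * star (DD (p + k)) = DD p * W * star (DD p) := by
    rw [h2, star_smul, smul_mul_assoc, smul_mul_assoc, mul_smul_comm, smul_smul, h3, one_smul,
      star_mul]
    calc DD p * DD k * W * (star (DD k) * star (DD p))
        = DD p * (DD k * W) * star (DD k) * star (DD p) := by simp only [mul_assoc]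
      _ = DD p * W * (DD k * star (DD k)) * star (DD p) := by
          rw [← (h.fix_iff k).mp hk]; simp only [mul_assoc]
      _ = DD p * W * star (DD p) := by rw [DD_mul_star, mul_one]
  rw [gg, gg, h4]

theorem F_add (h : Core P W) (p q : PP d) : h.F (p + q) = h.F p + h.F q := by
  have h1 : W * (DD p * DD q) * W = (W * DD p * W) * (W * DD q * W) := by
    calc W * (DD p * DD q) * W = W * DD p * (1 * DD q * W) := by
          rw [one_mul]; simp only [mul_assoc]
      _ = (W * DD p * W) * (W * DD q * W) := by rw [← h.WW]; simp only [mul_assoc]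
  rw [DD_mul, mul_smul_comm, smul_mul_assoc, h.cF, h.cF, h.cF, smul_mul_smul_comm, DD_mul,
    smul_smul, smul_smul] at h1
  have hc : ∀ x, h.c x ≠ 0 := fun x hx => by
    have := h.norm_c x
    rw [hx, norm_zero] at this
    exact zero_ne_one this
  have hne : ch (p.2 * q.1) * h.c (p + q) ≠ 0 := mul_ne_zero (ch_ne _) (hc _)
  have h2 : DD (h.F (p + q)) = ((ch (p.2 * q.1) * h.c (p + q))⁻¹ *
      (h.c p * h.c q * ch ((h.F p).2 * (h.F q).1))) • DD (h.F p + h.F q) := by
    rw [mul_smul, ← h1, smul_smul, inv_mul_cancel₀ hne, one_smul]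
  exact (DD_indep h2).symm

theorem F_F (h : Core P W) (p : PP d) : h.F (h.F p) = p := by
  have h1 : DD p = W * (W * DD p * W) * W := by
    calc DD p = 1 * DD p * 1 := by rw [one_mul, mul_one]
      _ = W * (W * DD p * W) * W := by rw [← h.WW]; simp only [mul_assoc]
  rw [h.cF, mul_smul_comm, smul_mul_assoc, h.cF, smul_smul] at h1
  exact DD_indep h1

theorem gg_F (h : Core P W) (p : PP d) : gg P W (h.F p) = gg P W p := by
  have hc : h.c p * star (h.c p) = 1 := by
    rw [mul_star', h.norm_c, one_pow]
    simp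
  have h1 : DD (h.F p) * W * star (DD (h.F p)) = W * (DD p * W * star (DD p)) * W := by
    have h2 : (W * DD p * W) * W * star (W * DD p * W) = W * (DD p * W * star (DD p)) * W := by
      rw [star_mul, star_mul, h.sW]
      calc W * DD p * W * W * (W * (star (DD p) * W))
          = W * DD p * W * (W * W) * star (DD p) * W := by simp only [mul_assoc]
        _ = W * (DD p * W * star (DD p)) * W := by rw [h.WW, mul_one]; simp only [mul_assoc]
    rw [← h2, h.cF, star_smul, smul_mul_assoc, smul_mul_assoc, mul_smul_comm, smul_smul, hc,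
      one_smul]
  rw [gg, h1, ← mul_assoc, ← mul_assoc, h.PW, trace_mul_comm, ← mul_assoc, h.WP, gg]

theorem gg_neg (h : Core P W) (p : PP d) : gg P W (-p) = gg P W p := by
  have h1 : h.F (p + h.F p) = p + h.F p := by rw [h.F_add, h.F_F, add_comm]
  have h2 := h.gg_period (-p) h1
  rw [neg_add_cancel_left, h.gg_F] at h2
  exact h2.symm

end Core

end Pool.Agent.Q92.Sic
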