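import Pool.Agent.Q92.Sic.Pds

/-! The sign function of an involutive Clifford symmetry and its multipliers (for MP_1c78a5_mp). -/

set_option autoImplicit false

open Finset Matrix

namespace Pool.Agent.Q92.Sic

variable {d : ℕ} [NeZero d]

/-- Fourier transform of an integer function -/
noncomputable def ft (G : PP d → ℤ) (q : PP d) : ℂ := ∑ p : PP d, (G p : ℂ) * ch (sf p q)

/-- the standard primitive root -/
noncomputable def zt (d : ℕ) : ℂ := Complex.exp (2 * Real.pi * Complex.I / d)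

theorem ch_zt (x : ZMod d) : ch x = zt d ^ x.val := by
  rw [ch, ZMod.stdAddChar_apply, ZMod.toCircle_apply, zt, ← Complex.exp_nat_mul]
  congr 1
  ring

theorem zt_prim : IsPrimitiveRoot (zt d) d := Complex.isPrimitiveRoot_exp d (NeZero.ne d)

theorem ch_nat_mul (t : ℕ) (x : ZMod d) : ch ((t : ZMod d) * x) = (zt d ^ t) ^ x.val := by
  induction t with
  | zero => simp [ch_zero]
  | succ n ih =>
    push_cast
    rw [add_mul, one_mul, ch_add, ih, ch_zt x, pow_succ, mul_pow]

theorem sf_smul_right (t : ZMod d) (p q : PP d) : sf p (t • q) = t * sf p q := by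
  simp only [sf, Prod.smul_fst, Prod.smul_snd, smul_eq_mul]; ring

theorem sf_smul_left (t : ZMod d) (p q : PP d) : sf (t • p) q = t * sf p q := by
  simp only [sf, Prod.smul_fst, Prod.smul_snd, smul_eq_mul]; ring

open Polynomial in
/-- Galois invariance: integral Fourier coefficients are invariant under units -/
theorem ft_unit (G : PP d → ℤ) (q : PP d) (c : ℤ) (hc : ft G q = c) (t : ℕ) (ht : Nat.Coprime t d) :
    ft G ((t : ZMod d) • q) = c := by
  classical
  let Q : ℤ[X] := ∑ p : PP d, C (G p) * X ^ (sf p q).val - C c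
  have h1 : aeval (zt d) Q = 0 := by
    simp only [Q, map_sub, map_sum, map_mul, aeval_C, map_pow, aeval_X]
    simp only [algebraMap_int_eq, eq_intCast]
    rw [← hc, ft, sub_eq_zero]
    exact sum_congr rfl fun p _ => by rw [ch_zt]
  have h2 : aeval (zt d ^ t) Q = 0 := by
    have hint : IsIntegral ℤ (zt d) := (zt_prim (d := d)).isIntegral (NeZero.pos d)
    have h3 : minpoly ℤ (zt d) ∣ Q := minpoly.isIntegrallyClosed_dvd hint h1
    have h4 := (zt_prim (d := d)).minpoly_eq_pow_coprime ht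
    obtain ⟨R, hR⟩ := h3
    rw [hR, h4, map_mul, minpoly.aeval, zero_mul]
  simp only [Q, map_sub, map_sum, map_mul, aeval_C, map_pow, aeval_X] at h2
  simp only [algebraMap_int_eq, eq_intCast] at h2
  rw [← sub_eq_zero, ← h2, ft]
  congr 1
  refine sum_congr rfl fun p _ => ?_
  rw [sf_smul_right, ch_nat_mul]

/-- Fourier inversion -/
theorem ft_inv (G : PP d → ℤ) (p : PP d) :
    ∑ q : PP d, ft G q * ch (-sf p q) = (d : ℂ) ^ 2 * G p := by
  have e : ∀ q : PP d, ft G q * ch (-sf p q) = ∑ p' : PP d, (G p' : ℂ) * ch (sf (p' - p) q) := by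
    intro q
    rw [ft, sum_mul]
    refine sum_congr rfl fun p' _ => ?_
    rw [mul_assoc, ← ch_add]
    congr 2
    simp only [sf, Prod.fst_sub, Prod.snd_sub]; ring
  rw [sum_congr rfl (fun q _ => e q), sum_comm]
  have e2 : ∀ p' : PP d, ∑ q : PP d, (G p' : ℂ) * ch (sf (p' - p) q) =
      (G p' : ℂ) * (if p' - p = 0 then (d : ℂ) ^ 2 else 0) := by
    intro p'
    rw [← mul_sum, sum_sf']
  rw [sum_congr rfl (fun p' _ => e2 p'), sum_eq_single p]
  · rw [if_pos (sub_self p)]; ring
  · intro p' _ hp'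
    rw [if_neg (fun h => hp' (sub_eq_zero.mp h)), mul_zero]
  · intro h; exact absurd (mem_univ _) h

/-- a function with integral Fourier coefficients is invariant under units -/
theorem unit_inv (G : PP d → ℤ) (hG : ∀ q, ∃ c : ℤ, ft G q = c) (t : ℕ) (ht : Nat.Coprime t d)
    (p : PP d) : G ((t : ZMod d) • p) = G p := by
  have hu : IsUnit (t : ZMod d) := (ZMod.isUnit_iff_coprime t d).mpr ht
  obtain ⟨u, hu⟩ := hu
  have hd2 : (d : ℂ) ^ 2 ≠ 0 := pow_ne_zero 2 dne
  have h1 : (d : ℂ) ^ 2 * G ((t : ZMod d) • p) = (d : ℂ) ^ 2 * G p := by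
    rw [← ft_inv, ← ft_inv]
    have hft : ∀ q, ft G ((t : ZMod d) • q) = ft G q := by
      intro q
      obtain ⟨c, hc⟩ := hG q
      rw [ft_unit G q c hc t ht, hc]
    let e : PP d ≃ PP d :=
      { toFun := fun q => (t : ZMod d) • q
        invFun := fun q => ((u⁻¹ : (ZMod d)ˣ) : ZMod d) • q
        left_inv := fun q => by
          simp only
          rw [smul_smul, ← hu, Units.inv_mul, one_smul]
        right_inv := fun q => by
          simp only
          rw [smul_smul, ← hu, Units.mul_inv, one_smul] }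
    rw [← e.sum_comp (fun q => ft G q * ch (-sf p q))]
    refine sum_congr rfl fun q _ => ?_
    change ft G q * ch (-sf ((t : ZMod d) • p) q) = ft G ((t : ZMod d) • q) * ch (-sf p ((t : ZMod d) • q))
    rw [hft, sf_smul_left, sf_smul_right]
  have h2 := mul_left_cancel₀ hd2 h1
  exact_mod_cast h2

namespace Core

variable {P W : Matrix (ZMod d) (ZMod d) ℂ}

open Classical in
/-- the sign function -/
noncomputable def G (h : Core P W) (s : ℕ) (p : PP d) : ℤ :=
  if h.F p = p then s else if 0 ≤ (gg P W p).re then 1 else -1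

theorem G_fix (h : Core P W) (s : ℕ) {p : PP d} (hp : h.F p = p) : h.G s p = s := if_pos hp

theorem G_cases (h : Core P W) (s : ℕ) {p : PP d} (hp : h.F p ≠ p) :
    h.G s p = 1 ∨ h.G s p = -1 := by
  rw [G, if_neg hp]
  by_cases h0 : 0 ≤ (gg P W p).re
  · left; rw [if_pos h0]
  · right; rw [if_neg h0]

theorem gg_G (h : Core P W) {s : ℕ} (hs : d + 1 = s ^ 2) (p : PP d) :
    gg P W p = (h.G s p : ℂ) / s := by
  have hsR : ((d : ℝ) + 1) = (s : ℝ) ^ 2 := by exact_mod_cast hs
  have hs0 : 0 < (s : ℝ) := by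
    have : s ≠ 0 := by rintro rfl; simp at hs
    exact_mod_cast Nat.pos_of_ne_zero this
  by_cases hp : h.F p = p
  · rw [h.gg_fix hp, h.G_fix s hp]
    have : (s : ℂ) ≠ 0 := by exact_mod_cast hs0.ne'
    push_cast
    rw [div_self this]
  · have h6 := h.norm_gg p
    rw [if_neg hp, h.gg_real p, Complex.norm_real, Real.norm_eq_abs, sq_abs, hsR] at h6
    have h7 : ((gg P W p).re * s) ^ 2 = 1 := by
      rw [mul_pow, h6]
      field_simp
    have h8 : ((gg P W p).re * s) = h.G s p := by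
      rcases sq_eq_sq_iff_eq_or_eq_neg.mp (h7.trans (one_pow 2).symm) with h8 | h8
      · have h9 : 0 ≤ (gg P W p).re := by
          by_contra hneg
          push Not at hneg
          nlinarith
        rw [G, if_neg hp, if_pos h9, h8]; norm_num
      · have h9 : ¬ 0 ≤ (gg P W p).re := by
          intro hpos
          nlinarith
        rw [G, if_neg hp, if_neg h9, h8]; norm_num
    rw [h.gg_real p]
    have h10 : (gg P W p).re = (h.G s p : ℝ) / s := by
      rw [← h8, mul_div_assoc, div_self hs0.ne', mul_one]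
    rw [h10]
    push_cast
    rfl

theorem sne (hd : 1 ≤ d) {s : ℕ} (hs : d + 1 = s ^ 2) : (s : ℂ) ≠ 0 := by
  have : s ≠ 0 := by rintro rfl; simp at hs
  exact_mod_cast this

theorem G_eq (h : Core P W) {s : ℕ} (hs : d + 1 = s ^ 2) (p : PP d) :
    (h.G s p : ℂ) = s * gg P W p := by
  rw [h.gg_G hs, mul_div_cancel₀ _ (sne (NeZero.pos d) hs)]

theorem G_period (h : Core P W) {s : ℕ} (hs : d + 1 = s ^ 2) (p : PP d) {k : PP d}
    (hk : h.F k = k) : h.G s (p + k) = h.G s p := by
  have : (h.G s (p + k) : ℂ) = h.G s p := by rw [h.G_eq hs, h.G_eq hs, h.gg_period p hk]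
  exact_mod_cast this

theorem G_neg (h : Core P W) {s : ℕ} (hs : d + 1 = s ^ 2) (p : PP d) :
    h.G s (-p) = h.G s p := by
  have : (h.G s (-p) : ℂ) = h.G s p := by rw [h.G_eq hs, h.G_eq hs, h.gg_neg p]
  exact_mod_cast this

theorem G_sum (h : Core P W) {s : ℕ} (hs : d + 1 = s ^ 2) {k : ℤ} (hk : trace W = k) :
    ∑ p : PP d, h.G s p = s * d * k := by
  have : ∑ p : PP d, (h.G s p : ℂ) = s * d * k := by
    rw [sum_congr rfl (fun p _ => h.G_eq hs p), ← mul_sum, sum_gg, hk, h.tr]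
    ring
  exact_mod_cast this

theorem G_auto (h : Core P W) {s : ℕ} (hs : d + 1 = s ^ 2) {k : ℤ} (hk : trace W = k)
    {r : PP d} (hr : h.F r ≠ r) : ∑ p : PP d, h.G s p * h.G s (p + r) = d * k ^ 2 := by
  have hsC : ((d : ℂ) + 1) = (s : ℂ) ^ 2 := by exact_mod_cast hs
  have hs0 := sne (NeZero.pos d) hs
  have : ∑ p : PP d, (h.G s p : ℂ) * h.G s (p + r) = d * k ^ 2 := by
    have e : ∀ p : PP d, (h.G s p : ℂ) * h.G s (p + r) =
        s ^ 2 * (gg P W p * star (gg P W (p + r))) := by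
      intro p
      rw [h.G_eq hs, h.G_eq hs, h.star_gg]; ring
    rw [sum_congr rfl (fun p _ => e p), ← mul_sum, h.auto hr, hk, hsC]
    rw [show star (k : ℂ) = (k : ℂ) by simp]
    field_simp
  exact_mod_cast this

theorem G_auto' (h : Core P W) {s : ℕ} (hs : d + 1 = s ^ 2) {k : ℤ} (hk : k ^ 2 = h.K.card)
    {r : PP d} (hr : h.F r = r) :
    ∑ p : PP d, h.G s p * h.G s (p + r) = d * k ^ 2 + d ^ 2 := by
  classical
  have e : ∀ p : PP d, h.G s p * h.G s (p + r) = 1 + (if h.F p = p then (s : ℤ) ^ 2 - 1 else 0) := by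
    intro p
    rw [h.G_period hs p hr]
    by_cases hp : h.F p = p
    · rw [h.G_fix s hp, if_pos hp]; ring
    · rw [if_neg hp]
      rcases h.G_cases s hp with h1 | h1 <;> rw [h1] <;> ring
  rw [sum_congr rfl (fun p _ => e p), sum_add_distrib, sum_const, card_univ, Fintype.card_prod,
    ZMod.card, ← sum_filter, sum_const]
  have h2 : (univ.filter fun p => h.F p = p).card = h.K.card := by
    rw [K]
  have hs' : (s : ℤ) ^ 2 = d + 1 := by exact_mod_cast hs.symm
  rw [h2, nsmul_eq_mul, nsmul_eq_mul, ← hk, hs']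
  push_cast
  ring

theorem F_iff_grp (h : Core P W) (p : PP d) : p ∈ grp (d := d) h.sW ↔ h.F p = p :=
  (h.fix_iff p).symm

/-- character sums over the group of commuting displacement operators -/
theorem sum_K (h : Core P W) (q : PP d) :
    ∑ p ∈ h.K, ch (sf p q) = 0 ∨ ∑ p ∈ h.K, ch (sf p q) = h.K.card := by
  classical
  by_cases hq : ∀ p ∈ h.K, ch (sf p q) = 1
  · right
    rw [sum_congr rfl hq, sum_const, nsmul_eq_mul, mul_one]
  · left
    push Not at hq
    obtain ⟨p0, hp0, h1⟩ := hq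
    have h2 : ch (sf p0 q) * ∑ p ∈ h.K, ch (sf p q) = ∑ p ∈ h.K, ch (sf p q) := by
      rw [mul_sum]
      refine sum_bij' (fun p _ => p0 + p) (fun p _ => -p0 + p) ?_ ?_ ?_ ?_ ?_
      · intro p hp
        simp only [K, mem_filter, mem_univ, true_and] at hp hp0 ⊢
        rw [h.F_add, hp0, hp]
      · intro p hp
        simp only [K, mem_filter, mem_univ, true_and] at hp hp0 ⊢
        rw [← h.F_iff_grp] at hp hp0 ⊢
        exact add_mem (neg_mem hp0) hp
      · intro p _; simp
      · intro p _; simp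
      · intro p _
        rw [← ch_add, ← sf_add_left]
    have h3 : (ch (sf p0 q) - 1) * ∑ p ∈ h.K, ch (sf p q) = 0 := by
      rw [sub_mul, h2, one_mul, sub_self]
    rcases mul_eq_zero.mp h3 with h4 | h4
    · exact absurd (sub_eq_zero.mp h4) h1
    · exact h4

theorem ft_sq (h : Core P W) {s : ℕ} (hs : d + 1 = s ^ 2) {k : ℤ} (hk : trace W = k)
    (hk2 : k ^ 2 = h.K.card) {q : PP d} (hq : q ≠ 0) :
    ft (h.G s) q ^ 2 = d ^ 2 * ∑ p ∈ h.K, ch (sf p q) := by
  classical
  have h0 : ft (h.G s) q = ∑ p : PP d, (h.G s p : ℂ) * ch (-sf p q) := by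
    rw [ft]
    refine Fintype.sum_equiv (Equiv.neg _) _ _ (fun p => ?_)
    rw [Equiv.neg_apply, h.G_neg hs, sf_neg_left, neg_neg]
  have h1 : ft (h.G s) q ^ 2 = ∑ p' : PP d, ∑ r : PP d,
      ((h.G s p' : ℂ) * h.G s (p' + r)) * ch (sf r q) := by
    calc ft (h.G s) q ^ 2 = (∑ p' : PP d, (h.G s p' : ℂ) * ch (-sf p' q)) *
          ∑ p : PP d, (h.G s p : ℂ) * ch (sf p q) := by rw [← h0, sq]; rfl
      _ = _ := by
          rw [sum_mul_sum]
          refine sum_congr rfl fun p' _ => ?_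
          rw [← Equiv.sum_comp (Equiv.addLeft p') (fun p => (h.G s p' : ℂ) * ch (-sf p' q) *
            ((h.G s p : ℂ) * ch (sf p q)))]
          refine sum_congr rfl fun r _ => ?_
          rw [Equiv.coe_addLeft, sf_add_left, ch_add]
          have : ch (-sf p' q) * ch (sf p' q) = 1 := by
            rw [← ch_add, neg_add_cancel, ch_zero]
          linear_combination (h.G s p' : ℂ) * h.G s (p' + r) * ch (sf r q) * this
  rw [h1, sum_comm]
  have e : ∀ r : PP d, ∑ p' : PP d, ((h.G s p' : ℂ) * h.G s (p' + r)) * ch (sf r q) =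
      (d * k ^ 2 : ℂ) * ch (sf r q) + (if h.F r = r then (d : ℂ) ^ 2 * ch (sf r q) else 0) := by
    intro r
    rw [← sum_mul]
    by_cases hr : h.F r = r
    · rw [if_pos hr]
      have h2 := h.G_auto' hs hk2 hr
      have h3 : ∑ p : PP d, (h.G s p : ℂ) * h.G s (p + r) = d * k ^ 2 + d ^ 2 := by
        exact_mod_cast h2
      rw [h3]; ring
    · rw [if_neg hr]
      have h2 := h.G_auto hs hk hr
      have h3 : ∑ p : PP d, (h.G s p : ℂ) * h.G s (p + r) = d * k ^ 2 := by
        exact_mod_cast h2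
      rw [h3]; ring
  rw [sum_congr rfl (fun r _ => e r), sum_add_distrib, ← mul_sum, sum_sf, if_neg hq, mul_zero,
    zero_add, ← sum_filter, mul_sum]
  rw [K]

theorem ft_zero (G : PP d → ℤ) : ft G 0 = ((∑ p : PP d, G p : ℤ) : ℂ) := by
  rw [ft]
  push_cast
  refine sum_congr rfl fun p _ => ?_
  have : sf p 0 = 0 := by simp [sf]
  rw [this, ch_zero, mul_one]

/-- the Fourier coefficients -/
theorem ft_G (h : Core P W) {s : ℕ} (hs : d + 1 = s ^ 2) {k : ℤ} (hk : trace W = k)
    (hk2 : k ^ 2 = h.K.card) {q : PP d} (hq : q ≠ 0) :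
    ft (h.G s) q = 0 ∨ ft (h.G s) q = ((d * k : ℤ) : ℂ) ∨ ft (h.G s) q = ((-(d * k) : ℤ) : ℂ) := by
  have h1 := h.ft_sq hs hk hk2 hq
  rcases h.sum_K q with h2 | h2
  · left
    rw [h2, mul_zero] at h1
    exact pow_eq_zero_iff (two_ne_zero) |>.mp h1
  · right
    have h3 : (h.K.card : ℂ) = (k : ℂ) ^ 2 := by
      have : ((h.K.card : ℤ) : ℂ) = ((k ^ 2 : ℤ) : ℂ) := by rw [hk2]
      push_cast at this
      exact this
    rw [h2, h3, ← mul_pow] at h1
    rcases sq_eq_sq_iff_eq_or_eq_neg.mp h1 with h4 | h4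
    · left; rw [h4]; push_cast; rfl
    · right; rw [h4]; push_cast; rfl

theorem G_unit (h : Core P W) {s : ℕ} (hs : d + 1 = s ^ 2) {k : ℤ} (hk : trace W = k)
    (hk2 : k ^ 2 = h.K.card) (t : ℕ) (ht : Nat.Coprime t d) (p : PP d) :
    h.G s ((t : ZMod d) • p) = h.G s p := by
  refine unit_inv (h.G s) (fun q => ?_) t ht p
  by_cases hq : q = 0
  · exact ⟨_, by rw [hq]; exact ft_zero _⟩
  · rcases h.ft_G hs hk hk2 hq with h1 | h1 | h1
    · exact ⟨0, by rw [h1]; simp⟩
    · exact ⟨_, h1⟩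
    · exact ⟨_, h1⟩

end Core

end Pool.Agent.Q92.Sic
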